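import Mathlib

namespace Pool.Agent.H74.MD

open SimpleGraph

/-- The cyclic norm of the integer `u` modulo `n`. -/
def cyc (n u : ℤ) : ℤ := min (u % n) (n - u % n)

theorem cyc_of_dvd_sub {n u d : ℤ} (h0 : 0 ≤ d) (h1 : 2 * d ≤ n) (hn : 0 < n)
    (h : n ∣ u - d) : cyc n u = d := by
  obtain ⟨k, hk⟩ := h
  have hu : u = d + n * k := by omega
  have hmod : u % n = d := by
    rw [hu, Int.add_mul_emod_self_left]
    exact Int.emod_eq_of_lt h0 (by omega)
  unfold cyc
  rw [hmod]
  omega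

theorem cyc_of_dvd_add {n u d : ℤ} (h0 : 0 ≤ d) (h1 : 2 * d ≤ n) (hn : 0 < n)
    (h : n ∣ u + d) : cyc n u = d := by
  rcases eq_or_lt_of_le h0 with h00 | h00
  · subst h00
    exact cyc_of_dvd_sub le_rfl h1 hn (by simpa using h)
  · obtain ⟨k, hk⟩ := h
    have hu : u = (n - d) + n * (k - 1) := by
      have : n * (k - 1) = n * k - n := by ring
      omega
    have hmod : u % n = n - d := by
      rw [hu, Int.add_mul_emod_self_left]
      exact Int.emod_eq_of_lt (by omega) (by omega)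
    unfold cyc
    rw [hmod]
    omega

theorem cyc_add_mul (n u k : ℤ) : cyc n (u + n * k) = cyc n u := by
  unfold cyc
  rw [Int.add_mul_emod_self_left]

theorem cyc_nonneg {n u : ℤ} (hn : 0 < n) : 0 ≤ cyc n u := by
  unfold cyc
  have h1 := Int.emod_nonneg u (by omega : n ≠ 0)
  have h2 := Int.emod_lt_of_pos u hn
  omega

theorem two_cyc_le {n u : ℤ} (hn : 0 < n) : 2 * cyc n u ≤ n := by
  unfold cyc
  have h1 := Int.emod_nonneg u (by omega : n ≠ 0)
  have h2 := Int.emod_lt_of_pos u hn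
  omega

theorem cyc_dvd {n u : ℤ} : n ∣ u - cyc n u ∨ n ∣ u + cyc n u := by
  unfold cyc
  rcases le_total (u % n) (n - u % n) with h | h
  · left
    rw [min_eq_left h]
    exact Int.dvd_self_sub_of_emod_eq rfl
  · right
    rw [min_eq_right h]
    have h1 : n ∣ u - u % n := Int.dvd_self_sub_of_emod_eq rfl
    have : u + (n - u % n) = (u - u % n) + n := by ring
    rw [this]
    exact dvd_add h1 (dvd_refl n)

theorem cyc_neg {n u : ℤ} (hn : 0 < n) : cyc n (-u) = cyc n u := by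
  rcases cyc_dvd (n := n) (u := u) with h | h
  · apply cyc_of_dvd_add (cyc_nonneg hn) (two_cyc_le hn) hn
    have : -u + cyc n u = -(u - cyc n u) := by ring
    rw [this]
    exact (dvd_neg).2 h
  · apply cyc_of_dvd_sub (cyc_nonneg hn) (two_cyc_le hn) hn
    have : -u - cyc n u = -(u + cyc n u) := by ring
    rw [this]
    exact (dvd_neg).2 h

/-- Linear description of `cyc n u` for `|u| ≤ 3 n / 2`. -/
theorem cyc_spec {n u : ℤ} (hn : 0 < n) (h1 : -(3 * n) ≤ 2 * u) (h2 : 2 * u ≤ 3 * n) :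
    (0 ≤ u ∧ 2 * u ≤ n ∧ cyc n u = u) ∨ (u ≤ 0 ∧ -n ≤ 2 * u ∧ cyc n u = -u) ∨
    (n ≤ 2 * u ∧ u ≤ n ∧ cyc n u = n - u) ∨ (2 * u ≤ -n ∧ -n ≤ u ∧ cyc n u = n + u) ∨
    (n ≤ u ∧ cyc n u = u - n) ∨ (u ≤ -n ∧ cyc n u = -n - u) := by
  by_cases c1 : n ≤ u
  · right; right; right; right; left
    refine ⟨c1, cyc_of_dvd_sub (by omega) (by omega) hn ⟨1, by ring⟩⟩
  by_cases c2 : u ≤ -n
  · right; right; right; right; right
    refine ⟨c2, cyc_of_dvd_add (by omega) (by omega) hn ⟨-1, by ring⟩⟩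
  by_cases c3 : 0 ≤ u
  · by_cases c4 : 2 * u ≤ n
    · left
      exact ⟨c3, c4, cyc_of_dvd_sub c3 c4 hn ⟨0, by ring⟩⟩
    · right; right; left
      exact ⟨by omega, by omega, cyc_of_dvd_add (by omega) (by omega) hn ⟨1, by ring⟩⟩
  · by_cases c4 : -n ≤ 2 * u
    · right; left
      exact ⟨by omega, by omega, cyc_of_dvd_add (by omega) (by omega) hn ⟨0, by ring⟩⟩
    · right; right; right; left
      exact ⟨by omega, by omega, cyc_of_dvd_sub (by omega) (by omega) hn ⟨-1, by ring⟩⟩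

theorem cyc_eq_zero {n u : ℤ} (h : cyc n u = 0) : n ∣ u := by
  rcases cyc_dvd (n := n) (u := u) with h' | h' <;> simpa [h] using h'

/-- A recognition criterion for graph distances. -/
theorem dist_eq_of {V : Type*} (G : SimpleGraph V) (a : V) (f : V → ℕ)
    (h0 : f a = 0) (hz : ∀ v, f v = 0 → v = a)
    (hLip : ∀ u v, G.Adj u v → f u ≤ f v + 1)
    (hdec : ∀ v, f v ≠ 0 → ∃ w, G.Adj v w ∧ f w + 1 = f v) (v : V) : G.dist v a = f v := by
  have hwalk : ∀ (k : ℕ) (v : V), f v = k → ∃ p : G.Walk v a, p.length = k := by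
    intro k
    induction k with
    | zero =>
      intro v hv
      have := hz v hv
      subst this
      exact ⟨Walk.nil, rfl⟩
    | succ k ih =>
      intro v hv
      obtain ⟨w, hw, hfw⟩ := hdec v (by omega)
      obtain ⟨p, hp⟩ := ih w (by omega)
      exact ⟨Walk.cons hw p, by simp [hp]⟩
  have hlow : ∀ (u w : V) (p : G.Walk u w), f u ≤ f w + p.length := by
    intro u w p
    induction p with
    | nil => simp
    | cons hadj p ih =>
      have := hLip _ _ hadj
      simp only [Walk.length_cons]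
      omega
  obtain ⟨p, hp⟩ := hwalk (f v) v rfl
  apply le_antisymm
  · rw [← hp]
    exact dist_le p
  · have hr : G.Reachable v a := ⟨p⟩
    obtain ⟨q, hq⟩ := hr.exists_walk_length_eq_dist
    have := hlow v a q
    rw [h0] at this
    omega

end Pool.Agent.H74.MD
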