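import Mathlib

namespace Pool.Agent.H74.MD

open SimpleGraph

/-- `S` is a multiset resolving set of `G`: distinct vertices have distinct multisets of
distances (with multiplicities) to the elements of `S`. -/
def IsMultisetResolving {V : Type*} (G : SimpleGraph V) (S : Finset V) : Prop :=
  ∀ u v : V, S.val.map (fun s => G.dist u s) = S.val.map (fun s => G.dist v s) → u = v

/-- The multiset dimension: the least cardinality of a multiset resolving set, `⊤` (infinity) if
there is none. -/
noncomputable def mdim {V : Type*} (G : SimpleGraph V) : ℕ∞ :=
  ⨅ (S : Finset V) (_ : IsMultisetResolving G S), (S.card : ℕ∞)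

end Pool.Agent.H74.MD
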