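import Pool.Agent.H74.MD.Finite
import Pool.Agent.H74.MD.Defs

namespace Pool.Agent.H74.MD

open SimpleGraph

/-- integer coordinates of a vertex -/
def pt {n m : ℕ} (s : Fin n × Fin m) : ℤ × ℤ := (((s.1 : ℕ) : ℤ), ((s.2 : ℕ) : ℤ))

theorem code_pt {n m : ℕ} (hn : 3 ≤ n) (S : Finset (Fin n × Fin m)) (u : Fin n × Fin m) :
    code n (S.val.map pt) (pt u) =
      (S.val.map (fun s => ((cycleGraph n) □ (pathGraph m)).dist u s)).map
        (fun i : ℕ => (i : ℤ)) := by
  unfold code
  rw [Multiset.map_map, Multiset.map_map]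
  apply Multiset.map_congr rfl
  intro s _
  simp only [Function.comp_def]
  rw [dist_cylinder hn]
  unfold ds pt
  simp only
  congr 1
  exact (Int.abs_eq_natAbs _).symm

theorem resolving_iff {n m : ℕ} (hn : 3 ≤ n) (S : Finset (Fin n × Fin m)) :
    IsMultisetResolving ((cycleGraph n) □ (pathGraph m)) S ↔
      ¬ Cf n ((m : ℤ) - 1) (S.val.map pt) := by
  constructor
  · rintro H ⟨x, y, x', y', h1, h2, h3, h4, h5, h6⟩
    have hn0 : 0 < n := by omega
    have hd := red_dvd n hn0 x
    have hd' := red_dvd n hn0 x'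
    have key := H (red n hn0 x, ⟨y.toNat, by omega⟩) (red n hn0 x', ⟨y'.toNat, by omega⟩) ?_
    · have k1 : red n hn0 x = red n hn0 x' := congrArg Prod.fst key
      have k2 : y.toNat = y'.toNat := congrArg (fun z : Fin n × Fin m => (z.2 : ℕ)) key
      apply h5 (by omega)
      have e : x - x' = (x - (red n hn0 x : ℕ)) - (x' - (red n hn0 x' : ℕ)) := by
        rw [k1]; ring
      rw [e]
      exact dvd_sub hd hd'
    · apply Multiset.map_injective (f := fun i : ℕ => (i : ℤ)) Nat.cast_injective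
      rw [← code_pt hn, ← code_pt hn]
      have e1 : code n (S.val.map pt) (x, y) =
          code n (S.val.map pt) (pt ((red n hn0 x, ⟨y.toNat, by omega⟩) : Fin n × Fin m)) := by
        unfold code ds pt
        apply Multiset.map_congr rfl
        intro s _
        simp only
        congr 1
        · apply cyc_congr
          have e : x - s.1 - ((red n hn0 x : ℕ) - s.1) = x - (red n hn0 x : ℕ) := by ring
          rw [e]; exact hd
        · omega
      have e2 : code n (S.val.map pt) (x', y') =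
          code n (S.val.map pt) (pt ((red n hn0 x', ⟨y'.toNat, by omega⟩) : Fin n × Fin m)) := by
        unfold code ds pt
        apply Multiset.map_congr rfl
        intro s _
        simp only
        congr 1
        · apply cyc_congr
          have e : x' - s.1 - ((red n hn0 x' : ℕ) - s.1) = x' - (red n hn0 x' : ℕ) := by ring
          rw [e]; exact hd'
        · omega
      rw [← e1, ← e2]
      exact h6
  · intro H u v huv
    by_contra hne
    apply H
    refine ⟨(pt u).1, (pt u).2, (pt v).1, (pt v).2, ?_, ?_, ?_, ?_, ?_, ?_⟩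
    · unfold pt; simp only; omega
    · unfold pt; simp only; have := u.2.2; omega
    · unfold pt; simp only; omega
    · unfold pt; simp only; have := v.2.2; omega
    · intro e hd
      apply hne
      unfold pt at e hd
      simp only at e hd
      have h1 := fin_eq_of_dvd u.1 v.1 hd
      have h2 : u.2 = v.2 := Fin.ext (by omega)
      exact Prod.ext h1 h2
    · have := code_pt hn S u
      have h2 := code_pt hn S v
      show code n (S.val.map pt) (pt u) = code n (S.val.map pt) (pt v)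
      rw [this, h2, huv]

/-- a resolving set has at least three elements -/
theorem three_le {n m : ℕ} (hn : 3 ≤ n) (hm : 1 ≤ m) (S : Finset (Fin n × Fin m))
    (hS : IsMultisetResolving ((cycleGraph n) □ (pathGraph m)) S) : 3 ≤ S.card := by
  by_contra hlt
  have hc : S.card = 0 ∨ S.card = 1 ∨ S.card = 2 := by omega
  rcases hc with h | h | h
  · rw [Finset.card_eq_zero] at h
    subst h
    have := hS (⟨0, by omega⟩, ⟨0, by omega⟩) (⟨1, by omega⟩, ⟨0, by omega⟩) (by simp)
    rw [Prod.mk.injEq, Fin.mk.injEq] at this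
    omega
  · obtain ⟨s, rfl⟩ := Finset.card_eq_one.1 h
    rw [resolving_iff hn] at hS
    apply hS
    refine ⟨(s.1 : ℕ) + 1, (s.2 : ℕ), (s.1 : ℕ) - 1, (s.2 : ℕ), by omega, ?_, by omega, ?_, ?_, ?_⟩
    · have := s.2.2; omega
    · have := s.2.2; omega
    · intro _
      apply Ne4.ne (y := 0) (y' := 0) _ rfl
      unfold Ne4
      omega
    · simp only [Finset.singleton_val, Multiset.map_singleton, code, ds, pt]
      have e1 : cyc (n : ℤ) (((s.1 : ℕ) : ℤ) + 1 - ((s.1 : ℕ) : ℤ)) = 1 :=
        cyc_p (by omega) (by omega) (by omega) (by omega)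
      have e2 : cyc (n : ℤ) (((s.1 : ℕ) : ℤ) - 1 - ((s.1 : ℕ) : ℤ)) = 1 :=
        cyc_m (by omega) (by omega) (by omega) (by omega)
      rw [e1, e2]
  · obtain ⟨s, t, hst, rfl⟩ := Finset.card_eq_two.1 h
    apply hst
    apply hS s t
    have hnot : s ∉ ({t} : Finset (Fin n × Fin m)) := by simpa using hst
    have e : ({s, t} : Finset (Fin n × Fin m)).val = s ::ₘ {t} := by
      rw [Finset.insert_val_of_notMem hnot]; rfl
    rw [e]
    simp only [Multiset.map_cons, Multiset.map_singleton, dist_self]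
    rw [dist_comm]
    exact Multiset.cons_swap _ _ 0

theorem mdim_le {V : Type*} {G : SimpleGraph V} {S : Finset V} {k : ℕ}
    (h : IsMultisetResolving G S) (hk : S.card = k) : mdim G ≤ k := by
  unfold mdim
  rw [← hk]
  exact iInf₂_le S h

theorem le_mdim {V : Type*} {G : SimpleGraph V} {k : ℕ}
    (h : ∀ S : Finset V, IsMultisetResolving G S → k ≤ S.card) : (k : ℕ∞) ≤ mdim G := by
  unfold mdim
  exact le_iInf₂ (fun S hS => by exact_mod_cast h S hS)

theorem mdim_top {V : Type*} {G : SimpleGraph V}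
    (h : ∀ S : Finset V, ¬ IsMultisetResolving G S) : mdim G = ⊤ := by
  unfold mdim
  simp [h]

/-- the vertex with given integer coordinates -/
theorem exists_pt {n m : ℕ} {a r : ℤ} (h : 0 ≤ a ∧ a < n ∧ 0 ≤ r ∧ r ≤ (m : ℤ) - 1) :
    ∃ s : Fin n × Fin m, pt s = (a, r) := by
  refine ⟨(⟨a.toNat, by omega⟩, ⟨r.toNat, by omega⟩), ?_⟩
  unfold pt
  simp only [Prod.mk.injEq]
  constructor <;> omega

theorem mdim_le_three {n m : ℕ} (hn : 3 ≤ n) (h : Ex3 n ((m : ℤ) - 1)) :
    mdim ((cycleGraph n) □ (pathGraph m)) ≤ 3 := by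
  obtain ⟨a0, r0, a1, r1, a2, r2, b0, b1, b2, ⟨d01, d02, d12⟩, hc⟩ := h
  obtain ⟨s0, e0⟩ := exists_pt b0
  obtain ⟨s1, e1⟩ := exists_pt b1
  obtain ⟨s2, e2⟩ := exists_pt b2
  have n01 : s0 ≠ s1 := by rintro rfl; exact d01 (e0.symm.trans e1)
  have n02 : s0 ≠ s2 := by rintro rfl; exact d02 (e0.symm.trans e2)
  have n12 : s1 ≠ s2 := by rintro rfl; exact d12 (e1.symm.trans e2)
  have hval : ({s0, s1, s2} : Finset (Fin n × Fin m)).val = s0 ::ₘ s1 ::ₘ {s2} := by
    rw [Finset.insert_val_of_notMem (by simp [n01, n02]),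
      Finset.insert_val_of_notMem (by simpa using n12)]
    rfl
  refine mdim_le (S := {s0, s1, s2}) (k := 3) ?_ (Finset.card_eq_three.2 ⟨s0, s1, s2, n01, n02, n12, rfl⟩)
  rw [resolving_iff hn, hval]
  simp only [Multiset.map_cons, Multiset.map_singleton, e0, e1, e2]
  exact hc

theorem mdim_le_four {n m : ℕ} (hn : 3 ≤ n) (h : Ex4 n ((m : ℤ) - 1)) :
    mdim ((cycleGraph n) □ (pathGraph m)) ≤ 4 := by
  obtain ⟨a0, r0, a1, r1, a2, r2, a3, r3, b0, b1, b2, b3, ⟨d01, d02, d03, d12, d13, d23⟩, hc⟩ := h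
  obtain ⟨s0, e0⟩ := exists_pt b0
  obtain ⟨s1, e1⟩ := exists_pt b1
  obtain ⟨s2, e2⟩ := exists_pt b2
  obtain ⟨s3, e3⟩ := exists_pt b3
  have n01 : s0 ≠ s1 := by rintro rfl; exact d01 (e0.symm.trans e1)
  have n02 : s0 ≠ s2 := by rintro rfl; exact d02 (e0.symm.trans e2)
  have n03 : s0 ≠ s3 := by rintro rfl; exact d03 (e0.symm.trans e3)
  have n12 : s1 ≠ s2 := by rintro rfl; exact d12 (e1.symm.trans e2)
  have n13 : s1 ≠ s3 := by rintro rfl; exact d13 (e1.symm.trans e3)
  have n23 : s2 ≠ s3 := by rintro rfl; exact d23 (e2.symm.trans e3)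
  have hval : ({s0, s1, s2, s3} : Finset (Fin n × Fin m)).val = s0 ::ₘ s1 ::ₘ s2 ::ₘ {s3} := by
    rw [Finset.insert_val_of_notMem (by simp [n01, n02, n03]),
      Finset.insert_val_of_notMem (by simp [n12, n13]),
      Finset.insert_val_of_notMem (by simpa using n23)]
    rfl
  refine mdim_le (S := {s0, s1, s2, s3}) (k := 4) ?_ ?_
  · rw [resolving_iff hn, hval]
    simp only [Multiset.map_cons, Multiset.map_singleton, e0, e1, e2, e3]
    exact hc
  · rw [← Finset.card_val, hval]
    rfl

/-- in the range `Fail` there is no resolving set with three elements -/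
theorem four_le {n m : ℕ} (hn : 4 ≤ n) (hm : 2 ≤ m) (hf : Fail n ((m : ℤ) - 1))
    (S : Finset (Fin n × Fin m))
    (hS : IsMultisetResolving ((cycleGraph n) □ (pathGraph m)) S) : 4 ≤ S.card := by
  by_contra hlt
  have h3 := three_le (by omega) (by omega) S hS
  have hc : S.card = 3 := by omega
  obtain ⟨s0, s1, s2, n01, n02, n12, rfl⟩ := Finset.card_eq_three.1 hc
  have hval : ({s0, s1, s2} : Finset (Fin n × Fin m)).val = s0 ::ₘ s1 ::ₘ {s2} := by
    rw [Finset.insert_val_of_notMem (by simp [n01, n02]),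
      Finset.insert_val_of_notMem (by simpa using n12)]
    rfl
  rw [resolving_iff (by omega), hval] at hS
  apply hS
  simp only [Multiset.map_cons, Multiset.map_singleton, pt]
  have dd : ∀ s t : Fin n × Fin m, s ≠ t →
      (((s.2 : ℕ) : ℤ) = ((t.2 : ℕ) : ℤ) → ¬ (n : ℤ) ∣ ((s.1 : ℕ) : ℤ) - ((t.1 : ℕ) : ℤ)) := by
    intro s t hst e hd
    apply hst
    exact Prod.ext (fin_eq_of_dvd s.1 t.1 hd) (Fin.ext (by omega))
  have q0 := s0.2.2
  have q1 := s1.2.2
  have q2 := s2.2.2
  exact no_three (n := n) (h := (m : ℤ) - 1) (by omega) (by omega) hf (by omega) (by omega)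
    (by omega) (by omega) (by omega) (by omega) (dd _ _ n01) (dd _ _ n02) (dd _ _ n12)

end Pool.Agent.H74.MD
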