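import Pool.Agent.H74.MD.NoFour2

namespace Pool.Agent.H74.MD

def pr43 : List (ℕ × ℕ) :=
    [(5, 7), (2, 8), (1, 6), (3, 6), (4, 6), (5, 11), (4, 5), (5, 8), (6, 9), (5, 6), (1, 4),
    (2, 5), (3, 5), (1, 5), (0, 8), (1, 7), (4, 9), (4, 11), (0, 4), (0, 11)]

theorem ok43 : okP 4 3 pr43 = true := by decide +kernel

theorem f43 : chk4 4 3 pr43 = true := by decide +kernel

def pr44 : List (ℕ × ℕ) :=
    [(9, 11), (5, 8), (6, 9), (10, 13), (9, 12), (4, 6), (4, 11), (4, 9), (0, 14), (2, 12),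
    (6, 12), (4, 5), (4, 7), (1, 4), (0, 7), (2, 5), (0, 5), (4, 10), (6, 10), (2, 4), (8, 13),
    (8, 15), (0, 4), (4, 12), (8, 14), (0, 8), (8, 12)]

theorem ok44 : okP 4 4 pr44 = true := by decide +kernel

theorem f44 : chk4 4 4 pr44 = true := by decide +kernel

def pr53 : List (ℕ × ℕ) :=
    [(6, 10), (7, 11), (8, 14), (5, 9), (7, 8), (9, 10), (5, 6), (1, 7), (4, 8), (5, 7), (5, 8),
    (2, 7), (3, 8), (2, 14), (1, 5), (5, 10), (4, 5), (2, 6), (3, 9), (3, 11), (2, 12),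
    (5, 11), (5, 14), (1, 9), (1, 8), (4, 7), (7, 14), (2, 5), (4, 9), (1, 6), (1, 11),
    (1, 13), (1, 14), (2, 9), (3, 5), (4, 6), (4, 12), (4, 14), (6, 12), (6, 13), (8, 11),
    (9, 13), (9, 14), (12, 13), (0, 6), (0, 9), (3, 6), (6, 11), (9, 12)]

theorem ok53 : okP 5 3 pr53 = true := by decide +kernel

theorem f53 : chk4 5 3 pr53 = true := by decide +kernel

def pr54 : List (ℕ × ℕ) :=
    [(6, 10), (7, 11), (9, 10), (8, 14), (12, 13), (10, 11), (14, 15), (11, 15), (10, 14),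
    (1, 7), (4, 8), (6, 16), (5, 10), (13, 19), (5, 11), (5, 14), (6, 7), (8, 9), (1, 5),
    (12, 16), (4, 5), (9, 19), (6, 12), (9, 13), (2, 12), (2, 6), (3, 13), (3, 9), (5, 6),
    (5, 9), (6, 11), (9, 14), (2, 14), (12, 19), (13, 16), (0, 6), (6, 14), (2, 3), (4, 6),
    (9, 12), (10, 16), (1, 11), (3, 8), (6, 13), (8, 10), (10, 15), (10, 19), (0, 9), (1, 6),
    (4, 14), (7, 10), (2, 7), (4, 9), (1, 8), (1, 9), (1, 14), (2, 5), (2, 9), (2, 19), (3, 5),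
    (3, 11), (3, 16), (4, 7), (6, 18), (7, 19), (8, 16), (9, 17), (11, 16), (11, 17), (11, 18),
    (14, 17), (14, 18), (14, 19), (17, 18), (3, 6), (3, 18), (7, 12), (8, 13), (9, 11)]

theorem ok54 : okP 5 4 pr54 = true := by decide +kernel

theorem f54 : chk4 5 4 pr54 = true := by decide +kernel

def pr62 : List (ℕ × ℕ) :=
    [(2, 11), (4, 7), (2, 7), (1, 5), (1, 3), (1, 6), (3, 5), (3, 8), (1, 8), (0, 7), (0, 11),
    (0, 1), (0, 5), (2, 4), (0, 8), (0, 10), (0, 3), (0, 6)]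

theorem ok62 : okP 6 2 pr62 = true := by decide +kernel

theorem f62 : chk4 6 2 pr62 = true := by decide +kernel

def pr63 : List (ℕ × ℕ) :=
    [(7, 12), (8, 13), (5, 14), (9, 14), (1, 8), (2, 9), (1, 6), (7, 11), (1, 16), (6, 8),
    (3, 8), (7, 9), (5, 8), (2, 7), (3, 12), (4, 9), (7, 14), (8, 17), (8, 10), (10, 13),
    (6, 13), (6, 17), (0, 1), (1, 3), (3, 5), (0, 5), (1, 17), (2, 12), (4, 14), (0, 8),
    (0, 12), (3, 6), (3, 13), (0, 10), (1, 10)]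

theorem ok63 : okP 6 3 pr63 = true := by decide +kernel

theorem f63 : chk4 6 3 pr63 = true := by decide +kernel

def pr64 : List (ℕ × ℕ) :=
    [(7, 12), (9, 14), (8, 13), (13, 18), (15, 20), (13, 17), (1, 8), (2, 9), (14, 19),
    (12, 16), (3, 8), (16, 17), (4, 9), (1, 6), (12, 14), (8, 15), (11, 14), (7, 14), (7, 10),
    (14, 17), (9, 12), (14, 16), (14, 23), (10, 16), (16, 19), (6, 13), (4, 16), (9, 23),
    (9, 19), (10, 12), (2, 11), (7, 16), (4, 7), (4, 11), (5, 20), (6, 21), (1, 15), (13, 20),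
    (4, 14), (7, 9), (10, 14), (11, 19), (3, 5), (3, 6), (5, 9), (6, 18), (2, 12), (6, 12),
    (0, 10), (1, 13), (2, 7), (6, 22)]

theorem ok64 : okP 6 4 pr64 = true := by decide +kernel

theorem f64 : chk4 6 4 pr64 = true := by decide +kernel

def pr72 : List (ℕ × ℕ) :=
    [(1, 7), (2, 8), (6, 7), (5, 13), (3, 9), (4, 12), (3, 11), (5, 6), (0, 8), (0, 13),
    (7, 13), (0, 1), (8, 9), (2, 3), (2, 12), (4, 5), (5, 9), (1, 12), (3, 13), (4, 10),
    (6, 9), (1, 9), (4, 8), (6, 12), (2, 10), (2, 13), (3, 7), (4, 7), (4, 9), (6, 10),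
    (0, 10), (1, 10), (0, 11), (1, 11), (2, 7), (2, 11), (3, 12), (5, 7), (5, 8), (5, 10),
    (5, 11), (6, 11)]

theorem ok72 : okP 7 2 pr72 = true := by decide +kernel

theorem f72 : chk4 7 2 pr72 = true := by decide +kernel

def pr73 : List (ℕ × ℕ) :=
    [(8, 14), (12, 20), (13, 14), (9, 15), (3, 9), (4, 12), (10, 16), (11, 19), (1, 9), (6, 12),
    (2, 16), (2, 10), (5, 11), (8, 9), (7, 8), (7, 13), (9, 10), (11, 12), (1, 7), (8, 13),
    (6, 7), (12, 13), (4, 14), (7, 15), (2, 19), (3, 14), (5, 16), (7, 20), (8, 16), (13, 19),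
    (2, 12), (2, 20), (6, 13), (7, 14), (0, 8), (0, 13), (5, 19), (2, 9), (5, 9), (5, 15),
    (1, 12), (3, 13), (4, 8), (5, 12), (6, 9), (1, 8), (1, 18), (1, 19), (6, 16), (6, 17),
    (10, 11), (2, 8), (3, 7), (3, 20), (4, 7), (4, 15), (5, 13), (9, 16), (12, 19), (0, 10),
    (0, 11), (2, 13), (5, 8), (8, 15), (8, 17), (9, 18), (12, 17), (13, 18), (13, 20), (1, 2),
    (1, 5), (1, 10), (1, 11), (2, 4), (2, 6), (3, 5), (6, 10), (9, 20), (11, 16)]

theorem ok73 : okP 7 3 pr73 = true := by decide +kernel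

theorem f73 : chk4 7 3 pr73 = true := by decide +kernel

end Pool.Agent.H74.MD
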