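import Pool.Agent.H74.MD.NoFour2

namespace Pool.Agent.H74.MD

def pr65 : List (ℕ × ℕ) :=
    [(13, 18), (15, 20), (14, 19), (14, 16), (19, 24), (21, 26), (9, 14), (7, 12), (7, 14),
    (4, 9), (8, 15), (12, 14), (12, 16), (5, 26), (1, 28), (1, 6), (2, 9), (20, 25), (3, 8),
    (1, 8), (16, 17), (13, 20), (18, 23), (8, 13), (18, 19), (13, 17), (10, 15), (13, 14),
    (12, 19), (14, 21), (10, 20), (7, 23), (8, 17), (13, 16), (16, 19), (14, 17), (15, 18),
    (8, 18), (8, 20), (9, 19), (4, 25), (13, 15), (15, 17), (17, 20), (13, 22), (4, 11),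
    (11, 13), (11, 16), (12, 18), (14, 15), (4, 16), (15, 16), (23, 28), (10, 22), (13, 23),
    (2, 14), (11, 18), (17, 29), (3, 6), (6, 23), (7, 21), (8, 19), (11, 21), (12, 27),
    (13, 25), (0, 16), (1, 10), (1, 17), (1, 20), (2, 7), (3, 13), (4, 7), (4, 21), (5, 8),
    (8, 22), (8, 25), (9, 22), (9, 28), (12, 28), (14, 23)]

theorem ok65 : okP 6 5 pr65 = true := by decide +kernel

theorem f65 : chk4 6 5 pr65 = true := by decide +kernel

end Pool.Agent.H74.MD
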