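import Pool.Agent.H74.MD.NoFour2

namespace Pool.Agent.H74.MD

def pr75 : List (ℕ × ℕ) :=
    [(15, 21), (17, 23), (16, 22), (13, 14), (11, 19), (27, 28), (25, 33), (12, 20), (20, 21),
    (8, 16), (8, 14), (13, 19), (18, 26), (26, 34), (2, 8), (9, 17), (6, 12), (12, 18),
    (19, 27), (19, 20), (12, 26), (22, 28), (3, 9), (14, 20), (24, 25), (21, 22), (15, 16),
    (1, 7), (10, 16), (23, 29), (24, 30), (9, 23), (1, 9), (16, 17), (5, 11), (2, 10),
    (18, 19), (15, 23), (14, 27), (20, 26), (14, 22), (6, 7), (9, 15), (15, 29), (2, 16),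
    (14, 15), (4, 12), (14, 21), (9, 10), (7, 15), (5, 19), (7, 20), (20, 34), (2, 33),
    (16, 24), (9, 19), (3, 4), (10, 20), (11, 12), (21, 27), (19, 25), (13, 27), (9, 11),
    (11, 15), (13, 22), (18, 23), (17, 26), (21, 29), (8, 22), (10, 12), (16, 30), (21, 34),
    (1, 12), (5, 13), (13, 16), (19, 23), (19, 33), (22, 30), (27, 33), (16, 21), (8, 27),
    (12, 13), (19, 21), (2, 19), (21, 23), (21, 26), (7, 14), (8, 9), (12, 16), (23, 33),
    (15, 26), (0, 8), (2, 12), (20, 23), (23, 34), (0, 9), (0, 12), (2, 9), (3, 20), (5, 12),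
    (9, 16), (9, 18), (12, 19), (15, 17), (16, 26), (17, 21), (18, 20), (25, 30), (2, 7),
    (2, 20), (3, 14), (4, 14), (5, 7), (15, 20), (15, 34), (16, 34), (17, 29), (18, 21),
    (18, 34), (20, 29), (21, 28), (2, 21), (3, 12), (5, 30), (12, 15), (15, 33), (20, 27),
    (23, 28), (0, 20), (1, 2), (3, 26), (3, 34), (4, 5), (5, 6), (5, 9), (9, 13), (9, 26),
    (11, 21), (12, 23), (15, 22), (15, 32), (22, 31), (22, 32), (22, 33), (26, 31), (27, 32),
    (28, 29), (32, 33), (0, 10), (0, 11), (0, 13), (0, 23), (0, 26), (0, 31), (0, 32), (1, 8),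
    (1, 15), (1, 32), (2, 3), (3, 11), (4, 9), (4, 29), (5, 10), (5, 16), (6, 10), (6, 20),
    (6, 31), (9, 21), (9, 27), (10, 21), (11, 22), (12, 17), (12, 22), (14, 31), (22, 29),
    (25, 31)]

theorem ok75 : okP 7 5 pr75 = true := by decide +kernel

theorem f75 : chk4 7 5 pr75 = true := by decide +kernel

end Pool.Agent.H74.MD
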