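import Pool.Agent.H74.MD.Dist

namespace Pool.Agent.H74.MD

open SimpleGraph

/-- distance in the infinite cylinder `ℤ/n × ℤ` between the landmark `s` and the vertex `v`
(both given by integer representatives) -/
def ds (n : ℤ) (s v : ℤ × ℤ) : ℤ := cyc n (v.1 - s.1) + ((v.2 - s.2).natAbs : ℤ)

/-- the multiset of distances -/
def code (n : ℤ) (L : Multiset (ℤ × ℤ)) (v : ℤ × ℤ) : Multiset ℤ := L.map (fun s => ds n s v)

/-- two distinct vertices of the cylinder with rows `0..h` have the same multiset. -/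
def Cf (n h : ℤ) (L : Multiset (ℤ × ℤ)) : Prop :=
  ∃ x y x' y' : ℤ, 0 ≤ y ∧ y ≤ h ∧ 0 ≤ y' ∧ y' ≤ h ∧ (y = y' → ¬ n ∣ x - x') ∧
    code n L (x, y) = code n L (x', y')

theorem Cf_trans {n h : ℤ} {L : Multiset (ℤ × ℤ)} (t : ℤ)
    (H : Cf n h (L.map (fun s => (s.1 + t, s.2)))) : Cf n h L := by
  obtain ⟨x, y, x', y', h1, h2, h3, h4, h5, h6⟩ := H
  refine ⟨x - t, y, x' - t, y', h1, h2, h3, h4, ?_, ?_⟩
  · intro h
    have := h5 h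
    intro hd
    apply this
    have e : x - x' = x - t - (x' - t) := by ring
    rw [e]; exact hd
  · simp only [code, Multiset.map_map, Function.comp_def, ds] at h6 ⊢
    have e : ∀ x a : ℤ, x - t - a = x - (a + t) := by intros; ring
    simp only [e]
    exact h6

theorem Cf_refl {n h : ℤ} (hn : 0 < n) {L : Multiset (ℤ × ℤ)}
    (H : Cf n h (L.map (fun s => (-s.1, s.2)))) : Cf n h L := by
  obtain ⟨x, y, x', y', h1, h2, h3, h4, h5, h6⟩ := H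
  refine ⟨-x, y, -x', y', h1, h2, h3, h4, ?_, ?_⟩
  · intro h
    have := h5 h
    intro hd
    apply this
    have e : x - x' = -(-x - -x') := by ring
    rw [e]; exact (dvd_neg).2 hd
  · simp only [code, Multiset.map_map, Function.comp_def, ds] at h6 ⊢
    have e : ∀ x a : ℤ, cyc n (-x - a) = cyc n (x - -a) := by
      intro x a
      rw [← cyc_neg hn]
      congr 1
      ring
    simp only [e]
    exact h6

theorem Cf_flip {n h : ℤ} {L : Multiset (ℤ × ℤ)}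
    (H : Cf n h (L.map (fun s => (s.1, h - s.2)))) : Cf n h L := by
  obtain ⟨x, y, x', y', h1, h2, h3, h4, h5, h6⟩ := H
  refine ⟨x, h - y, x', h - y', by omega, by omega, by omega, by omega, ?_, ?_⟩
  · intro h
    exact h5 (by omega)
  · simp only [code, Multiset.map_map, Function.comp_def, ds] at h6 ⊢
    have e : ∀ y r : ℤ, (h - y - r).natAbs = (y - (h - r)).natAbs := by intros; omega
    simp only [e]
    exact h6

/-- three landmarks -/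
def Cf3 (n h a0 r0 a1 r1 a2 r2 : ℤ) : Prop := Cf n h {(a0, r0), (a1, r1), (a2, r2)}

theorem Cf3_congr {n h a0 r0 a1 r1 a2 r2 b0 b1 b2 : ℤ} (h0 : n ∣ a0 - b0) (h1 : n ∣ a1 - b1)
    (h2 : n ∣ a2 - b2) (H : Cf3 n h b0 r0 b1 r1 b2 r2) : Cf3 n h a0 r0 a1 r1 a2 r2 := by
  obtain ⟨x, y, x', y', k1, k2, k3, k4, k5, k6⟩ := H
  refine ⟨x, y, x', y', k1, k2, k3, k4, k5, ?_⟩
  have e0 : ∀ x : ℤ, cyc n (x - a0) = cyc n (x - b0) := fun x => cyc_congr (by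
    have e : x - a0 - (x - b0) = -(a0 - b0) := by ring
    rw [e]; exact (dvd_neg).2 h0)
  have e1 : ∀ x : ℤ, cyc n (x - a1) = cyc n (x - b1) := fun x => cyc_congr (by
    have e : x - a1 - (x - b1) = -(a1 - b1) := by ring
    rw [e]; exact (dvd_neg).2 h1)
  have e2 : ∀ x : ℤ, cyc n (x - a2) = cyc n (x - b2) := fun x => cyc_congr (by
    have e : x - a2 - (x - b2) = -(a2 - b2) := by ring
    rw [e]; exact (dvd_neg).2 h2)
  simpa [code, ds, e0, e1, e2] using k6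

theorem Cf3_trans {n h a0 r0 a1 r1 a2 r2 : ℤ} (t : ℤ)
    (H : Cf3 n h (a0 + t) r0 (a1 + t) r1 (a2 + t) r2) : Cf3 n h a0 r0 a1 r1 a2 r2 :=
  Cf_trans t (by simpa [Cf3] using H)

theorem Cf3_refl {n h a0 r0 a1 r1 a2 r2 : ℤ} (hn : 0 < n)
    (H : Cf3 n h (-a0) r0 (-a1) r1 (-a2) r2) : Cf3 n h a0 r0 a1 r1 a2 r2 :=
  Cf_refl hn (by simpa [Cf3] using H)

theorem Cf3_flip {n h a0 r0 a1 r1 a2 r2 : ℤ}
    (H : Cf3 n h a0 (h - r0) a1 (h - r1) a2 (h - r2)) : Cf3 n h a0 r0 a1 r1 a2 r2 :=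
  Cf_flip (by simpa [Cf3] using H)

theorem Cf3_swap01 {n h a0 r0 a1 r1 a2 r2 : ℤ}
    (H : Cf3 n h a1 r1 a0 r0 a2 r2) : Cf3 n h a0 r0 a1 r1 a2 r2 := by
  unfold Cf3 at *
  have : ({(a0, r0), (a1, r1), (a2, r2)} : Multiset (ℤ × ℤ)) = {(a1, r1), (a0, r0), (a2, r2)} :=
    Multiset.cons_swap _ _ _
  rw [this]; exact H

theorem Cf3_swap12 {n h a0 r0 a1 r1 a2 r2 : ℤ}
    (H : Cf3 n h a0 r0 a2 r2 a1 r1) : Cf3 n h a0 r0 a1 r1 a2 r2 := by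
  unfold Cf3 at *
  have : ({(a0, r0), (a1, r1), (a2, r2)} : Multiset (ℤ × ℤ)) = {(a0, r0), (a2, r2), (a1, r1)} :=
    congrArg (Multiset.cons (a0, r0)) (Multiset.cons_swap (a1, r1) (a2, r2) 0)
  rw [this]; exact H

theorem Cf3_swap02 {n h a0 r0 a1 r1 a2 r2 : ℤ}
    (H : Cf3 n h a2 r2 a1 r1 a0 r0) : Cf3 n h a0 r0 a1 r1 a2 r2 :=
  Cf3_swap01 (Cf3_swap12 (Cf3_swap01 H))

/-- distinct vertices, in a form convenient for `omega` -/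
def Ne4 (n x y x' y' : ℤ) : Prop :=
  y ≠ y' ∨ (0 < x - x' ∧ x - x' < n) ∨ (0 < x' - x ∧ x' - x < n)

theorem Ne4.ne {n x y x' y' : ℤ} (H : Ne4 n x y x' y') : y = y' → ¬ n ∣ x - x' := by
  intro h
  rintro ⟨k, hk⟩
  rcases H with H | H | H
  · exact H h
  · have hn : 0 < n := by omega
    have : 0 < k := by
      by_contra hh
      have : n * k ≤ 0 := mul_nonpos_of_nonneg_of_nonpos hn.le (by omega)
      omega
    have : n * 1 ≤ n * k := mul_le_mul_of_nonneg_left (by omega) hn.le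
    omega
  · have hn : 0 < n := by omega
    have : k < 0 := by
      by_contra hh
      have : 0 ≤ n * k := mul_nonneg hn.le (by omega)
      omega
    have : n * k ≤ n * (-1) := mul_le_mul_of_nonneg_left (by omega) hn.le
    omega

/-- equality of the distance from `(x,y)` to `(a,r)` and from `(x',y')` to `(a',r')` -/
def Dq (n x y a r x' y' a' r' : ℤ) : Prop :=
  cyc n (x - a) + ((y - r).natAbs : ℤ) = cyc n (x' - a') + ((y' - r').natAbs : ℤ)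

theorem Cf3_mk_id {n h a0 r0 a1 r1 a2 r2 : ℤ} (x y x' y' : ℤ)
    (hb : 0 ≤ y ∧ y ≤ h ∧ 0 ≤ y' ∧ y' ≤ h) (hne : Ne4 n x y x' y')
    (e0 : Dq n x y a0 r0 x' y' a0 r0) (e1 : Dq n x y a1 r1 x' y' a1 r1)
    (e2 : Dq n x y a2 r2 x' y' a2 r2) : Cf3 n h a0 r0 a1 r1 a2 r2 := by
  refine ⟨x, y, x', y', hb.1, hb.2.1, hb.2.2.1, hb.2.2.2, hne.ne, ?_⟩
  unfold Dq at e0 e1 e2
  simp only [code, ds, Multiset.insert_eq_cons, Multiset.map_cons, Multiset.map_singleton, e0, e1,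
    e2]

theorem Cf3_mk_01 {n h a0 r0 a1 r1 a2 r2 : ℤ} (x y x' y' : ℤ)
    (hb : 0 ≤ y ∧ y ≤ h ∧ 0 ≤ y' ∧ y' ≤ h) (hne : Ne4 n x y x' y')
    (e0 : Dq n x y a0 r0 x' y' a1 r1) (e1 : Dq n x y a1 r1 x' y' a0 r0)
    (e2 : Dq n x y a2 r2 x' y' a2 r2) : Cf3 n h a0 r0 a1 r1 a2 r2 := by
  refine ⟨x, y, x', y', hb.1, hb.2.1, hb.2.2.1, hb.2.2.2, hne.ne, ?_⟩
  unfold Dq at e0 e1 e2
  simp only [code, ds, Multiset.insert_eq_cons, Multiset.map_cons, Multiset.map_singleton, e0, e1,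
    e2]
  exact Multiset.cons_swap _ _ _

theorem Cf3_mk_12 {n h a0 r0 a1 r1 a2 r2 : ℤ} (x y x' y' : ℤ)
    (hb : 0 ≤ y ∧ y ≤ h ∧ 0 ≤ y' ∧ y' ≤ h) (hne : Ne4 n x y x' y')
    (e0 : Dq n x y a0 r0 x' y' a0 r0) (e1 : Dq n x y a1 r1 x' y' a2 r2)
    (e2 : Dq n x y a2 r2 x' y' a1 r1) : Cf3 n h a0 r0 a1 r1 a2 r2 := by
  refine ⟨x, y, x', y', hb.1, hb.2.1, hb.2.2.1, hb.2.2.2, hne.ne, ?_⟩
  unfold Dq at e0 e1 e2
  simp only [code, ds, Multiset.insert_eq_cons, Multiset.map_cons, Multiset.map_singleton, e0, e1,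
    e2]
  congr 1
  exact Multiset.cons_swap _ _ 0

theorem Cf3_mk_02 {n h a0 r0 a1 r1 a2 r2 : ℤ} (x y x' y' : ℤ)
    (hb : 0 ≤ y ∧ y ≤ h ∧ 0 ≤ y' ∧ y' ≤ h) (hne : Ne4 n x y x' y')
    (e0 : Dq n x y a0 r0 x' y' a2 r2) (e1 : Dq n x y a1 r1 x' y' a1 r1)
    (e2 : Dq n x y a2 r2 x' y' a0 r0) : Cf3 n h a0 r0 a1 r1 a2 r2 :=
  Cf3_swap12 (Cf3_mk_01 x y x' y' hb hne e0 e2 e1)

theorem rot3 (a b c : ℤ) : (b ::ₘ c ::ₘ {a} : Multiset ℤ) = a ::ₘ b ::ₘ {c} := by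
  have h1 : (c ::ₘ {a} : Multiset ℤ) = a ::ₘ {c} := Multiset.cons_swap c a 0
  rw [h1]
  exact Multiset.cons_swap _ _ _

/-- `0 → 1 → 2 → 0`: the distance to landmark `0` becomes the distance to landmark `1`, ... -/
theorem Cf3_mk_c {n h a0 r0 a1 r1 a2 r2 : ℤ} (x y x' y' : ℤ)
    (hb : 0 ≤ y ∧ y ≤ h ∧ 0 ≤ y' ∧ y' ≤ h) (hne : Ne4 n x y x' y')
    (e0 : Dq n x y a0 r0 x' y' a1 r1) (e1 : Dq n x y a1 r1 x' y' a2 r2)
    (e2 : Dq n x y a2 r2 x' y' a0 r0) : Cf3 n h a0 r0 a1 r1 a2 r2 := by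
  refine ⟨x, y, x', y', hb.1, hb.2.1, hb.2.2.1, hb.2.2.2, hne.ne, ?_⟩
  unfold Dq at e0 e1 e2
  simp only [code, ds, Multiset.insert_eq_cons, Multiset.map_cons, Multiset.map_singleton, e0, e1,
    e2]
  exact rot3 _ _ _

/-- Solve a `Dq` goal by evaluating both cyclic norms. -/
theorem Dq_of {n x y a r x' y' a' r' : ℤ} (hn : 0 < n)
    (b1 : -(3 * n) ≤ 2 * (x - a)) (b2 : 2 * (x - a) ≤ 3 * n)
    (b3 : -(3 * n) ≤ 2 * (x' - a')) (b4 : 2 * (x' - a') ≤ 3 * n)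
    (H : ∀ c c' : ℤ,
      ((0 ≤ x - a ∧ 2 * (x - a) ≤ n ∧ c = x - a) ∨
        (x - a ≤ 0 ∧ -n ≤ 2 * (x - a) ∧ c = -(x - a)) ∨
        (n ≤ 2 * (x - a) ∧ x - a ≤ n ∧ c = n - (x - a)) ∨
        (2 * (x - a) ≤ -n ∧ -n ≤ x - a ∧ c = n + (x - a)) ∨
        (n ≤ x - a ∧ c = x - a - n) ∨ (x - a ≤ -n ∧ c = -n - (x - a))) →
      ((0 ≤ x' - a' ∧ 2 * (x' - a') ≤ n ∧ c' = x' - a') ∨
        (x' - a' ≤ 0 ∧ -n ≤ 2 * (x' - a') ∧ c' = -(x' - a')) ∨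
        (n ≤ 2 * (x' - a') ∧ x' - a' ≤ n ∧ c' = n - (x' - a')) ∨
        (2 * (x' - a') ≤ -n ∧ -n ≤ x' - a' ∧ c' = n + (x' - a')) ∨
        (n ≤ x' - a' ∧ c' = x' - a' - n) ∨ (x' - a' ≤ -n ∧ c' = -n - (x' - a'))) →
      c + ((y - r).natAbs : ℤ) = c' + ((y' - r').natAbs : ℤ)) :
    Dq n x y a r x' y' a' r' :=
  H _ _ (cyc_spec hn b1 b2) (cyc_spec hn b3 b4)

end Pool.Agent.H74.MD
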