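import Pool.Agent.H74.MD.Basic

namespace Pool.Agent.H74.MD

open SimpleGraph

theorem cyc_congr {n u v : ℤ} (h : n ∣ u - v) : cyc n u = cyc n v := by
  obtain ⟨k, hk⟩ := h
  have : u = v + n * k := by omega
  rw [this, cyc_add_mul]

theorem cyc_lip {n u v : ℤ} (hn : 2 ≤ n) (h : n ∣ u - v - 1 ∨ n ∣ u - v + 1) :
    cyc n u ≤ cyc n v + 1 := by
  have hv1 := Int.emod_nonneg v (by omega : n ≠ 0)
  have hv2 := Int.emod_lt_of_pos v (by omega : 0 < n)
  have hvd : n ∣ v - v % n := Int.dvd_self_sub_of_emod_eq rfl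
  rcases h with h | h
  · have hu : n ∣ u - (v % n + 1) := by
      have : u - (v % n + 1) = (u - v - 1) + (v - v % n) := by ring
      rw [this]; exact dvd_add h hvd
    rw [cyc_congr hu, cyc_congr hvd]
    rcases cyc_spec (n := n) (u := v % n + 1) (by omega) (by omega) (by omega) with
      h1 | h1 | h1 | h1 | h1 | h1 <;>
    rcases cyc_spec (n := n) (u := v % n) (by omega) (by omega) (by omega) with
      h2 | h2 | h2 | h2 | h2 | h2 <;> omega
  · have hu : n ∣ u - (v % n - 1) := by
      have : u - (v % n - 1) = (u - v + 1) + (v - v % n) := by ring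
      rw [this]; exact dvd_add h hvd
    rw [cyc_congr hu, cyc_congr hvd]
    rcases cyc_spec (n := n) (u := v % n - 1) (by omega) (by omega) (by omega) with
      h1 | h1 | h1 | h1 | h1 | h1 <;>
    rcases cyc_spec (n := n) (u := v % n) (by omega) (by omega) (by omega) with
      h2 | h2 | h2 | h2 | h2 | h2 <;> omega

theorem cycle_adj_iff {n : ℕ} (hn : 2 ≤ n) (u v : Fin n) :
    (cycleGraph n).Adj u v ↔ ((n : ℤ) ∣ (u : ℤ) - v - 1 ∨ (n : ℤ) ∣ (u : ℤ) - v + 1) := by
  rw [cycleGraph_adj', Fin.val_sub, Fin.val_sub]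
  have hu := u.2
  have hv := v.2
  have key : ∀ a b : ℕ, a < n → b < n →
      ((n - b + a) % n = 1 ↔ (n : ℤ) ∣ (a : ℤ) - b - 1) := by
    intro a b ha hb
    constructor
    · intro h
      have h1 : ((n : ℤ) - b + a) % n = 1 := by
        have : (((n - b + a) % n : ℕ) : ℤ) = 1 := by rw [h]; rfl
        rw [Int.natCast_mod] at this
        rw [← this]
        congr 1
        omega
      have h2 : (n : ℤ) ∣ ((n : ℤ) - b + a) - 1 := Int.dvd_self_sub_of_emod_eq h1
      have h3 : (a : ℤ) - b - 1 = (((n : ℤ) - b + a) - 1) - n := by ring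
      rw [h3]
      exact dvd_sub h2 (dvd_refl _)
    · intro h
      have h2 : (n : ℤ) ∣ ((n : ℤ) - b + a) - 1 := by
        have h3 : ((n : ℤ) - b + a) - 1 = ((a : ℤ) - b - 1) + n := by ring
        rw [h3]
        exact dvd_add h (dvd_refl _)
      have h4 : ((n : ℤ) - b + a) % n = 1 % n :=
        Int.emod_eq_emod_iff_emod_sub_eq_zero.2 (Int.emod_eq_zero_of_dvd h2)
      have h5 : (1 : ℤ) % n = 1 := Int.emod_eq_of_lt (by omega) (by omega)
      rw [h5] at h4
      have : (((n - b + a) % n : ℕ) : ℤ) = 1 := by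
        rw [Int.natCast_mod, ← h4]
        congr 1
        omega
      omega
  rw [key _ _ hu hv, key _ _ hv hu]
  constructor
  · rintro (h | h)
    · exact Or.inl h
    · right
      have : (u : ℤ) - v + 1 = -((v : ℤ) - u - 1) := by ring
      rw [this]; exact (dvd_neg).2 h
  · rintro (h | h)
    · exact Or.inl h
    · right
      have : (v : ℤ) - u - 1 = -((u : ℤ) - v + 1) := by ring
      rw [this]; exact (dvd_neg).2 h

/-- reduction of an integer into `Fin n` -/
def red (n : ℕ) (hn : 0 < n) (x : ℤ) : Fin n :=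
  ⟨(x % n).toNat, by
    have h1 := Int.emod_nonneg x (by omega : (n : ℤ) ≠ 0)
    have h2 := Int.emod_lt_of_pos x (by omega : (0 : ℤ) < n)
    omega⟩

theorem red_dvd (n : ℕ) (hn : 0 < n) (x : ℤ) : (n : ℤ) ∣ x - (red n hn x : ℕ) := by
  have h1 := Int.emod_nonneg x (by omega : (n : ℤ) ≠ 0)
  have h2 : ((red n hn x : ℕ) : ℤ) = x % n := by
    unfold red
    simp only
    omega
  rw [h2]
  exact Int.dvd_self_sub_of_emod_eq rfl

theorem fin_eq_of_dvd {n : ℕ} (u v : Fin n) (h : (n : ℤ) ∣ (u : ℤ) - v) : u = v := by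
  have hu := u.2
  have hv := v.2
  obtain ⟨k, hk⟩ := h
  have hk0 : k = 0 := by
    by_contra hne
    rcases lt_or_gt_of_ne hne with h | h
    · have : (n : ℤ) * k ≤ n * (-1) := by
        apply mul_le_mul_of_nonneg_left (by omega) (by omega)
      omega
    · have : (n : ℤ) * 1 ≤ n * k := by
        apply mul_le_mul_of_nonneg_left (by omega) (by omega)
      omega
  subst hk0
  apply Fin.ext
  omega

theorem dist_cylinder {n m : ℕ} (hn : 3 ≤ n) (u v : Fin n × Fin m) :
    (((cycleGraph n) □ (pathGraph m)).dist u v : ℤ) =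
      cyc n ((u.1 : ℤ) - v.1) + |(u.2 : ℤ) - v.2| := by
  obtain ⟨a, r⟩ := v
  have hn' : (2 : ℤ) ≤ n := by omega
  have hn0 : (0 : ℤ) < n := by omega
  set f : Fin n × Fin m → ℕ := fun w => (cyc n ((w.1 : ℤ) - a)).toNat + ((w.2 : ℤ) - r).natAbs
    with hf
  have main := dist_eq_of ((cycleGraph n) □ (pathGraph m)) (a, r) f ?_ ?_ ?_ ?_ u
  · rw [main]
    simp only [hf]
    have := cyc_nonneg (n := n) (u := (u.1 : ℤ) - a) hn0
    push_cast
    rw [Int.toNat_of_nonneg this]
  · simp only [hf, sub_self]
    have : cyc (n : ℤ) 0 = 0 := cyc_of_dvd_sub le_rfl (by omega) hn0 (by simp)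
    rw [this]; simp
  · rintro ⟨x, y⟩ h
    simp only [hf] at h
    have := cyc_nonneg (n := n) (u := (x : ℤ) - a) hn0
    have h1 : cyc n ((x : ℤ) - a) = 0 := by omega
    have h2 : (y : ℤ) = r := by omega
    have h3 := fin_eq_of_dvd x a (cyc_eq_zero h1)
    have h4 : y = r := Fin.ext (by omega)
    rw [h3, h4]
  · rintro ⟨x, y⟩ ⟨x', y'⟩ h
    simp only [hf]
    rw [boxProd_adj] at h
    simp only at h
    have c1 := cyc_nonneg (n := n) (u := (x : ℤ) - a) hn0
    have c2 := cyc_nonneg (n := n) (u := (x' : ℤ) - a) hn0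
    rcases h with ⟨h, h'⟩ | ⟨h, h'⟩
    · subst h'
      rw [cycle_adj_iff (by omega)] at h
      have := cyc_lip (n := n) (u := (x : ℤ) - a) (v := (x' : ℤ) - a) hn' (by
        rcases h with h | h
        · left; convert h using 1; ring
        · right; convert h using 1; ring)
      omega
    · subst h'
      rw [pathGraph_adj] at h
      omega
  · rintro ⟨x, y⟩ h
    simp only [hf] at h
    have c1 := cyc_nonneg (n := n) (u := (x : ℤ) - a) hn0
    have c2 := two_cyc_le (n := n) (u := (x : ℤ) - a) hn0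
    by_cases hy : (y : ℤ) = r
    · have hc : cyc n ((x : ℤ) - a) ≠ 0 := by omega
      rcases cyc_dvd (n := n) (u := (x : ℤ) - a) with hd | hd
      · have hred := red_dvd n (by omega) ((x : ℤ) - 1)
        refine ⟨(red n (by omega) ((x : ℤ) - 1), y), ?_, ?_⟩
        · rw [boxProd_adj]
          left
          refine ⟨?_, rfl⟩
          rw [cycle_adj_iff (by omega)]
          left
          have : (x : ℤ) - (red n (by omega) ((x : ℤ) - 1) : ℕ) - 1 =
            ((x : ℤ) - 1) - (red n (by omega) ((x : ℤ) - 1) : ℕ) := by ring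
          rw [this]; exact hred
        · simp only [hf]
          have e : cyc n (((red n (by omega) ((x : ℤ) - 1) : ℕ) : ℤ) - a) =
              cyc n ((x : ℤ) - a) - 1 := by
            apply cyc_of_dvd_sub (by omega) (by omega) hn0
            have : ((red n (by omega) ((x : ℤ) - 1) : ℕ) : ℤ) - a - (cyc n ((x : ℤ) - a) - 1) =
              ((x : ℤ) - a - cyc n ((x : ℤ) - a)) -
                (((x : ℤ) - 1) - (red n (by omega) ((x : ℤ) - 1) : ℕ)) := by ring
            rw [this]
            exact dvd_sub hd hred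
          rw [e]
          omega
      · have hred := red_dvd n (by omega) ((x : ℤ) + 1)
        refine ⟨(red n (by omega) ((x : ℤ) + 1), y), ?_, ?_⟩
        · rw [boxProd_adj]
          left
          refine ⟨?_, rfl⟩
          rw [cycle_adj_iff (by omega)]
          right
          have : (x : ℤ) - (red n (by omega) ((x : ℤ) + 1) : ℕ) + 1 =
            ((x : ℤ) + 1) - (red n (by omega) ((x : ℤ) + 1) : ℕ) := by ring
          rw [this]; exact hred
        · simp only [hf]
          have e : cyc n (((red n (by omega) ((x : ℤ) + 1) : ℕ) : ℤ) - a) =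
              cyc n ((x : ℤ) - a) - 1 := by
            apply cyc_of_dvd_add (by omega) (by omega) hn0
            have : ((red n (by omega) ((x : ℤ) + 1) : ℕ) : ℤ) - a + (cyc n ((x : ℤ) - a) - 1) =
              ((x : ℤ) - a + cyc n ((x : ℤ) - a)) -
                (((x : ℤ) + 1) - (red n (by omega) ((x : ℤ) + 1) : ℕ)) := by ring
            rw [this]
            exact dvd_sub hd hred
          rw [e]
          omega
    · rcases lt_or_gt_of_ne hy with hy | hy
      · refine ⟨(x, ⟨(y : ℕ) + 1, by have := r.2; omega⟩), ?_, ?_⟩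
        · rw [boxProd_adj]
          right
          refine ⟨?_, rfl⟩
          rw [pathGraph_adj]
          simp
        · simp only [hf]
          push_cast
          omega
      · refine ⟨(x, ⟨(y : ℕ) - 1, by have := y.2; omega⟩), ?_, ?_⟩
        · rw [boxProd_adj]
          right
          refine ⟨?_, rfl⟩
          rw [pathGraph_adj]
          simp only
          omega
        · simp only [hf]
          omega

end Pool.Agent.H74.MD
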