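import Pool.Agent.H74.MD.Four

namespace Pool.Agent.H74.MD

open SimpleGraph

/-- natural number version of the cyclic distance -/
def cN (n x a : ℕ) : ℕ := min ((x + n - a) % n) ((a + n - x) % n)

/-- natural number version of the distance in the cylinder -/
def dN (n x y a r : ℕ) : ℕ := cN n x a + ((y - r) + (r - y))

/-- distance between vertices given by their index `row * n + column` -/
def dI (n u v : ℕ) : ℕ := dN n (u % n) (u / n) (v % n) (v / n)

theorem cyc_eq_cN {n x a : ℕ} (hx : x < n) (ha : a < n) :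
    cyc (n : ℤ) ((x : ℤ) - a) = (cN n x a : ℤ) := by
  unfold cN
  rcases lt_trichotomy x a with h | h | h
  · have e1 : (x + n - a) % n = x + n - a := Nat.mod_eq_of_lt (by omega)
    have e2 : (a + n - x) % n = a - x := by
      have : a + n - x = (a - x) + n := by omega
      rw [this, Nat.add_mod_right]
      exact Nat.mod_eq_of_lt (by omega)
    rw [e1, e2]
    rcases le_total (2 * (a - x)) n with k | k
    · exact cyc_m (by omega) (by omega) (by omega) (by omega)
    · exact cyc_v (by omega) (by omega) (by omega) (by omega)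
  · subst h
    have e1 : (x + n - x) % n = 0 := by
      have : x + n - x = n := by omega
      rw [this, Nat.mod_self]
    rw [e1]
    exact cyc_p (by omega) (by omega) (by omega) (by omega)
  · have e1 : (a + n - x) % n = a + n - x := Nat.mod_eq_of_lt (by omega)
    have e2 : (x + n - a) % n = x - a := by
      have : x + n - a = (x - a) + n := by omega
      rw [this, Nat.add_mod_right]
      exact Nat.mod_eq_of_lt (by omega)
    rw [e1, e2]
    rcases le_total (2 * (x - a)) n with k | k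
    · exact cyc_p (by omega) (by omega) (by omega) (by omega)
    · exact cyc_w (by omega) (by omega) (by omega) (by omega)

theorem ds_eq_dN {n x y a r : ℕ} (hx : x < n) (ha : a < n) :
    ds n ((a : ℤ), (r : ℤ)) ((x : ℤ), (y : ℤ)) = (dN n x y a r : ℤ) := by
  unfold ds dN
  simp only
  rw [cyc_eq_cN hx ha, Nat.cast_add]
  omega

/-- base `8` encoding of a list -/
def enc (l : List ℕ) : ℕ := (l.map (fun i => 8 ^ i)).sum

theorem enc_decomp (d : ℕ) (l : List ℕ) :
    ∃ lo hi : ℕ, enc l = lo + 8 ^ d * l.count d + 8 ^ (d + 1) * hi ∧ 8 * lo ≤ l.length * 8 ^ d := by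
  induction l with
  | nil => exact ⟨0, 0, by simp [enc], by simp⟩
  | cons a l ih =>
    obtain ⟨lo, hi, h1, h2⟩ := ih
    have e : enc (a :: l) = 8 ^ a + enc l := by simp [enc]
    rcases lt_trichotomy a d with h | h | h
    · refine ⟨lo + 8 ^ a, hi, ?_, ?_⟩
      · rw [e, h1, List.count_cons_of_ne (by omega)]; ring
      · obtain ⟨c, rfl⟩ : ∃ c, d = a + 1 + c := ⟨d - (a + 1), by omega⟩
        have : 8 * 8 ^ a ≤ 8 ^ (a + 1 + c) := by
          rw [pow_add, pow_succ, mul_comm 8]
          exact Nat.le_mul_of_pos_right _ (by positivity)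
        rw [List.length_cons]
        calc 8 * (lo + 8 ^ a) = 8 * lo + 8 * 8 ^ a := by ring
          _ ≤ l.length * 8 ^ (a + 1 + c) + 8 ^ (a + 1 + c) := Nat.add_le_add h2 this
          _ = (l.length + 1) * 8 ^ (a + 1 + c) := by ring
    · subst h
      refine ⟨lo, hi, ?_, ?_⟩
      · rw [e, h1, List.count_cons_self]; ring
      · rw [List.length_cons]
        calc 8 * lo ≤ l.length * 8 ^ a := h2
          _ ≤ (l.length + 1) * 8 ^ a := Nat.mul_le_mul_right _ (by omega)
    · obtain ⟨c, rfl⟩ : ∃ c, a = d + 1 + c := ⟨a - (d + 1), by omega⟩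
      refine ⟨lo, hi + 8 ^ c, ?_, ?_⟩
      · rw [e, h1, List.count_cons_of_ne (by omega)]; ring
      · rw [List.length_cons]
        calc 8 * lo ≤ l.length * 8 ^ d := h2
          _ ≤ (l.length + 1) * 8 ^ d := Nat.mul_le_mul_right _ (by omega)

theorem enc_count {l : List ℕ} (hl : l.length ≤ 7) (d : ℕ) : enc l / 8 ^ d % 8 = l.count d := by
  obtain ⟨lo, hi, h1, h2⟩ := enc_decomp d l
  have hpos : 0 < 8 ^ d := by positivity
  have hlo : lo < 8 ^ d := by
    have : 8 * lo ≤ 7 * 8 ^ d := le_trans h2 (Nat.mul_le_mul_right _ hl)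
    omega
  have hc : l.count d ≤ 7 := le_trans List.count_le_length hl
  have e : enc l = lo + 8 ^ d * (l.count d + 8 * hi) := by rw [h1]; ring
  rw [e, Nat.add_mul_div_left _ _ hpos, Nat.div_eq_of_lt hlo]
  omega

theorem perm_of_enc {l l' : List ℕ} (hl : l.length ≤ 7) (hl' : l'.length ≤ 7)
    (h : enc l = enc l') : l.Perm l' := by
  rw [List.perm_iff_count]
  intro d
  rw [← enc_count hl, ← enc_count hl', h]

theorem enc_of_perm {l l' : List ℕ} (h : l.Perm l') : enc l = enc l' := by
  unfold enc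
  exact (h.map _).sum_eq

/-- landmark given by its index -/
def ofI (n v : ℕ) : ℤ × ℤ := (((v % n : ℕ) : ℤ), ((v / n : ℕ) : ℤ))

theorem ds_ofI {n u v : ℕ} (hn : 0 < n) : ds n (ofI n v) (ofI n u) = (dI n u v : ℤ) := by
  unfold ofI dI
  exact ds_eq_dN (Nat.mod_lt _ hn) (Nat.mod_lt _ hn)

/-- confusion from a permutation of distance lists -/
theorem Cf_of_perm {n m : ℕ} (hn : 0 < n) (L : List ℕ) (u v : ℕ)
    (hu : u < n * m) (hv : v < n * m) (huv : u ≠ v)
    (hp : (L.map (dI n u)).Perm (L.map (dI n v))) :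
    Cf n ((m : ℤ) - 1) ((L.map (ofI n) : List (ℤ × ℤ)) : Multiset (ℤ × ℤ)) := by
  have hu1 : u / n < m := Nat.div_lt_of_lt_mul hu
  have hv1 : v / n < m := Nat.div_lt_of_lt_mul hv
  have hu2 : (((u / n : ℕ) : ℤ)) ≤ (m : ℤ) - 1 := by
    have : (((u / n : ℕ) : ℤ)) < m := by exact_mod_cast hu1
    exact Int.le_sub_one_of_lt this
  have hv2 : (((v / n : ℕ) : ℤ)) ≤ (m : ℤ) - 1 := by
    have : (((v / n : ℕ) : ℤ)) < m := by exact_mod_cast hv1
    exact Int.le_sub_one_of_lt this
  refine ⟨((u % n : ℕ) : ℤ), ((u / n : ℕ) : ℤ), ((v % n : ℕ) : ℤ), ((v / n : ℕ) : ℤ),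
    Int.natCast_nonneg _, hu2, Int.natCast_nonneg _, hv2, ?_, ?_⟩
  · intro e
    have e' : u / n = v / n := by exact_mod_cast e
    apply Ne4.ne (y := 0) (y' := 0) _ rfl
    unfold Ne4
    have h1 := Nat.mod_lt u hn
    have h2 := Nat.mod_lt v hn
    have h3 : u % n ≠ v % n := by
      intro e2
      apply huv
      rw [← Nat.div_add_mod u n, ← Nat.div_add_mod v n, e', e2]
    omega
  · have key : ∀ w : ℕ, code n ((L.map (ofI n) : List (ℤ × ℤ)) : Multiset (ℤ × ℤ))
        (((w % n : ℕ) : ℤ), ((w / n : ℕ) : ℤ)) =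
        (((L.map (dI n w)).map (fun i : ℕ => (i : ℤ)) : List ℤ) : Multiset ℤ) := by
      intro w
      unfold code
      rw [Multiset.map_coe, List.map_map, List.map_map]
      congr 1
      apply List.map_congr_left
      intro s _
      exact ds_ofI (u := w) (v := s) hn
    rw [key, key]
    exact Multiset.coe_eq_coe.2 (hp.map _)

/-- confusion from an equality of encodings -/
theorem Cf_of_enc {n m : ℕ} (hn : 0 < n) (hm : 0 < m) (L : List ℕ) (hL : L.length ≤ 7) (u v : ℕ)
    (hu : u < n * m) (hv : v < n * m) (huv : u ≠ v)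
    (h : enc (L.map (dI n u)) = enc (L.map (dI n v))) :
    Cf n ((m : ℤ) - 1) ((L.map (ofI n) : List (ℤ × ℤ)) : Multiset (ℤ × ℤ)) :=
  Cf_of_perm hn L u v hu hv huv (perm_of_enc (by simpa using hL) (by simpa using hL) h)

end Pool.Agent.H74.MD
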