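import Pool.Agent.H74.MD.Success

namespace Pool.Agent.H74.MD

def P4 (a b c d a' b' c' d' : ℤ) : Prop :=
  (a = a' ∧ P3 b c d b' c' d') ∨ (a = b' ∧ P3 b c d a' c' d') ∨
  (a = c' ∧ P3 b c d a' b' d') ∨ (a = d' ∧ P3 b c d a' b' c')

theorem perm4 {a b c d a' b' c' d' : ℤ}
    (H : (a ::ₘ b ::ₘ c ::ₘ {d} : Multiset ℤ) = a' ::ₘ b' ::ₘ c' ::ₘ {d'}) :
    P4 a b c d a' b' c' d' := by
  have ha : a ∈ (a' ::ₘ b' ::ₘ c' ::ₘ {d'} : Multiset ℤ) := by rw [← H]; simp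
  simp only [Multiset.mem_cons, Multiset.mem_singleton] at ha
  rcases ha with ha | ha | ha | ha
  · subst ha
    rw [Multiset.cons_inj_right] at H
    exact Or.inl ⟨rfl, perm3 H⟩
  · subst ha
    rw [Multiset.cons_swap a' a, Multiset.cons_inj_right] at H
    exact Or.inr (Or.inl ⟨rfl, perm3 H⟩)
  · subst ha
    have e : (a' ::ₘ b' ::ₘ a ::ₘ {d'} : Multiset ℤ) = a ::ₘ a' ::ₘ b' ::ₘ {d'} := by
      rw [Multiset.cons_swap b' a, Multiset.cons_swap a' a]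
    rw [e, Multiset.cons_inj_right] at H
    exact Or.inr (Or.inr (Or.inl ⟨rfl, perm3 H⟩))
  · subst ha
    have e : (a' ::ₘ b' ::ₘ c' ::ₘ {a} : Multiset ℤ) = a ::ₘ a' ::ₘ b' ::ₘ {c'} := by
      have e1 : (c' ::ₘ {a} : Multiset ℤ) = a ::ₘ {c'} := Multiset.cons_swap _ _ 0
      rw [e1, Multiset.cons_swap b' a, Multiset.cons_swap a' a]
    rw [e, Multiset.cons_inj_right] at H
    exact Or.inr (Or.inr (Or.inr ⟨rfl, perm3 H⟩))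

/-- four landmarks -/
def Cf4 (n h a0 r0 a1 r1 a2 r2 a3 r3 : ℤ) : Prop :=
  Cf n h {(a0, r0), (a1, r1), (a2, r2), (a3, r3)}

theorem Cf4_elim {n h a0 r0 a1 r1 a2 r2 a3 r3 : ℤ} (hn : 0 < n)
    (H : Cf4 n h a0 r0 a1 r1 a2 r2 a3 r3) :
    ∃ x y x' y' : ℤ, (0 ≤ x ∧ x < n) ∧ (0 ≤ x' ∧ x' < n) ∧ (0 ≤ y ∧ y ≤ h) ∧ (0 ≤ y' ∧ y' ≤ h) ∧
      y ≤ y' ∧ ¬ (x = x' ∧ y = y') ∧
      P4 (cyc n (x - a0) + ((y - r0).natAbs : ℤ)) (cyc n (x - a1) + ((y - r1).natAbs : ℤ))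
        (cyc n (x - a2) + ((y - r2).natAbs : ℤ)) (cyc n (x - a3) + ((y - r3).natAbs : ℤ))
        (cyc n (x' - a0) + ((y' - r0).natAbs : ℤ)) (cyc n (x' - a1) + ((y' - r1).natAbs : ℤ))
        (cyc n (x' - a2) + ((y' - r2).natAbs : ℤ)) (cyc n (x' - a3) + ((y' - r3).natAbs : ℤ)) := by
  obtain ⟨x, y, x', y', h1, h2, h3, h4, h5, h6⟩ := H
  obtain ⟨z, z1, z2, z3⟩ := exists_red hn x
  obtain ⟨z', z1', z2', z3'⟩ := exists_red hn x'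
  have ec : ∀ a : ℤ, cyc n (x - a) = cyc n (z - a) := fun a => cyc_congr (by
    have e : x - a - (z - a) = x - z := by ring
    rw [e]; exact z3)
  have ec' : ∀ a : ℤ, cyc n (x' - a) = cyc n (z' - a) := fun a => cyc_congr (by
    have e : x' - a - (z' - a) = x' - z' := by ring
    rw [e]; exact z3')
  simp only [code, ds, Multiset.insert_eq_cons, Multiset.map_cons, Multiset.map_singleton, ec,
    ec'] at h6
  have hne : ¬ (z = z' ∧ y = y') := by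
    rintro ⟨e1, e2⟩
    apply h5 e2
    have e : x - x' = (x - z) - (x' - z') := by rw [e1]; ring
    rw [e]
    exact dvd_sub z3 z3'
  rcases le_total y y' with hy | hy
  · exact ⟨z, y, z', y', ⟨z1, z2⟩, ⟨z1', z2'⟩, ⟨h1, h2⟩, ⟨h3, h4⟩, hy, hne, perm4 h6⟩
  · refine ⟨z', y', z, y, ⟨z1', z2'⟩, ⟨z1, z2⟩, ⟨h3, h4⟩, ⟨h1, h2⟩, hy, ?_, perm4 h6.symm⟩
    rintro ⟨e1, e2⟩
    exact hne ⟨e1.symm, e2.symm⟩

/-- `∃` four landmarks that resolve the cylinder -/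
def Ex4 (n h : ℤ) : Prop :=
  ∃ a0 r0 a1 r1 a2 r2 a3 r3 : ℤ, (0 ≤ a0 ∧ a0 < n ∧ 0 ≤ r0 ∧ r0 ≤ h) ∧
    (0 ≤ a1 ∧ a1 < n ∧ 0 ≤ r1 ∧ r1 ≤ h) ∧
    (0 ≤ a2 ∧ a2 < n ∧ 0 ≤ r2 ∧ r2 ≤ h) ∧ (0 ≤ a3 ∧ a3 < n ∧ 0 ≤ r3 ∧ r3 ≤ h) ∧
    ((a0, r0) ≠ (a1, r1) ∧ (a0, r0) ≠ (a2, r2) ∧ (a0, r0) ≠ (a3, r3) ∧
    (a1, r1) ≠ (a2, r2) ∧ (a1, r1) ≠ (a3, r3) ∧ (a2, r2) ≠ (a3, r3)) ∧
    ¬ Cf4 n h a0 r0 a1 r1 a2 r2 a3 r3

/-- the row-0 sets `{0,1,3,t}` -/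
theorem Ex4_row0 {n h t : ℤ} (h0 : 0 ≤ h) (h1 : 4 ≤ t) (h3 : t < n)
    (H : ∀ x x' s : ℤ, 0 ≤ x → x < n → 0 ≤ x' → x' < n → 0 ≤ s →
      P4 (cyc n x) (cyc n (x - 1)) (cyc n (x - 3)) (cyc n (x - t))
        (cyc n x' + s) (cyc n (x' - 1) + s) (cyc n (x' - 3) + s) (cyc n (x' - t) + s) →
        x = x' ∧ s = 0) : Ex4 n h := by
  refine ⟨0, 0, 1, 0, 3, 0, t, 0, ⟨by omega, by omega, by omega, by omega⟩,
    ⟨by omega, by omega, by omega, by omega⟩, ⟨by omega, by omega, by omega, by omega⟩,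
    ⟨by omega, by omega, by omega, by omega⟩, ⟨?_, ?_, ?_, ?_, ?_, ?_⟩, ?_⟩
  · intro h; rw [Prod.mk.injEq] at h; omega
  · intro h; rw [Prod.mk.injEq] at h; omega
  · intro h; rw [Prod.mk.injEq] at h; omega
  · intro h; rw [Prod.mk.injEq] at h; omega
  · intro h; rw [Prod.mk.injEq] at h; omega
  · intro h; rw [Prod.mk.injEq] at h; omega
  intro hc
  obtain ⟨x, y, x', y', hx, hx', hy, hy', hyy, hne, hP⟩ := Cf4_elim (by omega) hc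
  have ey : ((y - 0).natAbs : ℤ) = y := by omega
  have ey' : ((y' - 0).natAbs : ℤ) = y' := by omega
  rw [ey, ey', sub_zero, sub_zero] at hP
  have key := H x x' (y' - y) hx.1 hx.2 hx'.1 hx'.2 (by omega) ?_
  · exact hne ⟨key.1, by omega⟩
  · generalize cyc n x = c0 at hP ⊢
    generalize cyc n (x - 1) = c1 at hP ⊢
    generalize cyc n (x - 3) = c2 at hP ⊢
    generalize cyc n (x - t) = c3 at hP ⊢
    generalize cyc n x' = c0' at hP ⊢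
    generalize cyc n (x' - 1) = c1' at hP ⊢
    generalize cyc n (x' - 3) = c2' at hP ⊢
    generalize cyc n (x' - t) = c3' at hP ⊢
    have sh3 : ∀ a b c a' b' c' : ℤ, P3 (a + y) (b + y) (c + y) (a' + y') (b' + y') (c' + y') →
        P3 a b c (a' + (y' - y)) (b' + (y' - y)) (c' + (y' - y)) := by
      intro a b c a' b' c' h
      unfold P3 at h ⊢
      rcases h with ⟨p, q, r⟩ | ⟨p, q, r⟩ | ⟨p, q, r⟩ | ⟨p, q, r⟩ | ⟨p, q, r⟩ | ⟨p, q, r⟩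
      · exact Or.inl ⟨by omega, by omega, by omega⟩
      · exact Or.inr (Or.inl ⟨by omega, by omega, by omega⟩)
      · exact Or.inr (Or.inr (Or.inl ⟨by omega, by omega, by omega⟩))
      · exact Or.inr (Or.inr (Or.inr (Or.inl ⟨by omega, by omega, by omega⟩)))
      · exact Or.inr (Or.inr (Or.inr (Or.inr (Or.inl ⟨by omega, by omega, by omega⟩))))
      · exact Or.inr (Or.inr (Or.inr (Or.inr (Or.inr ⟨by omega, by omega, by omega⟩))))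
    rcases hP with ⟨p, q⟩ | ⟨p, q⟩ | ⟨p, q⟩ | ⟨p, q⟩
    · exact Or.inl ⟨by omega, sh3 _ _ _ _ _ _ q⟩
    · exact Or.inr (Or.inl ⟨by omega, sh3 _ _ _ _ _ _ q⟩)
    · exact Or.inr (Or.inr (Or.inl ⟨by omega, sh3 _ _ _ _ _ _ q⟩))
    · exact Or.inr (Or.inr (Or.inr ⟨by omega, sh3 _ _ _ _ _ _ q⟩))

end Pool.Agent.H74.MD
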