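import Pool.Agent.H74.MD.Four

namespace Pool.Agent.H74.MD

/-- `n = 2N`, landmarks `0, 1, 3, N + 1` -/
theorem arcs4a {n N x : ℤ} (hn : n = 2 * N) (hN : 4 ≤ N) (hx : 0 ≤ x) (hx' : x < n) :
    (x = 0 ∧ cyc n x = 0 ∧ cyc n (x - 1) = 1 ∧ cyc n (x - 3) = 3 ∧ cyc n (x - (N + 1)) = N - 1) ∨
    (1 ≤ x ∧ x ≤ 3 ∧ cyc n x = x ∧ cyc n (x - 1) = x - 1 ∧ cyc n (x - 3) = 3 - x ∧
      cyc n (x - (N + 1)) = N + 1 - x) ∨
    (3 ≤ x ∧ x ≤ N ∧ cyc n x = x ∧ cyc n (x - 1) = x - 1 ∧ cyc n (x - 3) = x - 3 ∧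
      cyc n (x - (N + 1)) = N + 1 - x) ∨
    (x = N + 1 ∧ cyc n x = N - 1 ∧ cyc n (x - 1) = N ∧ cyc n (x - 3) = N - 2 ∧
      cyc n (x - (N + 1)) = 0) ∨
    (N + 1 ≤ x ∧ x ≤ N + 3 ∧ cyc n x = 2 * N - x ∧ cyc n (x - 1) = 2 * N + 1 - x ∧
      cyc n (x - 3) = x - 3 ∧ cyc n (x - (N + 1)) = x - (N + 1)) ∨
    (N + 3 ≤ x ∧ x < 2 * N ∧ cyc n x = 2 * N - x ∧ cyc n (x - 1) = 2 * N + 1 - x ∧
      cyc n (x - 3) = 2 * N + 3 - x ∧ cyc n (x - (N + 1)) = x - (N + 1)) := by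
  have hn0 : 0 < n := by omega
  by_cases k1 : x = 0
  · left
    exact ⟨k1, cyc_p (by omega) (by omega) hn0 (by omega), cyc_m (by omega) (by omega) hn0 (by omega),
      cyc_m (by omega) (by omega) hn0 (by omega), cyc_v (by omega) (by omega) hn0 (by omega)⟩
  right
  by_cases k2 : x ≤ 3
  · left
    exact ⟨by omega, k2, cyc_p (by omega) (by omega) hn0 (by omega),
      cyc_p (by omega) (by omega) hn0 (by omega), cyc_m (by omega) (by omega) hn0 (by omega),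
      cyc_m (by omega) (by omega) hn0 (by omega)⟩
  right
  by_cases k3 : x ≤ N
  · left
    exact ⟨by omega, k3, cyc_p (by omega) (by omega) hn0 (by omega),
      cyc_p (by omega) (by omega) hn0 (by omega), cyc_p (by omega) (by omega) hn0 (by omega),
      cyc_m (by omega) (by omega) hn0 (by omega)⟩
  right
  by_cases k4 : x = N + 1
  · left
    exact ⟨k4, cyc_w (by omega) (by omega) hn0 (by omega),
      cyc_p (by omega) (by omega) hn0 (by omega), cyc_p (by omega) (by omega) hn0 (by omega),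
      cyc_p (by omega) (by omega) hn0 (by omega)⟩
  right
  by_cases k5 : x ≤ N + 3
  · left
    exact ⟨by omega, k5, cyc_w (by omega) (by omega) hn0 (by omega),
      cyc_w (by omega) (by omega) hn0 (by omega), cyc_p (by omega) (by omega) hn0 (by omega),
      cyc_p (by omega) (by omega) hn0 (by omega)⟩
  right
  exact ⟨by omega, by omega, cyc_w (by omega) (by omega) hn0 (by omega),
      cyc_w (by omega) (by omega) hn0 (by omega), cyc_w (by omega) (by omega) hn0 (by omega),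
      cyc_p (by omega) (by omega) hn0 (by omega)⟩

theorem four_a {n h j : ℤ} (hj : 2 ≤ j) (hn : n = 4 * j) (h0 : 0 ≤ h) : Ex4 n h := by
  refine Ex4_row0 (t := 2 * j + 1) h0 (by omega) (by omega) ?_
  intro x x' s hx1 hx2 hx1' hx2' hs1 hP
  have A := arcs4a (n := n) (N := 2 * j) (x := x) (by omega) (by omega) hx1 hx2
  have A' := arcs4a (n := n) (N := 2 * j) (x := x') (by omega) (by omega) hx1' hx2'
  generalize cyc n x = c0 at A hP
  generalize cyc n (x - 1) = c1 at A hP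
  generalize cyc n (x - 3) = c2 at A hP
  generalize cyc n (x - (2 * j + 1)) = c3 at A hP
  generalize cyc n x' = c0' at A' hP
  generalize cyc n (x' - 1) = c1' at A' hP
  generalize cyc n (x' - 3) = c2' at A' hP
  generalize cyc n (x' - (2 * j + 1)) = c3' at A' hP
  unfold P4 at hP
  subst hn
  rcases A with ⟨rfl, rfl, rfl, rfl, rfl⟩ | ⟨A, B, rfl, rfl, rfl, rfl⟩ | ⟨A, B, rfl, rfl, rfl, rfl⟩ |
    ⟨rfl, rfl, rfl, rfl, rfl⟩ | ⟨A, B, rfl, rfl, rfl, rfl⟩ | ⟨A, B, rfl, rfl, rfl, rfl⟩ <;>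
  rcases A' with ⟨rfl, rfl, rfl, rfl, rfl⟩ | ⟨A', B', rfl, rfl, rfl, rfl⟩ |
    ⟨A', B', rfl, rfl, rfl, rfl⟩ |
    ⟨rfl, rfl, rfl, rfl, rfl⟩ | ⟨A', B', rfl, rfl, rfl, rfl⟩ | ⟨A', B', rfl, rfl, rfl, rfl⟩ <;>
    rcases hP with ⟨P0, P⟩ | ⟨P0, P⟩ | ⟨P0, P⟩ | ⟨P0, P⟩ <;>
    first
    | omega
    | (unfold P3 at P
       rcases P with ⟨P, Q, R⟩ | ⟨P, Q, R⟩ | ⟨P, Q, R⟩ | ⟨P, Q, R⟩ | ⟨P, Q, R⟩ | ⟨P, Q, R⟩ <;> omega)

end Pool.Agent.H74.MD
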