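import Pool.Agent.H74.MD.Finite

namespace Pool.Agent.H74.MD

/-- encoding of the multiset of distances from the vertex `(x,y)` -/
def E (n : ℕ) (L : List ℕ) (x y : ℕ) : ℕ := enc (L.map (fun v => dN n x y (v % n) (v / n)))

theorem two_cN_le {n x a : ℕ} (hx : x < n) (ha : a < n) : 2 * cN n x a ≤ n := by
  have h1 := two_cyc_le (n := (n : ℤ)) (u := (x : ℤ) - a) (by omega)
  rw [cyc_eq_cN hx ha] at h1
  omega

theorem code_ofI {n : ℕ} (hn : 0 < n) (L : List ℕ) {x : ℕ} (hx : x < n) (y : ℕ) :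
    code n ((L.map (ofI n) : List (ℤ × ℤ)) : Multiset (ℤ × ℤ)) ((x : ℤ), (y : ℤ)) =
      (((L.map (fun v => dN n x y (v % n) (v / n)) : List ℕ) : Multiset ℕ)).map
        (fun i : ℕ => (i : ℤ)) := by
  unfold code
  rw [Multiset.map_coe, Multiset.map_coe, List.map_map, List.map_map]
  congr 1
  apply List.map_congr_left
  intro s _
  simp only [Function.comp_def, ofI]
  exact ds_eq_dN hx (Nat.mod_lt _ hn)

theorem code_red {n x : ℤ} (L : Multiset (ℤ × ℤ)) {z : ℤ} (y : ℤ) (h : n ∣ x - z) :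
    code n L (x, y) = code n L (z, y) := by
  unfold code ds
  apply Multiset.map_congr rfl
  intro s _
  simp only
  congr 1
  apply cyc_congr
  have e : x - s.1 - (z - s.1) = x - z := by ring
  rw [e]; exact h

/-- elimination of `Cf` for landmarks given by indices, in terms of natural numbers -/
theorem Cf_nat {n : ℕ} (hn : 0 < n) {h : ℤ} {L : List ℕ}
    (H : Cf n h ((L.map (ofI n) : List (ℤ × ℤ)) : Multiset (ℤ × ℤ))) :
    ∃ x y x' y' : ℕ, x < n ∧ x' < n ∧ (y : ℤ) ≤ h ∧ (y' : ℤ) ≤ h ∧ y ≤ y' ∧ ¬ (x = x' ∧ y = y') ∧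
      ((L.map (fun v => dN n x y (v % n) (v / n)) : List ℕ) : Multiset ℕ) =
      ((L.map (fun v => dN n x' y' (v % n) (v / n)) : List ℕ) : Multiset ℕ) := by
  obtain ⟨x, y, x', y', h1, h2, h3, h4, h5, h6⟩ := H
  have hnz : (0 : ℤ) < n := by omega
  obtain ⟨z, z1, z2, z3⟩ := exists_red hnz x
  obtain ⟨z', z1', z2', z3'⟩ := exists_red hnz x'
  obtain ⟨a, rfl⟩ := Int.eq_ofNat_of_zero_le z1
  obtain ⟨a', rfl⟩ := Int.eq_ofNat_of_zero_le z1'
  obtain ⟨b, rfl⟩ := Int.eq_ofNat_of_zero_le h1
  obtain ⟨b', rfl⟩ := Int.eq_ofNat_of_zero_le h3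
  rw [code_red _ _ z3, code_red _ _ z3', code_ofI hn L (by omega), code_ofI hn L (by omega)] at h6
  have h7 := Multiset.map_injective (f := fun i : ℕ => (i : ℤ)) Nat.cast_injective h6
  have hne : ¬ (a = a' ∧ b = b') := by
    rintro ⟨rfl, rfl⟩
    apply h5 rfl
    have e : x - x' = (x - a) - (x' - a) := by ring
    rw [e]; exact dvd_sub z3 z3'
  rcases le_total b b' with hb | hb
  · exact ⟨a, b, a', b', by omega, by omega, h2, h4, hb, hne, h7⟩
  · exact ⟨a', b', a, b, by omega, by omega, h4, h2, hb, fun e => hne ⟨e.1.symm, e.2.symm⟩, h7.symm⟩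

/-- boolean check -/
def chkH (n H0 B : ℕ) (L : List ℕ) : Bool :=
  (List.range n).all fun x => (List.range (H0 + 1)).all fun y =>
    (List.range n).all fun x' => (List.range (B + 1)).all fun y' =>
      (Nat.beq x x' && Nat.beq y y') || !(Nat.beq (E n L x y) (E n L x' y'))

theorem chkH_spec {n H0 B : ℕ} {L : List ℕ} (h : chkH n H0 B L = true) {x y x' y' : ℕ}
    (hx : x < n) (hy : y ≤ H0) (hx' : x' < n) (hy' : y' ≤ B) (he : E n L x y = E n L x' y') :
    x = x' ∧ y = y' := by
  unfold chkH at h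
  rw [List.all_eq_true] at h
  have h1 := h x (List.mem_range.2 hx)
  rw [List.all_eq_true] at h1
  have h2 := h1 y (List.mem_range.2 (by omega))
  rw [List.all_eq_true] at h2
  have h3 := h2 x' (List.mem_range.2 hx')
  rw [List.all_eq_true] at h3
  have h4 := h3 y' (List.mem_range.2 (by omega))
  rw [he] at h4
  have e : Nat.beq (E n L x' y') (E n L x' y') = true := Nat.beq_refl _
  rw [e] at h4
  simp only [Bool.not_true, Bool.or_false, Bool.and_eq_true] at h4
  exact ⟨Nat.eq_of_beq_eq_true h4.1, Nat.eq_of_beq_eq_true h4.2⟩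

/-- a finite check for the half-infinite cylinder -/
theorem half_res {n H0 B : ℕ} (hn : 0 < n) (L : List ℕ) (hne : L ≠ [])
    (hrow : ∀ v ∈ L, v / n ≤ H0) (hB : n / 2 + 2 * H0 ≤ B) (chk : chkH n H0 B L = true) (h : ℤ) :
    ¬ Cf n h ((L.map (ofI n) : List (ℤ × ℤ)) : Multiset (ℤ × ℤ)) := by
  intro H
  obtain ⟨x, y, x', y', hx, hx', _, _, hyy, hneq, hm⟩ := Cf_nat hn H
  obtain ⟨s, hs⟩ : ∃ s, s = y - H0 := ⟨_, rfl⟩
  have sh : ∀ (w q : ℕ), (s = 0 ∨ H0 + s ≤ q) → ∀ v ∈ L,
      dN n w q (v % n) (v / n) = dN n w (q - s) (v % n) (v / n) + s := by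
    intro w q hq v hv
    have := hrow v hv
    unfold dN
    generalize cN n w (v % n) = c
    generalize v / n = r at this ⊢
    omega
  have hm2 : ((L.map (fun v => dN n x (y - s) (v % n) (v / n)) : List ℕ) : Multiset ℕ) =
      ((L.map (fun v => dN n x' (y' - s) (v % n) (v / n)) : List ℕ) : Multiset ℕ) := by
    apply Multiset.map_injective (f := fun i : ℕ => i + s) (fun a b hab => by
      simp only at hab; omega)
    rw [Multiset.map_coe, Multiset.map_coe, List.map_map, List.map_map]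
    have e1 : L.map ((fun i => i + s) ∘ fun v => dN n x (y - s) (v % n) (v / n)) =
        L.map (fun v => dN n x y (v % n) (v / n)) := by
      apply List.map_congr_left
      intro v hv
      exact (sh x y (by omega) v hv).symm
    have e2 : L.map ((fun i => i + s) ∘ fun v => dN n x' (y' - s) (v % n) (v / n)) =
        L.map (fun v => dN n x' y' (v % n) (v / n)) := by
      apply List.map_congr_left
      intro v hv
      exact (sh x' y' (by omega) v hv).symm
    rw [e1, e2]
    exact hm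
  have hperm : (L.map (fun v => dN n x (y - s) (v % n) (v / n))).Perm
      (L.map (fun v => dN n x' (y' - s) (v % n) (v / n))) := Multiset.coe_eq_coe.1 hm2
  have hB' : y' - s ≤ B := by
    obtain ⟨v0, hv0⟩ := List.exists_mem_of_ne_nil L hne
    have hmem : dN n x' (y' - s) (v0 % n) (v0 / n) ∈
        L.map (fun v => dN n x (y - s) (v % n) (v / n)) :=
      hperm.symm.subset (List.mem_map_of_mem hv0)
    obtain ⟨v1, hv1, e⟩ := List.mem_map.1 hmem
    have r0 := hrow v0 hv0
    have r1 := hrow v1 hv1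
    have c1 := two_cN_le (n := n) hx (Nat.mod_lt v1 hn)
    unfold dN at e
    generalize cN n x (v1 % n) = c at *
    generalize cN n x' (v0 % n) = c' at *
    generalize v1 / n = p at *
    generalize v0 / n = q at *
    omega
  have key := chkH_spec chk hx (by omega : y - s ≤ H0) hx' hB' (enc_of_perm hperm)
  apply hneq
  exact ⟨key.1, by omega⟩

/-- finite check for a cylinder with rows `0..H0` -/
theorem fin_res {n H0 : ℕ} (hn : 0 < n) (L : List ℕ) (chk : chkH n H0 H0 L = true) :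
    ¬ Cf n (H0 : ℤ) ((L.map (ofI n) : List (ℤ × ℤ)) : Multiset (ℤ × ℤ)) := by
  intro H
  obtain ⟨x, y, x', y', hx, hx', hy, hy', hyy, hneq, hm⟩ := Cf_nat hn H
  have hperm : (L.map (fun v => dN n x y (v % n) (v / n))).Perm
      (L.map (fun v => dN n x' y' (v % n) (v / n))) := Multiset.coe_eq_coe.1 hm
  exact hneq (chkH_spec chk hx (by omega) hx' (by omega) (enc_of_perm hperm))

theorem c4 : chkH 4 4 10 [0, 5, 6, 16] = true := by decide +kernel
theorem c5 : chkH 5 4 10 [0, 2, 8, 24] = true := by decide +kernel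
theorem c6 : chkH 6 5 13 [0, 3, 12, 31] = true := by decide +kernel
theorem c7 : chkH 7 6 15 [0, 8, 10, 47] = true := by decide +kernel
theorem c9 : chkH 9 1 6 [0, 4, 14, 15] = true := by decide +kernel
theorem c11 : chkH 11 1 7 [0, 5, 12, 13] = true := by decide +kernel
theorem c7_4 : chkH 7 3 3 [0, 8, 17, 27] = true := by decide +kernel
theorem c7_6 : chkH 7 5 5 [0, 1, 21, 35] = true := by decide +kernel

end Pool.Agent.H74.MD
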