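import Pool.Agent.H74.MD.FourA
import Pool.Agent.H74.MD.FourB
import Pool.Agent.H74.MD.FourC
import Pool.Agent.H74.MD.Chk1
import Pool.Agent.H74.MD.Chk2
import Pool.Agent.H74.MD.Chk3

namespace Pool.Agent.H74.MD

open SimpleGraph

theorem mdim_inf {n m : ℕ} (hn : 4 ≤ n) (hm : 1 ≤ m) (hn' : n ≤ 5) (hm' : m ≤ 2) :
    mdim ((cycleGraph n) □ (pathGraph m)) = ⊤ := by
  apply mdim_top
  have hn2 : n = 4 ∨ n = 5 := by omega
  have hm2 : m = 1 ∨ m = 2 := by omega
  rcases hn2 with rfl | rfl <;> rcases hm2 with rfl | rfl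
  · exact no_set (by norm_num) (by norm_num) all41
  · exact no_set (by norm_num) (by norm_num) all42
  · exact no_set (by norm_num) (by norm_num) all51
  · exact no_set (by norm_num) (by norm_num) all52

theorem three_le_mdim {n m : ℕ} (hn : 3 ≤ n) (hm : 1 ≤ m) :
    3 ≤ mdim ((cycleGraph n) □ (pathGraph m)) := by
  have := le_mdim (G := (cycleGraph n) □ (pathGraph m)) (k := 3) (fun S hS => three_le hn hm S hS)
  exact_mod_cast this

theorem mdim_three {n m : ℕ} (hm : 1 ≤ m) (hn : 6 ≤ n)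
    (h : m = 1 ∨ ¬ Fail n ((m : ℤ) - 1)) : mdim ((cycleGraph n) □ (pathGraph m)) = 3 := by
  apply le_antisymm
  · apply mdim_le_three (by omega)
    apply ex_three (by omega) (by omega)
    rcases h with h | h
    · left; omega
    · right; exact h
  · exact three_le_mdim (by omega) hm

theorem mdim_le_half {n m H0 B : ℕ} (hn : 3 ≤ n) (L : List ℕ) (hne : L ≠ []) (hnd : L.Nodup)
    (hrow : ∀ v ∈ L, v / n ≤ H0) (hB : n / 2 + 2 * H0 ≤ B) (chk : chkH n H0 B L = true)
    (hm : H0 + 1 ≤ m) : mdim ((cycleGraph n) □ (pathGraph m)) ≤ L.length := by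
  have hn0 : 0 < n := by omega
  apply mdim_le_list hn (by omega) L hnd
  · intro v hv
    have h1 := hrow v hv
    have h2 : v / n < m := by omega
    rw [mul_comm]
    exact (Nat.div_lt_iff_lt_mul hn0).1 h2
  · exact half_res hn0 L hne hrow hB chk _

theorem mdim_le_fin {n m H0 : ℕ} (hn : 3 ≤ n) (L : List ℕ) (hnd : L.Nodup)
    (hL : ∀ v ∈ L, v < n * m) (chk : chkH n H0 H0 L = true) (hm : m = H0 + 1) :
    mdim ((cycleGraph n) □ (pathGraph m)) ≤ L.length := by
  have hn0 : 0 < n := by omega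
  apply mdim_le_list hn (by omega) L hnd hL
  have e : (m : ℤ) - 1 = (H0 : ℤ) := by omega
  rw [e]
  exact fin_res hn0 L chk

theorem mdim_le_4 {n m : ℕ} (hn : 4 ≤ n) (hm : 2 ≤ m)
    (h : (n = 4 → 5 ≤ m) ∧ (n = 5 → 5 ≤ m) ∧ (n = 6 → 6 ≤ m) ∧ (n = 7 → m = 4 ∨ 6 ≤ m)) :
    mdim ((cycleGraph n) □ (pathGraph m)) ≤ 4 := by
  obtain ⟨h4, h5, h6, h7⟩ := h
  by_cases k4 : n = 4
  · subst k4
    exact mdim_le_half (H0 := 4) (B := 10) (by norm_num) [0, 5, 6, 16] (by simp) (by decide)
      (by decide) (by norm_num) c4 (h4 rfl)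
  by_cases k5 : n = 5
  · subst k5
    exact mdim_le_half (H0 := 4) (B := 10) (by norm_num) [0, 2, 8, 24] (by simp) (by decide)
      (by decide) (by norm_num) c5 (h5 rfl)
  by_cases k6 : n = 6
  · subst k6
    exact mdim_le_half (H0 := 5) (B := 13) (by norm_num) [0, 3, 12, 31] (by simp) (by decide)
      (by decide) (by norm_num) c6 (h6 rfl)
  by_cases k7 : n = 7
  · subst k7
    rcases h7 rfl with k | k
    · subst k
      exact mdim_le_fin (H0 := 3) (by norm_num) [0, 8, 17, 27] (by decide) (by decide) c7_4 rfl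
    · by_cases k' : m = 6
      · subst k'
        exact mdim_le_fin (H0 := 5) (by norm_num) [0, 1, 21, 35] (by decide) (by decide) c7_6 rfl
      · exact mdim_le_half (H0 := 6) (B := 15) (by norm_num) [0, 8, 10, 47] (by simp) (by decide)
          (by decide) (by norm_num) c7 (by omega)
  by_cases k9 : n = 9
  · subst k9
    exact mdim_le_half (H0 := 1) (B := 6) (by norm_num) [0, 4, 14, 15] (by simp) (by decide)
      (by decide) (by norm_num) c9 (by omega)
  by_cases k11 : n = 11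
  · subst k11
    exact mdim_le_half (H0 := 1) (B := 7) (by norm_num) [0, 5, 12, 13] (by simp) (by decide)
      (by decide) (by norm_num) c11 (by omega)
  · apply mdim_le_four (by omega)
    by_cases e1 : n % 2 = 1
    · exact four_c (N := ((n / 2 : ℕ) : ℤ)) (by omega) (by omega) (by omega)
    · by_cases e2 : n % 4 = 0
      · exact four_a (j := ((n / 4 : ℕ) : ℤ)) (by omega) (by omega) (by omega)
      · exact four_b (j := ((n / 4 : ℕ) : ℤ)) (by omega) (by omega) (by omega)

theorem mdim_four {n m : ℕ} (hn : 4 ≤ n) (hm : 2 ≤ m) (hf : Fail n ((m : ℤ) - 1))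
    (h : (n = 4 → 5 ≤ m) ∧ (n = 5 → 5 ≤ m) ∧ (n = 6 → 6 ≤ m) ∧ (n = 7 → m = 4 ∨ 6 ≤ m)) :
    mdim ((cycleGraph n) □ (pathGraph m)) = 4 := by
  apply le_antisymm (mdim_le_4 hn hm h)
  have := le_mdim (G := (cycleGraph n) □ (pathGraph m)) (k := 4)
    (fun S hS => four_le hn hm hf S hS)
  exact_mod_cast this

theorem mdim_five {n m H0 : ℕ} (hn : 4 ≤ n) (hm : 2 ≤ m) (hf : Fail n ((m : ℤ) - 1))
    {P : List (ℕ × ℕ)} (hP : okP n m P = true) (h4 : chk4 n m P = true) (L : List ℕ)
    (hlen : L.length = 5) (hnd : L.Nodup)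
    (hL : ∀ v ∈ L, v < n * m) (chk : chkH n H0 H0 L = true) (hm' : m = H0 + 1) :
    mdim ((cycleGraph n) □ (pathGraph m)) = 5 := by
  apply le_antisymm
  · have := mdim_le_fin (m := m) (by omega) L hnd hL chk hm'
    rw [hlen] at this
    exact_mod_cast this
  · have := le_mdim (G := (cycleGraph n) □ (pathGraph m)) (k := 5) (fun S hS => by
      have h1 := four_le hn hm hf S hS
      have h2 : S.card ≠ 4 := fun h => no_four (by omega) (by omega) hP h4 S h hS
      omega)
    exact_mod_cast this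

theorem q43 : chkH 4 2 2 [0, 1, 2, 4, 9] = true := by decide +kernel
theorem q44 : chkH 4 3 3 [0, 1, 2, 4, 9] = true := by decide +kernel
theorem q53 : chkH 5 2 2 [0, 1, 2, 3, 10] = true := by decide +kernel
theorem q54 : chkH 5 3 3 [0, 1, 2, 3, 10] = true := by decide +kernel
theorem q62 : chkH 6 1 1 [0, 1, 2, 4, 6] = true := by decide +kernel
theorem q63 : chkH 6 2 2 [0, 1, 2, 4, 6] = true := by decide +kernel
theorem q64 : chkH 6 3 3 [0, 1, 2, 4, 6] = true := by decide +kernel
theorem q65 : chkH 6 4 4 [0, 1, 2, 4, 6] = true := by decide +kernel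
theorem q72 : chkH 7 1 1 [0, 1, 2, 3, 11] = true := by decide +kernel
theorem q73 : chkH 7 2 2 [0, 1, 2, 3, 11] = true := by decide +kernel
theorem q75 : chkH 7 4 4 [0, 1, 2, 3, 11] = true := by decide +kernel

/-- the pairs `(n, m)` with multiset dimension `5` -/
def Exc (n m : ℕ) : Prop :=
  (n = 4 ∧ (m = 3 ∨ m = 4)) ∨ (n = 5 ∧ (m = 3 ∨ m = 4)) ∨ (n = 6 ∧ 2 ≤ m ∧ m ≤ 5) ∨
    (n = 7 ∧ (m = 2 ∨ m = 3 ∨ m = 5))

theorem mdim_exc {n m : ℕ} (h : Exc n m) : mdim ((cycleGraph n) □ (pathGraph m)) = 5 := by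
  unfold Exc at h
  rcases h with ⟨rfl, rfl | rfl⟩ | ⟨rfl, rfl | rfl⟩ | ⟨rfl, h1, h2⟩ | ⟨rfl, rfl | rfl | rfl⟩
  · exact mdim_five (H0 := 2) (by norm_num) (by norm_num) (by unfold Fail; norm_num) ok43 f43 _ rfl
      (by decide) (by decide) q43 rfl
  · exact mdim_five (H0 := 3) (by norm_num) (by norm_num) (by unfold Fail; norm_num) ok44 f44 _ rfl
      (by decide) (by decide) q44 rfl
  · exact mdim_five (H0 := 2) (by norm_num) (by norm_num) (by unfold Fail; norm_num) ok53 f53 _ rfl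
      (by decide) (by decide) q53 rfl
  · exact mdim_five (H0 := 3) (by norm_num) (by norm_num) (by unfold Fail; norm_num) ok54 f54 _ rfl
      (by decide) (by decide) q54 rfl
  · have : m = 2 ∨ m = 3 ∨ m = 4 ∨ m = 5 := by omega
    rcases this with rfl | rfl | rfl | rfl
    · exact mdim_five (H0 := 1) (by norm_num) (by norm_num) (by unfold Fail; norm_num) ok62 f62 _
        rfl (by decide) (by decide) q62 rfl
    · exact mdim_five (H0 := 2) (by norm_num) (by norm_num) (by unfold Fail; norm_num) ok63 f63 _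
        rfl (by decide) (by decide) q63 rfl
    · exact mdim_five (H0 := 3) (by norm_num) (by norm_num) (by unfold Fail; norm_num) ok64 f64 _
        rfl (by decide) (by decide) q64 rfl
    · exact mdim_five (H0 := 4) (by norm_num) (by norm_num) (by unfold Fail; norm_num) ok65 f65 _
        rfl (by decide) (by decide) q65 rfl
  · exact mdim_five (H0 := 1) (by norm_num) (by norm_num) (by unfold Fail; norm_num) ok72 f72 _ rfl
      (by decide) (by decide) q72 rfl
  · exact mdim_five (H0 := 2) (by norm_num) (by norm_num) (by unfold Fail; norm_num) ok73 f73 _ rfl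
      (by decide) (by decide) q73 rfl
  · exact mdim_five (H0 := 4) (by norm_num) (by norm_num) (by unfold Fail; norm_num) ok75 f75 _ rfl
      (by decide) (by decide) q75 rfl

end Pool.Agent.H74.MD
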