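import Pool.Agent.H74.MD.Half
import Pool.Agent.H74.MD.Bridge

namespace Pool.Agent.H74.MD

open SimpleGraph

/-- the vertex with index `v` -/
def toV {n m : ℕ} (hn : 0 < n) (hm : 0 < m) (v : ℕ) : Fin n × Fin m :=
  (⟨v % n, Nat.mod_lt _ hn⟩, ⟨v / n % m, Nat.mod_lt _ hm⟩)

theorem pt_toV {n m : ℕ} (hn : 0 < n) (hm : 0 < m) {v : ℕ} (hv : v < n * m) :
    pt (toV hn hm v) = ofI n v := by
  unfold pt toV ofI
  simp only
  rw [Nat.mod_eq_of_lt (Nat.div_lt_of_lt_mul hv)]

theorem ofI_inj {n : ℕ} {v w : ℕ} (h : ofI n v = ofI n w) : v = w := by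
  unfold ofI at h
  rw [Prod.mk.injEq] at h
  have h1 : v % n = w % n := by exact_mod_cast h.1
  have h2 : v / n = w / n := by exact_mod_cast h.2
  rw [← Nat.div_add_mod v n, ← Nat.div_add_mod w n, h1, h2]

theorem mdim_le_list {n m : ℕ} (hn : 3 ≤ n) (hm : 0 < m) (L : List ℕ) (hnd : L.Nodup)
    (hL : ∀ v ∈ L, v < n * m)
    (hc : ¬ Cf n ((m : ℤ) - 1) ((L.map (ofI n) : List (ℤ × ℤ)) : Multiset (ℤ × ℤ))) :
    mdim ((cycleGraph n) □ (pathGraph m)) ≤ L.length := by
  have hn0 : 0 < n := by omega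
  have hnd' : ((L.map (toV (n := n) (m := m) hn0 hm) : List (Fin n × Fin m)) :
      Multiset (Fin n × Fin m)).Nodup := by
    rw [Multiset.coe_nodup]
    refine List.Nodup.map_on ?_ hnd
    intro v hv w hw h
    apply ofI_inj (n := n)
    rw [← pt_toV hn0 hm (hL v hv), ← pt_toV hn0 hm (hL w hw), h]
  refine mdim_le (S := ⟨_, hnd'⟩) (k := L.length) ?_ ?_
  · rw [resolving_iff hn]
    have e : Multiset.map pt ((L.map (toV (n := n) (m := m) hn0 hm) : List (Fin n × Fin m)) :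
      Multiset (Fin n × Fin m)) =
        ((L.map (ofI n) : List (ℤ × ℤ)) : Multiset (ℤ × ℤ)) := by
      rw [Multiset.map_coe, List.map_map]
      congr 1
      apply List.map_congr_left
      intro v hv
      exact pt_toV hn0 hm (hL v hv)
    rw [e]
    exact hc
  · rw [Finset.card_mk, Multiset.coe_card, List.length_map]

/-- equality of encodings for four landmarks (given by index) -/
def eqc (n : ℕ) (p : ℕ × ℕ) (a b c d : ℕ) : Bool :=
  Nat.beq (8 ^ dI n p.1 a + 8 ^ dI n p.1 b + 8 ^ dI n p.1 c + 8 ^ dI n p.1 d)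
    (8 ^ dI n p.2 a + 8 ^ dI n p.2 b + 8 ^ dI n p.2 c + 8 ^ dI n p.2 d)

/-- boolean check that no four landmarks resolve -/
def chk4 (n m : ℕ) (P : List (ℕ × ℕ)) : Bool :=
  (List.range m).all fun r0 =>
    (List.range' (r0 * n + 1) (n * m - (r0 * n + 1))).all fun j =>
      (List.range' (j + 1) (n * m - (j + 1))).all fun k =>
        (List.range' (k + 1) (n * m - (k + 1))).all fun l =>
          P.any fun p => eqc n p (r0 * n) j k l

/-- well-formedness of the list of pairs -/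
def okP (n m : ℕ) (P : List (ℕ × ℕ)) : Bool :=
  P.all fun p => Nat.blt p.1 (n * m) && Nat.blt p.2 (n * m) && !(Nat.beq p.1 p.2)

theorem chk4_spec {n m : ℕ} (hn : 0 < n) (hm : 0 < m) {P : List (ℕ × ℕ)}
    (hP : okP n m P = true) (h : chk4 n m P = true) {r0 j k l : ℕ} (hr : r0 < m)
    (hj : r0 * n < j) (hk : j < k) (hl : k < l) (hl' : l < n * m) :
    Cf n ((m : ℤ) - 1)
      (([r0 * n, j, k, l].map (ofI n) : List (ℤ × ℤ)) : Multiset (ℤ × ℤ)) := by
  unfold chk4 at h
  rw [List.all_eq_true] at h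
  have h1 := h r0 (List.mem_range.2 hr)
  rw [List.all_eq_true] at h1
  have h2 := h1 j (List.mem_range'_1.2 ⟨by omega, by omega⟩)
  rw [List.all_eq_true] at h2
  have h3 := h2 k (List.mem_range'_1.2 ⟨by omega, by omega⟩)
  rw [List.all_eq_true] at h3
  have h4 := h3 l (List.mem_range'_1.2 ⟨by omega, by omega⟩)
  rw [List.any_eq_true] at h4
  obtain ⟨p, hp, h5⟩ := h4
  unfold okP at hP
  rw [List.all_eq_true] at hP
  have h6 := hP p hp
  simp only [Bool.and_eq_true, Bool.not_eq_true'] at h6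
  obtain ⟨⟨q1, q2⟩, q3⟩ := h6
  have q1' : p.1 < n * m := by simpa [Nat.blt_eq] using q1
  have q2' : p.2 < n * m := by simpa [Nat.blt_eq] using q2
  have q3' : p.1 ≠ p.2 := by
    intro e
    rw [e] at q3
    rw [Nat.beq_refl] at q3
    exact absurd q3 (by simp)
  refine Cf_of_enc hn hm _ (by simp) p.1 p.2 q1' q2' q3' ?_
  unfold eqc at h5
  have h7 := Nat.eq_of_beq_eq_true h5
  simp only [enc, List.map_cons, List.map_nil, List.sum_cons, List.sum_nil]
  omega

end Pool.Agent.H74.MD
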