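import Pool.Agent.H74.MD.NoFour

namespace Pool.Agent.H74.MD

open SimpleGraph

theorem Cf_shift {α : Type*} {n h : ℤ} (t : ℤ) (M : Multiset α) (f g : α → ℤ × ℤ)
    (hfg : ∀ s, n ∣ (f s).1 + t - (g s).1 ∧ (g s).2 = (f s).2)
    (H : Cf n h (M.map g)) : Cf n h (M.map f) := by
  obtain ⟨x, y, x', y', h1, h2, h3, h4, h5, h6⟩ := H
  have key : ∀ x y : ℤ, code n (M.map g) (x, y) = code n (M.map f) (x - t, y) := by
    intro x y
    unfold code ds
    rw [Multiset.map_map, Multiset.map_map]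
    apply Multiset.map_congr rfl
    intro s _
    simp only [Function.comp_def]
    obtain ⟨k1, k2⟩ := hfg s
    rw [k2]
    congr 1
    apply cyc_congr
    have e : x - (g s).1 - (x - t - (f s).1) = (f s).1 + t - (g s).1 := by ring
    rw [e]; exact k1
  refine ⟨x - t, y, x' - t, y', h1, h2, h3, h4, ?_, ?_⟩
  · intro e hd
    apply h5 e
    have e2 : x - x' = x - t - (x' - t) := by ring
    rw [e2]; exact hd
  · rw [← key, ← key]; exact h6

theorem sort3 {Q : ℕ → ℕ → ℕ → Prop} {lo V : ℕ} (h1 : ∀ j k l, Q j k l → Q k j l)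
    (h2 : ∀ j k l, Q j k l → Q j l k)
    (hs : ∀ j k l, lo < j → j < k → k < l → l < V → Q j k l) (j k l : ℕ)
    (hj : lo < j) (hk : lo < k) (hl : lo < l) (hj' : j < V) (hk' : k < V) (hl' : l < V)
    (hjk : j ≠ k) (hjl : j ≠ l) (hkl : k ≠ l) : Q j k l := by
  rcases lt_or_gt_of_ne hjk with a | a <;> rcases lt_or_gt_of_ne hjl with b | b <;>
    rcases lt_or_gt_of_ne hkl with c | c
  · exact hs _ _ _ hj a c hl'
  · exact h2 _ _ _ (hs _ _ _ hj b c hk')
  · omega
  · exact h2 _ _ _ (h1 _ _ _ (hs _ _ _ hl b a hk'))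
  · exact h1 _ _ _ (hs _ _ _ hk a b hl')
  · omega
  · exact h1 _ _ _ (h2 _ _ _ (hs _ _ _ hk c b hj'))
  · exact h1 _ _ _ (h2 _ _ _ (h1 _ _ _ (hs _ _ _ hl c a hj')))

theorem no_four {n m : ℕ} (hn : 3 ≤ n) (hm : 0 < m) {P : List (ℕ × ℕ)}
    (hP : okP n m P = true) (h : chk4 n m P = true) (S : Finset (Fin n × Fin m))
    (hS : S.card = 4) : ¬ IsMultisetResolving ((cycleGraph n) □ (pathGraph m)) S := by
  rw [resolving_iff hn, not_not]
  have hn0 : 0 < n := by omega
  have hne : S.Nonempty := by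
    rw [← Finset.card_pos]; omega
  obtain ⟨s0, hs0, hmin⟩ := Finset.exists_min_image S (fun s => ((s.2 : Fin m) : ℕ)) hne
  have hT : (S.erase s0).card = 3 := by
    rw [Finset.card_erase_of_mem hs0, hS]
  obtain ⟨a, b, c, hab, hac, hbc, hTe⟩ := Finset.card_eq_three.1 hT
  have hSe : S = insert s0 ({a, b, c} : Finset (Fin n × Fin m)) := by
    rw [← hTe, Finset.insert_erase hs0]
  have mem : ∀ s, s ∈ ({a, b, c} : Finset (Fin n × Fin m)) → s ≠ s0 ∧ (s0.2 : ℕ) ≤ (s.2 : ℕ) := by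
    intro s hs
    rw [← hTe] at hs
    exact ⟨Finset.ne_of_mem_erase hs, hmin s (Finset.mem_of_mem_erase hs)⟩
  have ma := mem a (by simp)
  have mb := mem b (by simp)
  have mc := mem c (by simp)
  have hval : S.val = s0 ::ₘ a ::ₘ b ::ₘ {c} := by
    rw [hSe, Finset.insert_val_of_notMem (by
        intro hh; exact (mem s0 hh).1 rfl),
      Finset.insert_val_of_notMem (by simp [hab, hac]),
      Finset.insert_val_of_notMem (by simpa using hbc)]
    rfl
  -- the rotated index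
  let idx : Fin n × Fin m → ℕ := fun s => (s.2 : ℕ) * n + (((s.1 : ℕ) + n - (s0.1 : ℕ)) % n)
  have idx_mod : ∀ s, idx s % n = ((s.1 : ℕ) + n - (s0.1 : ℕ)) % n := by
    intro s
    simp only [idx]
    rw [add_comm, Nat.add_mul_mod_self_right, Nat.mod_mod]
  have idx_div : ∀ s, idx s / n = (s.2 : ℕ) := by
    intro s
    simp only [idx]
    rw [add_comm, Nat.add_mul_div_right _ _ hn0, Nat.div_eq_of_lt (Nat.mod_lt _ hn0), zero_add]
  have idx_lt : ∀ s, idx s < n * m := by
    intro s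
    have h1 : idx s / n < m := by rw [idx_div]; exact s.2.2
    rw [mul_comm]
    exact (Nat.div_lt_iff_lt_mul hn0).1 h1
  have idx0 : idx s0 = (s0.2 : ℕ) * n := by
    simp only [idx]
    have e : ((s0.1 : ℕ) + n - (s0.1 : ℕ)) = n := by omega
    rw [e, Nat.mod_self, add_zero]
  have idx_inj : ∀ s t, idx s = idx t → s = t := by
    intro s t hst
    have e1 : (s.2 : ℕ) = t.2 := by rw [← idx_div s, ← idx_div t, hst]
    have e2 : ((s.1 : ℕ) + n - (s0.1 : ℕ)) % n = ((t.1 : ℕ) + n - (s0.1 : ℕ)) % n := by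
      rw [← idx_mod s, ← idx_mod t, hst]
    have e3 : s.1 = t.1 := by
      apply fin_eq_of_dvd
      have hs := s0.1.2
      have d1 : (n : ℤ) ∣ ((s.1 : ℕ) + n - (s0.1 : ℕ) : ℕ) - ((t.1 : ℕ) + n - (s0.1 : ℕ) : ℕ) :=
        (Nat.modEq_iff_dvd.1 (show ((t.1 : ℕ) + n - (s0.1 : ℕ)) ≡ ((s.1 : ℕ) + n - (s0.1 : ℕ)) [MOD n]
          from e2.symm))
      have e : ((s.1 : ℕ) : ℤ) - (t.1 : ℕ) =
        ((s.1 : ℕ) + n - (s0.1 : ℕ) : ℕ) - ((t.1 : ℕ) + n - (s0.1 : ℕ) : ℕ) := by omega
      rw [e]; exact d1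
    exact Prod.ext e3 (Fin.ext e1)
  have idx_gt : ∀ s, s ≠ s0 → (s0.2 : ℕ) ≤ (s.2 : ℕ) → (s0.2 : ℕ) * n < idx s := by
    intro s hs1 hs2
    have h1 : (s0.2 : ℕ) * n ≤ (s.2 : ℕ) * n := Nat.mul_le_mul_right _ hs2
    have h2 : idx s ≠ idx s0 := fun e => hs1 (idx_inj _ _ e)
    rw [idx0] at h2
    have h3 : (s.2 : ℕ) * n ≤ idx s := by simp only [idx]; omega
    omega
  rw [show S.val.map pt = S.val.map pt from rfl]
  refine Cf_shift (-((s0.1 : ℕ) : ℤ)) S.val pt (fun s => ofI n (idx s)) ?_ ?_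
  · intro s
    constructor
    · simp only [pt, ofI]
      rw [idx_mod]
      have hs := s0.1.2
      have h1 : (n : ℤ) ∣ ((((s.1 : ℕ) + n - (s0.1 : ℕ) : ℕ) : ℤ)) -
          ((((s.1 : ℕ) + n - (s0.1 : ℕ)) % n : ℕ) : ℤ) := by
        rw [Int.natCast_mod]
        exact Int.dvd_self_sub_of_emod_eq rfl
      have e : ((s.1 : ℕ) : ℤ) + -((s0.1 : ℕ) : ℤ) - ((((s.1 : ℕ) + n - (s0.1 : ℕ)) % n : ℕ) : ℤ) =
        (((((s.1 : ℕ) + n - (s0.1 : ℕ) : ℕ) : ℤ)) -
          ((((s.1 : ℕ) + n - (s0.1 : ℕ)) % n : ℕ) : ℤ)) - n := by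
        generalize ((((s.1 : ℕ) + n - (s0.1 : ℕ)) % n : ℕ) : ℤ) = q
        omega
      rw [e]
      exact dvd_sub h1 (dvd_refl _)
    · simp only [pt, ofI]
      rw [idx_div]
  · rw [hval]
    simp only [Multiset.map_cons, Multiset.map_singleton]
    rw [idx0]
    refine sort3 (Q := fun j k l => Cf n ((m : ℤ) - 1)
      (ofI n ((s0.2 : ℕ) * n) ::ₘ ofI n j ::ₘ ofI n k ::ₘ {ofI n l})) (lo := (s0.2 : ℕ) * n)
      (V := n * m) ?_ ?_ ?_ (idx a) (idx b) (idx c) (idx_gt a ma.1 ma.2) (idx_gt b mb.1 mb.2)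
      (idx_gt c mc.1 mc.2) (idx_lt a) (idx_lt b) (idx_lt c) (fun e => hab (idx_inj _ _ e))
      (fun e => hac (idx_inj _ _ e)) (fun e => hbc (idx_inj _ _ e))
    · intro j k l hq
      have e : (ofI n k ::ₘ ofI n j ::ₘ {ofI n l} : Multiset (ℤ × ℤ)) =
        ofI n j ::ₘ ofI n k ::ₘ {ofI n l} := Multiset.cons_swap _ _ _
      simp only [e]
      exact hq
    · intro j k l hq
      have e : (ofI n l ::ₘ {ofI n k} : Multiset (ℤ × ℤ)) =
        ofI n k ::ₘ {ofI n l} := Multiset.cons_swap _ _ 0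
      simp only [e]
      exact hq
    · intro j k l hj hk hl hV
      exact chk4_spec hn0 hm hP h s0.2.2 hj hk hl hV

/-! ### no resolving set at all for the four smallest cylinders -/

/-- boolean check that no subset resolves -/
def chkAll (n m : ℕ) : Bool :=
  (List.range (n * m)).sublists.all fun L =>
    (List.range (n * m)).any fun u => (List.range u).any fun v =>
      (L.map (dI n u)).isPerm (L.map (dI n v))

theorem no_set {n m : ℕ} (hn : 3 ≤ n) (hm : 0 < m) (h : chkAll n m = true)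
    (S : Finset (Fin n × Fin m)) :
    ¬ IsMultisetResolving ((cycleGraph n) □ (pathGraph m)) S := by
  classical
  rw [resolving_iff hn, not_not]
  have hn0 : 0 < n := by omega
  let L := (List.range (n * m)).filter (fun v => toV (n := n) (m := m) hn0 hm v ∈ S)
  have hLr : ∀ v ∈ L, v < n * m := by
    intro v hv
    exact List.mem_range.1 (List.mem_of_mem_filter hv)
  have hval : S.val = ((L.map (toV (n := n) (m := m) hn0 hm) : List (Fin n × Fin m)) :
      Multiset (Fin n × Fin m)) := by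
    apply (Multiset.Nodup.ext S.nodup ?_).2
    · intro s
      rw [Multiset.mem_coe, List.mem_map]
      constructor
      · intro hs
        have h2 : (s.2 : ℕ) * n + (s.1 : ℕ) < n * m := by
          have h3 := s.2.2
          have h4 := s.1.2
          calc (s.2 : ℕ) * n + (s.1 : ℕ) < (s.2 : ℕ) * n + n := by omega
            _ = n * ((s.2 : ℕ) + 1) := by ring
            _ ≤ n * m := Nat.mul_le_mul_left _ h3
        have hV : toV (n := n) (m := m) hn0 hm ((s.2 : ℕ) * n + (s.1 : ℕ)) = s := by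
          unfold toV
          refine Prod.ext (Fin.ext ?_) (Fin.ext ?_)
          · simp only
            rw [add_comm, Nat.add_mul_mod_self_right, Nat.mod_eq_of_lt s.1.2]
          · simp only
            rw [add_comm, Nat.add_mul_div_right _ _ hn0, Nat.div_eq_of_lt s.1.2, zero_add,
              Nat.mod_eq_of_lt s.2.2]
        refine ⟨(s.2 : ℕ) * n + (s.1 : ℕ), ?_, hV⟩
        rw [List.mem_filter]
        refine ⟨List.mem_range.2 h2, ?_⟩
        rw [hV]
        simpa using hs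
      · rintro ⟨v, hv, rfl⟩
        have := List.of_mem_filter hv
        simpa using this
    · rw [Multiset.coe_nodup]
      refine List.Nodup.map_on ?_ (List.Nodup.filter _ List.nodup_range)
      intro v hv w hw hvw
      apply ofI_inj (n := n)
      rw [← pt_toV hn0 hm (hLr v hv), ← pt_toV hn0 hm (hLr w hw), hvw]
  have e : S.val.map pt = ((L.map (ofI n) : List (ℤ × ℤ)) : Multiset (ℤ × ℤ)) := by
    rw [hval, Multiset.map_coe, List.map_map]
    congr 1
    apply List.map_congr_left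
    intro v hv
    exact pt_toV hn0 hm (hLr v hv)
  rw [e]
  unfold chkAll at h
  rw [List.all_eq_true] at h
  have h1 := h L (List.mem_sublists.2 List.filter_sublist)
  rw [List.any_eq_true] at h1
  obtain ⟨u, hu, h2⟩ := h1
  rw [List.any_eq_true] at h2
  obtain ⟨v, hv, h3⟩ := h2
  have hu' := List.mem_range.1 hu
  have hv' := List.mem_range.1 hv
  exact Cf_of_perm hn0 L u v hu' (by omega) (by omega) (List.isPerm_iff.1 h3)

theorem all41 : chkAll 4 1 = true := by decide +kernel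
theorem all51 : chkAll 5 1 = true := by decide +kernel
theorem all42 : chkAll 4 2 = true := by decide +kernel
theorem all52 : chkAll 5 2 = true := by decide +kernel

end Pool.Agent.H74.MD
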