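import Pool.Agent.H74.MD.ThreeRow

namespace Pool.Agent.H74.MD

theorem row_zero_free {n h a b c : ℤ} (hn : 4 ≤ n) (hab : ¬ n ∣ a - b) (hac : ¬ n ∣ a - c)
    (hbc : ¬ n ∣ b - c) (hh : 1 ≤ h) (hf : Fail n h) : Cf3 n h a 0 b 0 c 0 := by
  have hn0 : 0 < n := by omega
  obtain ⟨a', a1, a2, a3⟩ := exists_red hn0 a
  obtain ⟨b', b1, b2, b3⟩ := exists_red hn0 b
  obtain ⟨c', c1, c2, c3⟩ := exists_red hn0 c
  refine Cf3_congr (b0 := a') (b1 := b') (b2 := c') a3 b3 c3 ?_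
  have nab : a' ≠ b' := by
    rintro rfl
    apply hab
    have e : a - b = (a - a') - (b - a') := by ring
    rw [e]; exact dvd_sub a3 b3
  have nac : a' ≠ c' := by
    rintro rfl
    apply hac
    have e : a - c = (a - a') - (c - a') := by ring
    rw [e]; exact dvd_sub a3 c3
  have nbc : b' ≠ c' := by
    rintro rfl
    apply hbc
    have e : b - c = (b - b') - (c - b') := by ring
    rw [e]; exact dvd_sub b3 c3
  have S : ∀ x y z : ℤ, 0 ≤ x → x < y → y < z → z < n → Cf3 n h x 0 y 0 z 0 :=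
    fun x y z k1 k2 k3 k4 => row_zero_all k1 k2 k3 k4 hh hf
  rcases lt_or_gt_of_ne nab with h1 | h1 <;> rcases lt_or_gt_of_ne nac with h2 | h2 <;>
    rcases lt_or_gt_of_ne nbc with h3 | h3
  · exact S _ _ _ a1 h1 h3 c2
  · exact Cf3_swap12 (S _ _ _ a1 h2 h3 b2)
  · omega
  · exact Cf3_swap12 (Cf3_swap01 (S _ _ _ c1 h2 h1 b2))
  · exact Cf3_swap01 (S _ _ _ b1 h1 h2 c2)
  · omega
  · exact Cf3_swap01 (Cf3_swap12 (S _ _ _ b1 h3 h2 a2))
  · exact Cf3_swap02 (S _ _ _ c1 h3 h1 a2)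

theorem row_same {n h a b c r : ℤ} (hn : 4 ≤ n) (hab : ¬ n ∣ a - b) (hac : ¬ n ∣ a - c)
    (hbc : ¬ n ∣ b - c) (hh : 1 ≤ h) (hf : Fail n h) (hr : 0 ≤ r) (hr' : r ≤ h) :
    Cf3 n h a r b r c r := by
  by_cases h0 : r = 0
  · subst h0
    exact row_zero_free hn hab hac hbc hh hf
  by_cases h1 : r = h
  · subst h1
    refine Cf3_flip ?_
    rw [sub_self]
    exact row_zero_free hn hab hac hbc hh hf
  · refine ⟨0, r - 1, 0, r + 1, by omega, by omega, by omega, by omega, ?_, ?_⟩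
    · intro; omega
    · have e : (r - 1 - r).natAbs = (r + 1 - r).natAbs := by omega
      simp only [code, ds, Multiset.insert_eq_cons, Multiset.map_cons, Multiset.map_singleton, e]

/-- **No multiset resolving set with three elements** in the range `Fail`. -/
theorem no_three {n h a0 r0 a1 r1 a2 r2 : ℤ} (hn : 4 ≤ n) (hh : 1 ≤ h) (hf : Fail n h)
    (b0 : 0 ≤ r0) (b0' : r0 ≤ h) (b1 : 0 ≤ r1) (b1' : r1 ≤ h) (b2 : 0 ≤ r2) (b2' : r2 ≤ h)
    (d01 : r0 = r1 → ¬ n ∣ a0 - a1) (d02 : r0 = r2 → ¬ n ∣ a0 - a2)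
    (d12 : r1 = r2 → ¬ n ∣ a1 - a2) : Cf3 n h a0 r0 a1 r1 a2 r2 := by
  obtain ⟨N, hN⟩ : ∃ N, n = 2 * N ∨ n = 2 * N + 1 := ⟨n / 2, by omega⟩
  have hN2 : 2 ≤ N := by omega
  have neg : ∀ a b : ℤ, ¬ n ∣ a - b → ¬ n ∣ b - a := by
    intro a b h1 h2
    apply h1
    have e : a - b = -(b - a) := by ring
    rw [e]; exact (dvd_neg).2 h2
  rcases lt_trichotomy r0 r1 with h1 | h1 | h1 <;> rcases lt_trichotomy r0 r2 with h2 | h2 | h2 <;>
    rcases lt_trichotomy r1 r2 with h3 | h3 | h3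
  -- r0 < r1, r0 < r2
  · exact three_row hN hN2 b0 h1 h3 b2'
  · subst h3
    exact Cf3_swap02 (two_row hN hN2 (neg _ _ (d12 rfl)) b1 b1' b0 b0' (by omega) hf)
  · exact Cf3_swap12 (three_row hN hN2 b0 h2 h3 b1')
  -- r0 < r1, r0 = r2
  · omega
  · omega
  · subst h2
    exact Cf3_swap12 (two_row hN hN2 (d02 rfl) b0 b0' b1 b1' (by omega) hf)
  -- r0 < r1, r2 < r0
  · omega
  · omega
  · exact Cf3_swap12 (Cf3_swap01 (three_row hN hN2 b2 h2 h1 b1'))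
  -- r0 = r1
  · subst h1
    exact two_row hN hN2 (d01 rfl) b0 b0' b2 b2' (by omega) hf
  · omega
  · omega
  · omega
  · subst h1
    subst h2
    exact row_same hn (d01 rfl) (d02 rfl) (d12 rfl) hh hf b0 b0'
  · omega
  · omega
  · omega
  · subst h1
    exact two_row hN hN2 (d01 rfl) b0 b0' b2 b2' (by omega) hf
  -- r1 < r0
  · exact Cf3_swap01 (three_row hN hN2 b1 h1 h2 b2')
  · omega
  · omega
  · subst h2
    exact Cf3_swap12 (two_row hN hN2 (d02 rfl) b0 b0' b1 b1' (by omega) hf)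
  · omega
  · omega
  · exact Cf3_swap01 (Cf3_swap12 (three_row hN hN2 b1 h3 h2 b0'))
  · subst h3
    exact Cf3_swap02 (two_row hN hN2 (neg _ _ (d12 rfl)) b1 b1' b0 b0' (by omega) hf)
  · exact Cf3_swap02 (three_row hN hN2 b2 h3 h1 b0')

end Pool.Agent.H74.MD
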