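import Pool.Agent.H74.MD.NoThree

namespace Pool.Agent.H74.MD

/-- equality of two three-element multisets, spelled out -/
theorem perm3 {a b c a' b' c' : ℤ} (H : (a ::ₘ b ::ₘ {c} : Multiset ℤ) = a' ::ₘ b' ::ₘ {c'}) :
    (a = a' ∧ b = b' ∧ c = c') ∨ (a = a' ∧ b = c' ∧ c = b') ∨ (a = b' ∧ b = a' ∧ c = c') ∨
    (a = b' ∧ b = c' ∧ c = a') ∨ (a = c' ∧ b = a' ∧ c = b') ∨ (a = c' ∧ b = b' ∧ c = a') := by
  have pair : ∀ {p q p' q' : ℤ}, (p ::ₘ {q} : Multiset ℤ) = p' ::ₘ {q'} →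
      (p = p' ∧ q = q') ∨ (p = q' ∧ q = p') := by
    intro p q p' q' h
    rw [Multiset.cons_eq_cons] at h
    rcases h with ⟨h1, h2⟩ | ⟨_, cs, h2, h3⟩
    · left
      exact ⟨h1, by simpa using h2⟩
    · right
      have h4 : cs = 0 := by
        have := congrArg Multiset.card h2
        simp at this
        exact this
      subst h4
      simp at h2 h3
      exact ⟨h3.symm, h2⟩
  have ha : a ∈ (a' ::ₘ b' ::ₘ {c'} : Multiset ℤ) := by rw [← H]; simp
  simp only [Multiset.mem_cons, Multiset.mem_singleton] at ha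
  rcases ha with ha | ha | ha
  · subst ha
    rw [Multiset.cons_inj_right] at H
    rcases pair H with h | h
    · left; exact ⟨rfl, h.1, h.2⟩
    · right; left; exact ⟨rfl, h.1, h.2⟩
  · subst ha
    rw [Multiset.cons_swap a' a, Multiset.cons_inj_right] at H
    rcases pair H with h | h
    · right; right; left; exact ⟨rfl, h.1, h.2⟩
    · right; right; right; left; exact ⟨rfl, h.1, h.2⟩
  · subst ha
    have e : (a' ::ₘ b' ::ₘ {a} : Multiset ℤ) = a ::ₘ a' ::ₘ {b'} := by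
      have e1 : (b' ::ₘ {a} : Multiset ℤ) = a ::ₘ {b'} := Multiset.cons_swap _ _ 0
      rw [e1]; exact Multiset.cons_swap _ _ _
    rw [e, Multiset.cons_inj_right] at H
    rcases pair H with h | h
    · right; right; right; right; left; exact ⟨rfl, h.1, h.2⟩
    · right; right; right; right; right; exact ⟨rfl, h.1, h.2⟩

def P3 (a b c a' b' c' : ℤ) : Prop :=
    (a = a' ∧ b = b' ∧ c = c') ∨ (a = a' ∧ b = c' ∧ c = b') ∨ (a = b' ∧ b = a' ∧ c = c') ∨
    (a = b' ∧ b = c' ∧ c = a') ∨ (a = c' ∧ b = a' ∧ c = b') ∨ (a = c' ∧ b = b' ∧ c = a')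

/-- reduction of the resolving property of three landmarks in row `0`. -/
theorem row0_res {n h a1 a2 : ℤ} (hn : 0 < n)
    (H : ∀ x x' s : ℤ, 0 ≤ x → x < n → 0 ≤ x' → x' < n → 0 ≤ s → s ≤ h →
      P3 (cyc n x) (cyc n (x - a1)) (cyc n (x - a2))
        (cyc n x' + s) (cyc n (x' - a1) + s) (cyc n (x' - a2) + s) → x = x' ∧ s = 0) :
    ¬ Cf3 n h 0 0 a1 0 a2 0 := by
  rintro ⟨x, y, x', y', h1, h2, h3, h4, h5, h6⟩
  obtain ⟨z, z1, z2, z3⟩ := exists_red hn x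
  obtain ⟨z', z1', z2', z3'⟩ := exists_red hn x'
  have ec : ∀ a : ℤ, cyc n (x - a) = cyc n (z - a) := fun a => cyc_congr (by
    have e : x - a - (z - a) = x - z := by ring
    rw [e]; exact z3)
  have ec' : ∀ a : ℤ, cyc n (x' - a) = cyc n (z' - a) := fun a => cyc_congr (by
    have e : x' - a - (z' - a) = x' - z' := by ring
    rw [e]; exact z3')
  have ey : ((y - 0).natAbs : ℤ) = y := by omega
  have ey' : ((y' - 0).natAbs : ℤ) = y' := by omega
  simp only [code, ds, Multiset.insert_eq_cons, Multiset.map_cons, Multiset.map_singleton, ec,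
    ec', ey, ey'] at h6
  have h7 := perm3 h6
  have h8 := perm3 h6.symm
  simp only [sub_zero] at h7 h8
  have fin : z = z' ∧ y = y' := by
    rcases le_total y y' with hy | hy
    · have := H z z' (y' - y) z1 z2 z1' z2' (by omega) (by omega) (by
        unfold P3
        rcases h7 with ⟨p, q, r⟩ | ⟨p, q, r⟩ | ⟨p, q, r⟩ | ⟨p, q, r⟩ | ⟨p, q, r⟩ | ⟨p, q, r⟩
        · exact Or.inl ⟨by omega, by omega, by omega⟩
        · exact Or.inr (Or.inl ⟨by omega, by omega, by omega⟩)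
        · exact Or.inr (Or.inr (Or.inl ⟨by omega, by omega, by omega⟩))
        · exact Or.inr (Or.inr (Or.inr (Or.inl ⟨by omega, by omega, by omega⟩)))
        · exact Or.inr (Or.inr (Or.inr (Or.inr (Or.inl ⟨by omega, by omega, by omega⟩))))
        · exact Or.inr (Or.inr (Or.inr (Or.inr (Or.inr ⟨by omega, by omega, by omega⟩)))))
      exact ⟨this.1, by omega⟩
    · have := H z' z (y - y') z1' z2' z1 z2 (by omega) (by omega) (by
        unfold P3
        rcases h8 with ⟨p, q, r⟩ | ⟨p, q, r⟩ | ⟨p, q, r⟩ | ⟨p, q, r⟩ | ⟨p, q, r⟩ | ⟨p, q, r⟩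
        · exact Or.inl ⟨by omega, by omega, by omega⟩
        · exact Or.inr (Or.inl ⟨by omega, by omega, by omega⟩)
        · exact Or.inr (Or.inr (Or.inl ⟨by omega, by omega, by omega⟩))
        · exact Or.inr (Or.inr (Or.inr (Or.inl ⟨by omega, by omega, by omega⟩)))
        · exact Or.inr (Or.inr (Or.inr (Or.inr (Or.inl ⟨by omega, by omega, by omega⟩))))
        · exact Or.inr (Or.inr (Or.inr (Or.inr (Or.inr ⟨by omega, by omega, by omega⟩)))))
      exact ⟨this.1.symm, by omega⟩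
  apply h5 fin.2
  have e : x - x' = (x - z) - (x' - z') := by rw [fin.1]; ring
  rw [e]
  exact dvd_sub z3 z3'

theorem cyc_p {n u v : ℤ} (h0 : 0 ≤ u) (h1 : 2 * u ≤ n) (hn : 0 < n) (e : v = u) :
    cyc n u = v := by
  rw [e]; exact cyc_of_dvd_sub h0 h1 hn ⟨0, by ring⟩

theorem cyc_m {n u v : ℤ} (h0 : u ≤ 0) (h1 : -n ≤ 2 * u) (hn : 0 < n) (e : v = -u) :
    cyc n u = v := by
  rw [e]; exact cyc_of_dvd_add (by omega) (by omega) hn ⟨0, by ring⟩

theorem cyc_w {n u v : ℤ} (h0 : n ≤ 2 * u) (h1 : u ≤ n) (hn : 0 < n) (e : v = n - u) :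
    cyc n u = v := by
  rw [e]; exact cyc_of_dvd_add (by omega) (by omega) hn ⟨1, by ring⟩

theorem cyc_v {n u v : ℤ} (h0 : 2 * u ≤ -n) (h1 : -n ≤ u) (hn : 0 < n) (e : v = n + u) :
    cyc n u = v := by
  rw [e]; exact cyc_of_dvd_sub (by omega) (by omega) hn ⟨-1, by ring⟩

/-- the six arcs -/
theorem arcs3 {n α β γ x : ℤ} (h1 : 1 ≤ α) (h2 : 1 ≤ β) (hn : α + β + γ = n) (h3 : 2 * α ≤ n)
    (h4 : 2 * β ≤ n) (h5 : 2 * γ ≤ n + 1) (h6 : 1 ≤ γ) (hx : 0 ≤ x) (hx' : x < n) :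
    (2 * x ≤ 2 * (α + β) - n ∧ cyc n x = x ∧ cyc n (x - α) = α - x ∧
      cyc n (x - (α + β)) = n - (α + β) + x) ∨
    (2 * (α + β) - n ≤ 2 * x ∧ x ≤ α ∧ cyc n x = x ∧ cyc n (x - α) = α - x ∧
      cyc n (x - (α + β)) = α + β - x) ∨
    (α ≤ x ∧ 2 * x ≤ n ∧ cyc n x = x ∧ cyc n (x - α) = x - α ∧
      cyc n (x - (α + β)) = α + β - x) ∨
    (n ≤ 2 * x ∧ x ≤ α + β ∧ cyc n x = n - x ∧ cyc n (x - α) = x - α ∧
      cyc n (x - (α + β)) = α + β - x) ∨
    (α + β ≤ x ∧ 2 * x ≤ 2 * α + n ∧ cyc n x = n - x ∧ cyc n (x - α) = x - α ∧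
      cyc n (x - (α + β)) = x - (α + β)) ∨
    (2 * α + n ≤ 2 * x ∧ cyc n x = n - x ∧ cyc n (x - α) = n - x + α ∧
      cyc n (x - (α + β)) = x - (α + β)) := by
  have hn0 : 0 < n := by omega
  by_cases k1 : 2 * x ≤ 2 * (α + β) - n
  · left
    exact ⟨k1, cyc_p (by omega) (by omega) hn0 (by omega), cyc_m (by omega) (by omega) hn0 (by omega),
      cyc_v (by omega) (by omega) hn0 (by omega)⟩
  right
  by_cases k2 : x ≤ α
  · left
    exact ⟨by omega, k2, cyc_p (by omega) (by omega) hn0 (by omega),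
      cyc_m (by omega) (by omega) hn0 (by omega), cyc_m (by omega) (by omega) hn0 (by omega)⟩
  right
  by_cases k3 : 2 * x ≤ n
  · left
    exact ⟨by omega, k3, cyc_p (by omega) (by omega) hn0 (by omega),
      cyc_p (by omega) (by omega) hn0 (by omega), cyc_m (by omega) (by omega) hn0 (by omega)⟩
  right
  by_cases k4 : x ≤ α + β
  · left
    exact ⟨by omega, k4, cyc_w (by omega) (by omega) hn0 (by omega),
      cyc_p (by omega) (by omega) hn0 (by omega), cyc_m (by omega) (by omega) hn0 (by omega)⟩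
  right
  by_cases k5 : 2 * x ≤ 2 * α + n
  · left
    exact ⟨by omega, k5, cyc_w (by omega) (by omega) hn0 (by omega),
      cyc_p (by omega) (by omega) hn0 (by omega), cyc_p (by omega) (by omega) hn0 (by omega)⟩
  right
  exact ⟨by omega, cyc_w (by omega) (by omega) hn0 (by omega),
      cyc_w (by omega) (by omega) hn0 (by omega), cyc_p (by omega) (by omega) hn0 (by omega)⟩

/-- `∃` three landmarks that resolve the cylinder -/
def Ex3 (n h : ℤ) : Prop :=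
  ∃ a0 r0 a1 r1 a2 r2 : ℤ, (0 ≤ a0 ∧ a0 < n ∧ 0 ≤ r0 ∧ r0 ≤ h) ∧ (0 ≤ a1 ∧ a1 < n ∧ 0 ≤ r1 ∧ r1 ≤ h) ∧
    (0 ≤ a2 ∧ a2 < n ∧ 0 ≤ r2 ∧ r2 ≤ h) ∧ ((a0, r0) ≠ (a1, r1) ∧ (a0, r0) ≠ (a2, r2) ∧
    (a1, r1) ≠ (a2, r2)) ∧ ¬ Cf3 n h a0 r0 a1 r1 a2 r2

theorem Ex3_row0 {n h α β : ℤ} (h0 : 0 ≤ h) (h1 : 1 ≤ α) (h2 : 1 ≤ β) (h3 : α + β < n)
    (H : ¬ Cf3 n h 0 0 α 0 (α + β) 0) : Ex3 n h := by
  refine ⟨0, 0, α, 0, α + β, 0, ⟨by omega, by omega, by omega, by omega⟩,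
    ⟨by omega, by omega, by omega, by omega⟩, ⟨by omega, by omega, by omega, by omega⟩,
    ⟨?_, ?_, ?_⟩, H⟩
  · intro h; rw [Prod.mk.injEq] at h; omega
  · intro h; rw [Prod.mk.injEq] at h; omega
  · intro h; rw [Prod.mk.injEq] at h; omega

end Pool.Agent.H74.MD
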