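import Pool.Agent.H74.MD.Row0Res

namespace Pool.Agent.H74.MD

theorem res15 {n h k : ℤ} (hk : 0 ≤ k) (hn : n = 12 * k + 15) (h0 : 0 ≤ h) (hh : h + 1 ≤ 2 * k + 2) :
    Ex3 n h := by
  refine Ex3_row0 (α := 2 * k + 4) (β := 4 * k + 3) h0 (by omega) (by omega) (by omega)
    (row0_res (by omega) ?_)
  intro x x' s hx1 hx2 hx1' hx2' hs1 hs2 hP
  have A := arcs3 (n := n) (α := 2 * k + 4) (β := 4 * k + 3) (γ := 6 * k + 8) (x := x)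
    (by omega) (by omega) (by omega) (by omega) (by omega) (by omega) (by omega) hx1 hx2
  have A' := arcs3 (n := n) (α := 2 * k + 4) (β := 4 * k + 3) (γ := 6 * k + 8) (x := x')
    (by omega) (by omega) (by omega) (by omega) (by omega) (by omega) (by omega) hx1' hx2'
  have hs3 : s + 1 ≤ 2 * k + 2 := by omega
  clear hh hs2 h0
  generalize cyc n x = c0 at A hP
  generalize cyc n (x - (2 * k + 4)) = c1 at A hP
  generalize cyc n (x - (2 * k + 4 + (4 * k + 3))) = c2 at A hP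
  generalize cyc n x' = c0' at A' hP
  generalize cyc n (x' - (2 * k + 4)) = c1' at A' hP
  generalize cyc n (x' - (2 * k + 4 + (4 * k + 3))) = c2' at A' hP
  subst hn
  unfold P3 at hP
  rcases A with ⟨A, rfl, rfl, rfl⟩ | ⟨A, B, rfl, rfl, rfl⟩ | ⟨A, B, rfl, rfl, rfl⟩ |
    ⟨A, B, rfl, rfl, rfl⟩ | ⟨A, B, rfl, rfl, rfl⟩ | ⟨A, rfl, rfl, rfl⟩ <;>
  rcases A' with ⟨A', rfl, rfl, rfl⟩ | ⟨A', B', rfl, rfl, rfl⟩ | ⟨A', B', rfl, rfl, rfl⟩ |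
    ⟨A', B', rfl, rfl, rfl⟩ | ⟨A', B', rfl, rfl, rfl⟩ | ⟨A', rfl, rfl, rfl⟩ <;>
    rcases hP with ⟨P, Q, R⟩ | ⟨P, Q, R⟩ | ⟨P, Q, R⟩ | ⟨P, Q, R⟩ | ⟨P, Q, R⟩ | ⟨P, Q, R⟩ <;>
    omega

theorem res16 {n h k : ℤ} (hk : 0 ≤ k) (hn : n = 12 * k + 16) (h0 : 0 ≤ h) (hh : h + 1 ≤ 2 * k + 2) :
    Ex3 n h := by
  refine Ex3_row0 (α := 2 * k + 3) (β := 4 * k + 6) h0 (by omega) (by omega) (by omega)
    (row0_res (by omega) ?_)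
  intro x x' s hx1 hx2 hx1' hx2' hs1 hs2 hP
  have A := arcs3 (n := n) (α := 2 * k + 3) (β := 4 * k + 6) (γ := 6 * k + 7) (x := x)
    (by omega) (by omega) (by omega) (by omega) (by omega) (by omega) (by omega) hx1 hx2
  have A' := arcs3 (n := n) (α := 2 * k + 3) (β := 4 * k + 6) (γ := 6 * k + 7) (x := x')
    (by omega) (by omega) (by omega) (by omega) (by omega) (by omega) (by omega) hx1' hx2'
  have hs3 : s + 1 ≤ 2 * k + 2 := by omega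
  clear hh hs2 h0
  generalize cyc n x = c0 at A hP
  generalize cyc n (x - (2 * k + 3)) = c1 at A hP
  generalize cyc n (x - (2 * k + 3 + (4 * k + 6))) = c2 at A hP
  generalize cyc n x' = c0' at A' hP
  generalize cyc n (x' - (2 * k + 3)) = c1' at A' hP
  generalize cyc n (x' - (2 * k + 3 + (4 * k + 6))) = c2' at A' hP
  subst hn
  unfold P3 at hP
  rcases A with ⟨A, rfl, rfl, rfl⟩ | ⟨A, B, rfl, rfl, rfl⟩ | ⟨A, B, rfl, rfl, rfl⟩ |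
    ⟨A, B, rfl, rfl, rfl⟩ | ⟨A, B, rfl, rfl, rfl⟩ | ⟨A, rfl, rfl, rfl⟩ <;>
  rcases A' with ⟨A', rfl, rfl, rfl⟩ | ⟨A', B', rfl, rfl, rfl⟩ | ⟨A', B', rfl, rfl, rfl⟩ |
    ⟨A', B', rfl, rfl, rfl⟩ | ⟨A', B', rfl, rfl, rfl⟩ | ⟨A', rfl, rfl, rfl⟩ <;>
    rcases hP with ⟨P, Q, R⟩ | ⟨P, Q, R⟩ | ⟨P, Q, R⟩ | ⟨P, Q, R⟩ | ⟨P, Q, R⟩ | ⟨P, Q, R⟩ <;>
    omega

theorem res17 {n h k : ℤ} (hk : 0 ≤ k) (hn : n = 12 * k + 17) (h0 : 0 ≤ h) (hh : h + 1 ≤ 2 * k + 2) :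
    Ex3 n h := by
  refine Ex3_row0 (α := 2 * k + 4) (β := 4 * k + 5) h0 (by omega) (by omega) (by omega)
    (row0_res (by omega) ?_)
  intro x x' s hx1 hx2 hx1' hx2' hs1 hs2 hP
  have A := arcs3 (n := n) (α := 2 * k + 4) (β := 4 * k + 5) (γ := 6 * k + 8) (x := x)
    (by omega) (by omega) (by omega) (by omega) (by omega) (by omega) (by omega) hx1 hx2
  have A' := arcs3 (n := n) (α := 2 * k + 4) (β := 4 * k + 5) (γ := 6 * k + 8) (x := x')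
    (by omega) (by omega) (by omega) (by omega) (by omega) (by omega) (by omega) hx1' hx2'
  have hs3 : s + 1 ≤ 2 * k + 2 := by omega
  clear hh hs2 h0
  generalize cyc n x = c0 at A hP
  generalize cyc n (x - (2 * k + 4)) = c1 at A hP
  generalize cyc n (x - (2 * k + 4 + (4 * k + 5))) = c2 at A hP
  generalize cyc n x' = c0' at A' hP
  generalize cyc n (x' - (2 * k + 4)) = c1' at A' hP
  generalize cyc n (x' - (2 * k + 4 + (4 * k + 5))) = c2' at A' hP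
  subst hn
  unfold P3 at hP
  rcases A with ⟨A, rfl, rfl, rfl⟩ | ⟨A, B, rfl, rfl, rfl⟩ | ⟨A, B, rfl, rfl, rfl⟩ |
    ⟨A, B, rfl, rfl, rfl⟩ | ⟨A, B, rfl, rfl, rfl⟩ | ⟨A, rfl, rfl, rfl⟩ <;>
  rcases A' with ⟨A', rfl, rfl, rfl⟩ | ⟨A', B', rfl, rfl, rfl⟩ | ⟨A', B', rfl, rfl, rfl⟩ |
    ⟨A', B', rfl, rfl, rfl⟩ | ⟨A', B', rfl, rfl, rfl⟩ | ⟨A', rfl, rfl, rfl⟩ <;>
    rcases hP with ⟨P, Q, R⟩ | ⟨P, Q, R⟩ | ⟨P, Q, R⟩ | ⟨P, Q, R⟩ | ⟨P, Q, R⟩ | ⟨P, Q, R⟩ <;>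
    omega

end Pool.Agent.H74.MD
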