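import Pool.Agent.H74.MD.Conf

namespace Pool.Agent.H74.MD

/-- (E1), (O1) -/
theorem tE1 {n h α β γ s : ℤ} (h1 : 1 ≤ α) (h2 : α ≤ β) (h3 : β ≤ γ) (hn : α + β + γ = n)
    (hγ : 2 * γ ≤ n + 1) (hs : γ - β = 2 * s) (hsh : s ≤ h) : Cf3 n h 0 0 α 0 (α + β) 0 := by
  refine Cf3_mk_01 α s (-s) 0 (by omega) (by unfold Ne4; omega) ?_ ?_ ?_
  · exact Dq_of (by omega) (by omega) (by omega) (by omega) (by omega)
      (fun k0 k1 hk0 hk1 => by omega)
  · exact Dq_of (by omega) (by omega) (by omega) (by omega) (by omega)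
      (fun k0 k1 hk0 hk1 => by omega)
  · exact Dq_of (by omega) (by omega) (by omega) (by omega) (by omega)
      (fun k0 k1 hk0 hk1 => by omega)

/-- (E2) -/
theorem tE2 {n h α β γ s t u : ℤ} (h1 : 1 ≤ α) (h2 : α ≤ β) (h3 : β ≤ γ) (hn : α + β + γ = n)
    (hγ : 2 * γ ≤ n) (ht : γ = 2 * t) (hu : α + β = 2 * u) (hd : 2 * α ≤ γ)
    (hs : s = u - t) (hsh : s ≤ h) : Cf3 n h 0 0 α 0 (α + β) 0 := by
  refine Cf3_mk_02 (α - t) s (α + u) 0 (by omega) (by unfold Ne4; omega) ?_ ?_ ?_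
  · exact Dq_of (by omega) (by omega) (by omega) (by omega) (by omega)
      (fun k0 k1 hk0 hk1 => by omega)
  · exact Dq_of (by omega) (by omega) (by omega) (by omega) (by omega)
      (fun k0 k1 hk0 hk1 => by omega)
  · exact Dq_of (by omega) (by omega) (by omega) (by omega) (by omega)
      (fun k0 k1 hk0 hk1 => by omega)

/-- (E3) -/
theorem tE3 {n h α β γ s t : ℤ} (h1 : 1 ≤ α) (h2 : α ≤ β) (h3 : β ≤ γ) (hn : α + β + γ = n)
    (hγ : 2 * γ ≤ n) (ht : β = 2 * t) (hs : γ - α = 2 * s) (hd : β ≤ 2 * α)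
    (hsh : s ≤ h) : Cf3 n h 0 0 α 0 (α + β) 0 := by
  refine Cf3_mk_12 t s (- t - s) 0 (by omega) (by unfold Ne4; omega) ?_ ?_ ?_
  · exact Dq_of (by omega) (by omega) (by omega) (by omega) (by omega)
      (fun k0 k1 hk0 hk1 => by omega)
  · exact Dq_of (by omega) (by omega) (by omega) (by omega) (by omega)
      (fun k0 k1 hk0 hk1 => by omega)
  · exact Dq_of (by omega) (by omega) (by omega) (by omega) (by omega)
      (fun k0 k1 hk0 hk1 => by omega)

/-- (E4) -/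
theorem tE4 {n h α β γ s t u : ℤ} (h1 : 1 ≤ α) (h2 : α ≤ β) (h3 : β ≤ γ) (hn : α + β + γ = n)
    (hγ : 2 * γ ≤ n) (ht : β = 2 * t) (hu : α + γ = 2 * u) (hd : 2 * α ≤ β)
    (hs : s = u - t) (hsh : s ≤ h) : Cf3 n h 0 0 α 0 (α + β) 0 := by
  refine Cf3_mk_12 t s (-u) 0 (by omega) (by unfold Ne4; omega) ?_ ?_ ?_
  · exact Dq_of (by omega) (by omega) (by omega) (by omega) (by omega)
      (fun k0 k1 hk0 hk1 => by omega)
  · exact Dq_of (by omega) (by omega) (by omega) (by omega) (by omega)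
      (fun k0 k1 hk0 hk1 => by omega)
  · exact Dq_of (by omega) (by omega) (by omega) (by omega) (by omega)
      (fun k0 k1 hk0 hk1 => by omega)

/-- (E5) -/
theorem tE5 {n h α β γ s t : ℤ} (h1 : 1 ≤ α) (h2 : α ≤ β) (h3 : β ≤ γ) (hn : α + β + γ = n)
    (hγ : 2 * γ ≤ n) (ht : γ = 2 * t) (hs : β - α = 2 * s) (hd : γ ≤ 2 * α)
    (hsh : s ≤ h) : Cf3 n h 0 0 α 0 (α + β) 0 := by
  refine Cf3_mk_02 (α - t) s (α + s + t) 0 (by omega) (by unfold Ne4; omega) ?_ ?_ ?_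
  · exact Dq_of (by omega) (by omega) (by omega) (by omega) (by omega)
      (fun k0 k1 hk0 hk1 => by omega)
  · exact Dq_of (by omega) (by omega) (by omega) (by omega) (by omega)
      (fun k0 k1 hk0 hk1 => by omega)
  · exact Dq_of (by omega) (by omega) (by omega) (by omega) (by omega)
      (fun k0 k1 hk0 hk1 => by omega)

/-- (O2) -/
theorem tO2 {n h α β γ s a b : ℤ} (h1 : 1 ≤ α) (h2 : α ≤ β) (h3 : β ≤ γ) (hn : α + β + γ = n)
    (hγ : 2 * γ ≤ n + 1) (ha : α = 2 * a) (hb : β = 2 * b) (hc : γ % 2 = 1) (hd : β ≤ 2 * α)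
    (hs : s = b - a) (hsh : s ≤ h) : Cf3 n h 0 0 α 0 (α + β) 0 := by
  refine Cf3_mk_c b s (β + a) 0 (by omega) (by unfold Ne4; omega) ?_ ?_ ?_
  · exact Dq_of (by omega) (by omega) (by omega) (by omega) (by omega)
      (fun k0 k1 hk0 hk1 => by omega)
  · exact Dq_of (by omega) (by omega) (by omega) (by omega) (by omega)
      (fun k0 k1 hk0 hk1 => by omega)
  · exact Dq_of (by omega) (by omega) (by omega) (by omega) (by omega)
      (fun k0 k1 hk0 hk1 => by omega)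

/-- (O3) -/
theorem tO3 {n h α β γ s : ℤ} (h1 : 1 ≤ α) (h2 : α ≤ β) (h3 : β ≤ γ) (hn : α + β + γ = n)
    (hγ : 2 * γ ≤ n + 1) (hodd : n % 2 = 1) (hs : γ - α = 2 * s) (hd : β + 1 ≤ 2 * α)
    (hsh : s ≤ h) : Cf3 n h 0 0 α 0 (α + β) 0 := by
  refine Cf3_mk_12 α s (-(s + α)) 0 (by omega) (by unfold Ne4; omega) ?_ ?_ ?_
  · exact Dq_of (by omega) (by omega) (by omega) (by omega) (by omega)
      (fun k0 k1 hk0 hk1 => by omega)
  · exact Dq_of (by omega) (by omega) (by omega) (by omega) (by omega)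
      (fun k0 k1 hk0 hk1 => by omega)
  · exact Dq_of (by omega) (by omega) (by omega) (by omega) (by omega)
      (fun k0 k1 hk0 hk1 => by omega)

/-- (O4) -/
theorem tO4 {n h α β γ s t : ℤ} (h1 : 1 ≤ α) (h2 : α ≤ β) (h3 : β ≤ γ) (hn : α + β + γ = n)
    (hγ : 2 * γ ≤ n + 1) (hs : α = 2 * s) (ht : γ = 2 * t) (hb : β % 2 = 1) (hd : 2 * α + 1 ≤ β)
    (hsh : s ≤ h) : Cf3 n h 0 0 α 0 (α + β) 0 := by
  refine Cf3_swap12 (Cf3_mk_c (α - t) s (-(s + t)) 0 (by omega) (by unfold Ne4; omega) ?_ ?_ ?_)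
  · exact Dq_of (by omega) (by omega) (by omega) (by omega) (by omega)
      (fun k0 k1 hk0 hk1 => by omega)
  · exact Dq_of (by omega) (by omega) (by omega) (by omega) (by omega)
      (fun k0 k1 hk0 hk1 => by omega)
  · exact Dq_of (by omega) (by omega) (by omega) (by omega) (by omega)
      (fun k0 k1 hk0 hk1 => by omega)

/-- (O5) -/
theorem tO5 {n h α β γ s b : ℤ} (h1 : 1 ≤ α) (h2 : α ≤ β) (h3 : β ≤ γ) (hn : α + β + γ = n)
    (hγ : 2 * γ ≤ n + 1) (hs : α = 2 * s) (hb : β = 2 * b) (hc : γ % 2 = 1) (hd : 2 * α ≤ β)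
    (hsh : s ≤ h) : Cf3 n h 0 0 α 0 (α + β) 0 := by
  refine Cf3_mk_c b s (α + s + b) 0 (by omega) (by unfold Ne4; omega) ?_ ?_ ?_
  · exact Dq_of (by omega) (by omega) (by omega) (by omega) (by omega)
      (fun k0 k1 hk0 hk1 => by omega)
  · exact Dq_of (by omega) (by omega) (by omega) (by omega) (by omega)
      (fun k0 k1 hk0 hk1 => by omega)
  · exact Dq_of (by omega) (by omega) (by omega) (by omega) (by omega)
      (fun k0 k1 hk0 hk1 => by omega)

/-- the parameters for which there is no resolving 3-set (`h = m - 1 ≥ 1`) -/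
def Fail (n h : ℤ) : Prop :=
  (h % 2 = 0 ∧ (n ≤ 6 * h + 5 ∨ n = 6 * h + 8)) ∨ (h % 2 = 1 ∧ (n ≤ 6 * h + 4 ∨ n = 6 * h + 7))

theorem tArc {n h α β γ : ℤ} (h1 : 1 ≤ α) (h2 : α ≤ β) (h3 : β ≤ γ) (hn : α + β + γ = n)
    (hγ : n + 1 < 2 * γ) (hh : 1 ≤ h) : Cf3 n h 0 0 α 0 (α + β) 0 := by
  refine Cf3_mk_id (α + β + 1) 0 (α + β) 1 (by omega) (by unfold Ne4; omega) ?_ ?_ ?_
  · exact Dq_of (by omega) (by omega) (by omega) (by omega) (by omega)
      (fun k0 k1 hk0 hk1 => by omega)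
  · exact Dq_of (by omega) (by omega) (by omega) (by omega) (by omega)
      (fun k0 k1 hk0 hk1 => by omega)
  · exact Dq_of (by omega) (by omega) (by omega) (by omega) (by omega)
      (fun k0 k1 hk0 hk1 => by omega)

/-- (O6), used only for `(3,3,7)` -/
theorem tO6 {h : ℤ} (hh : 0 ≤ h) : Cf3 13 h 0 0 3 0 (3 + 3) 0 := by
  refine Cf3_mk_c (-5) 0 (-2) 0 (by omega) (by unfold Ne4; omega) ?_ ?_ ?_
  · exact Dq_of (by omega) (by omega) (by omega) (by omega) (by omega)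
      (fun k0 k1 hk0 hk1 => by omega)
  · exact Dq_of (by omega) (by omega) (by omega) (by omega) (by omega)
      (fun k0 k1 hk0 hk1 => by omega)
  · exact Dq_of (by omega) (by omega) (by omega) (by omega) (by omega)
      (fun k0 k1 hk0 hk1 => by omega)

theorem row_zero_even {n h α β γ N : ℤ} (h1 : 1 ≤ α) (h2 : α ≤ β) (h3 : β ≤ γ)
    (hn : α + β + γ = n) (hγ : 2 * γ ≤ n + 1) (hh : 1 ≤ h) (hf : Fail n h) (hN : n = 2 * N) :
    Cf3 n h 0 0 α 0 (α + β) 0 := by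
  unfold Fail at hf
  obtain ⟨a, ha⟩ : ∃ a, α = 2 * a ∨ α = 2 * a + 1 := ⟨α / 2, by omega⟩
  obtain ⟨b, hb⟩ : ∃ b, β = 2 * b ∨ β = 2 * b + 1 := ⟨β / 2, by omega⟩
  obtain ⟨c, hc⟩ : ∃ c, γ = 2 * c ∨ γ = 2 * c + 1 := ⟨γ / 2, by omega⟩
  by_cases hbc : (γ - β) % 2 = 0
  · by_cases hs : (γ - β) / 2 ≤ h
    · exact tE1 h1 h2 h3 hn hγ (s := (γ - β) / 2) (by omega) hs
    · rcases hb with hb | hb
      · -- everything even
        by_cases hd : β ≤ 2 * α
        · by_cases hs2 : (γ - α) / 2 ≤ h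
          · exact tE3 h1 h2 h3 hn (by omega) hb (s := (γ - α) / 2) (by omega) hd hs2
          · by_cases hd2 : 2 * α ≤ γ
            · by_cases hs3 : (α + β) / 2 - c ≤ h
              · exact tE2 h1 h2 h3 hn (by omega) (t := c) (by omega) (u := (α + β) / 2) (by omega)
                  hd2 rfl hs3
              · omega
            · omega
        · by_cases hs3 : (α + γ) / 2 - b ≤ h
          · exact tE4 h1 h2 h3 hn (by omega) hb (u := (α + γ) / 2) (by omega) (by omega) rfl hs3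
          · omega
      · omega
  · rcases hb with hb | hb
    · -- α, γ odd
      by_cases hd : β ≤ 2 * α
      · by_cases hs2 : (γ - α) / 2 ≤ h
        · exact tE3 h1 h2 h3 hn (by omega) hb (s := (γ - α) / 2) (by omega) hd hs2
        · by_cases hd2 : 2 * α ≤ β
          · by_cases hs3 : (α + γ) / 2 - b ≤ h
            · exact tE4 h1 h2 h3 hn (by omega) hb (u := (α + γ) / 2) (by omega) hd2 rfl hs3
            · omega
          · omega
      · by_cases hs3 : (α + γ) / 2 - b ≤ h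
        · exact tE4 h1 h2 h3 hn (by omega) hb (u := (α + γ) / 2) (by omega) (by omega) rfl hs3
        · omega
    · -- α, β odd, γ even
      by_cases hd2 : 2 * α ≤ γ
      · by_cases hs3 : (α + β) / 2 - c ≤ h
        · exact tE2 h1 h2 h3 hn (by omega) (t := c) (by omega) (u := (α + β) / 2) (by omega)
            hd2 rfl hs3
        · by_cases hd3 : γ ≤ 2 * α
          · by_cases hs4 : (β - α) / 2 ≤ h
            · exact tE5 h1 h2 h3 hn (by omega) (t := c) (by omega) (s := (β - α) / 2) (by omega)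
                hd3 hs4
            · omega
          · omega
      · by_cases hs4 : (β - α) / 2 ≤ h
        · exact tE5 h1 h2 h3 hn (by omega) (t := c) (by omega) (s := (β - α) / 2) (by omega)
            (by omega) hs4
        · omega

theorem row_zero_odd {n h α β γ N : ℤ} (h1 : 1 ≤ α) (h2 : α ≤ β) (h3 : β ≤ γ)
    (hn : α + β + γ = n) (hγ : 2 * γ ≤ n + 1) (hh : 1 ≤ h) (hf : Fail n h) (hN : n = 2 * N + 1) :
    Cf3 n h 0 0 α 0 (α + β) 0 := by
  unfold Fail at hf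
  obtain ⟨a, ha⟩ : ∃ a, α = 2 * a ∨ α = 2 * a + 1 := ⟨α / 2, by omega⟩
  obtain ⟨b, hb⟩ : ∃ b, β = 2 * b ∨ β = 2 * b + 1 := ⟨β / 2, by omega⟩
  obtain ⟨c, hc⟩ : ∃ c, γ = 2 * c ∨ γ = 2 * c + 1 := ⟨γ / 2, by omega⟩
  by_cases hbc : (γ - β) % 2 = 0
  · by_cases hs : (γ - β) / 2 ≤ h
    · exact tE1 h1 h2 h3 hn hγ (s := (γ - β) / 2) (by omega) hs
    · rcases hb with hb | hb
      · omega
      · -- all odd
        have e : h = 1 ∧ α = 3 ∧ β = 3 ∧ γ = 7 := by omega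
        obtain ⟨e1, e2, e3, e4⟩ := e
        subst e2 e3 e4
        have hn13 : n = 13 := by omega
        subst hn13
        exact tO6 (by omega)
  · rcases hb with hb | hb
    · -- β even, γ odd, α even
      by_cases hd : β ≤ 2 * α
      · by_cases hs2 : b - a ≤ h
        · exact tO2 h1 h2 h3 hn hγ (a := a) (by omega) hb (by omega) hd rfl hs2
        · omega
      · by_cases hs2 : a ≤ h
        · exact tO5 h1 h2 h3 hn hγ (s := a) (by omega) hb (by omega) (by omega) hs2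
        · omega
    · -- β odd, γ even, α even
      by_cases hd : β + 1 ≤ 2 * α
      · by_cases hs2 : (γ - α) / 2 ≤ h
        · exact tO3 h1 h2 h3 hn hγ (by omega) (s := (γ - α) / 2) (by omega) hd hs2
        · omega
      · by_cases hs2 : a ≤ h
        · exact tO4 h1 h2 h3 hn hγ (s := a) (t := c) (by omega) (by omega) (by omega) (by omega)
            hs2
        · omega

theorem row_zero_sorted {n h α β γ : ℤ} (h1 : 1 ≤ α) (h2 : α ≤ β) (h3 : β ≤ γ)
    (hn : α + β + γ = n) (hh : 1 ≤ h) (hf : Fail n h) :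
    Cf3 n h 0 0 α 0 (α + β) 0 := by
  by_cases hγ : 2 * γ ≤ n + 1
  · obtain ⟨N, hN⟩ : ∃ N, n = 2 * N ∨ n = 2 * N + 1 := ⟨n / 2, by omega⟩
    rcases hN with hN | hN
    · exact row_zero_even h1 h2 h3 hn hγ hh hf hN
    · exact row_zero_odd h1 h2 h3 hn hγ hh hf hN
  · exact tArc h1 h2 h3 hn (by omega) hh

/-- the confusion predicate for three landmarks in row `0` given by the gaps -/
def G3 (n h g1 g2 : ℤ) : Prop := Cf3 n h 0 0 g1 0 (g1 + g2) 0

theorem G3_rot {n h g1 g2 g3 : ℤ} (hn : g1 + g2 + g3 = n) (H : G3 n h g2 g3) : G3 n h g1 g2 := by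
  unfold G3 at *
  -- landmarks g1, g1+g2, n ~ 0
  have H1 : Cf3 n h g1 0 (g1 + g2) 0 n 0 := by
    refine Cf3_trans (-g1) ?_
    have e1 : g1 + -g1 = 0 := by ring
    have e2 : g1 + g2 + -g1 = g2 := by ring
    have e3 : n + -g1 = g2 + g3 := by omega
    rw [e1, e2, e3]
    exact H
  have H2 : Cf3 n h g1 0 (g1 + g2) 0 0 0 := by
    refine Cf3_congr (b0 := g1) (b1 := g1 + g2) (b2 := n) ?_ ?_ ?_ H1
    · simp
    · simp
    · simp
  exact Cf3_swap01 (Cf3_swap12 H2)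

theorem G3_refl {n h g1 g2 : ℤ} (hn : 0 < n) (H : G3 n h g2 g1) : G3 n h g1 g2 := by
  unfold G3 at *
  refine Cf3_refl hn ?_
  refine Cf3_trans (g1 + g2) ?_
  have e1 : -0 + (g1 + g2) = g2 + g1 := by ring
  have e2 : -g1 + (g1 + g2) = g2 := by ring
  have e3 : -(g1 + g2) + (g1 + g2) = 0 := by ring
  rw [e1, e2, e3]
  exact Cf3_swap02 H

theorem row_zero_gaps {n h g1 g2 g3 : ℤ} (h1 : 1 ≤ g1) (h2 : 1 ≤ g2) (h3 : 1 ≤ g3)
    (hn : g1 + g2 + g3 = n) (hh : 1 ≤ h) (hf : Fail n h) : G3 n h g1 g2 := by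
  have hn0 : 0 < n := by omega
  have S : ∀ a b c : ℤ, 1 ≤ a → a ≤ b → b ≤ c → a + b + c = n → G3 n h a b :=
    fun a b c k1 k2 k3 k4 => row_zero_sorted k1 k2 k3 k4 hh hf
  rcases le_total g1 g2 with h12 | h12 <;> rcases le_total g2 g3 with h23 | h23 <;>
    rcases le_total g1 g3 with h13 | h13
  · exact S g1 g2 g3 h1 h12 h23 hn
  · exact S g1 g2 g3 h1 h12 h23 hn
  · -- g1 ≤ g3 ≤ g2
    have := S g1 g3 g2 h1 h13 h23 (by omega)
    -- G(g3,g1) -> rot
    exact G3_rot (g3 := g3) hn (G3_rot (g3 := g1) (by omega) (G3_refl hn0 this))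
  · -- g3 ≤ g1 ≤ g2
    have := S g3 g1 g2 h3 h13 h12 (by omega)
    exact G3_rot (g3 := g3) hn (G3_rot (g3 := g1) (by omega) this)
  · -- g2 ≤ g1, g2 ≤ g3, g1 ≤ g3
    have := S g2 g1 g3 h2 h12 h13 (by omega)
    exact G3_refl hn0 this
  · -- g2 ≤ g3 ≤ g1
    have := S g2 g3 g1 h2 h23 h13 (by omega)
    exact G3_rot (g3 := g3) hn this
  · exact (by
      have := S g3 g2 g1 h3 h23 h12 (by omega)
      exact G3_rot (g3 := g3) hn (G3_refl hn0 this))
  · -- g3 ≤ g2 ≤ g1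
    have := S g3 g2 g1 h3 h23 h12 (by omega)
    exact G3_rot (g3 := g3) hn (G3_refl hn0 this)

theorem row_zero_all {n h a b c : ℤ} (ha : 0 ≤ a) (hab : a < b) (hbc : b < c) (hc : c < n)
    (hh : 1 ≤ h) (hf : Fail n h) : Cf3 n h a 0 b 0 c 0 := by
  refine Cf3_trans (-a) ?_
  have := row_zero_gaps (n := n) (h := h) (g1 := b - a) (g2 := c - b) (g3 := n - (c - a)) (by omega)
    (by omega) (by omega) (by omega) hh hf
  unfold G3 at this
  have e1 : a + -a = 0 := by ring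
  have e2 : b + -a = b - a := by ring
  have e3 : c + -a = (b - a) + (c - b) := by ring
  rw [e1, e2, e3]
  exact this

end Pool.Agent.H74.MD
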