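import Pool.Agent.H74.MD.Row0Res1
import Pool.Agent.H74.MD.Row0Res2
import Pool.Agent.H74.MD.Row0Res3
import Pool.Agent.H74.MD.Row0Res4

namespace Pool.Agent.H74.MD

/-- elimination form of `Cf3` -/
theorem Cf3_elim {n h a0 r0 a1 r1 a2 r2 : ℤ} (hn : 0 < n) (H : Cf3 n h a0 r0 a1 r1 a2 r2) :
    ∃ x y x' y' : ℤ, (0 ≤ x ∧ x < n) ∧ (0 ≤ x' ∧ x' < n) ∧ (0 ≤ y ∧ y ≤ h) ∧ (0 ≤ y' ∧ y' ≤ h) ∧
      ¬ (x = x' ∧ y = y') ∧
      P3 (cyc n (x - a0) + ((y - r0).natAbs : ℤ)) (cyc n (x - a1) + ((y - r1).natAbs : ℤ))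
        (cyc n (x - a2) + ((y - r2).natAbs : ℤ)) (cyc n (x' - a0) + ((y' - r0).natAbs : ℤ))
        (cyc n (x' - a1) + ((y' - r1).natAbs : ℤ)) (cyc n (x' - a2) + ((y' - r2).natAbs : ℤ)) := by
  obtain ⟨x, y, x', y', h1, h2, h3, h4, h5, h6⟩ := H
  obtain ⟨z, z1, z2, z3⟩ := exists_red hn x
  obtain ⟨z', z1', z2', z3'⟩ := exists_red hn x'
  have ec : ∀ a : ℤ, cyc n (x - a) = cyc n (z - a) := fun a => cyc_congr (by
    have e : x - a - (z - a) = x - z := by ring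
    rw [e]; exact z3)
  have ec' : ∀ a : ℤ, cyc n (x' - a) = cyc n (z' - a) := fun a => cyc_congr (by
    have e : x' - a - (z' - a) = x' - z' := by ring
    rw [e]; exact z3')
  simp only [code, ds, Multiset.insert_eq_cons, Multiset.map_cons, Multiset.map_singleton, ec,
    ec'] at h6
  refine ⟨z, y, z', y', ⟨z1, z2⟩, ⟨z1', z2'⟩, ⟨h1, h2⟩, ⟨h3, h4⟩, ?_, perm3 h6⟩
  rintro ⟨e1, e2⟩
  apply h5 e2
  have e : x - x' = (x - z) - (x' - z') := by rw [e1]; ring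
  rw [e]
  exact dvd_sub z3 z3'

theorem arcs_sp {j x : ℤ} (hj : 1 ≤ j) (hx : 0 ≤ x) (hx' : x < 12 * j) :
    (x ≤ 4 * j ∧ cyc (12 * j) (x - 0) = x ∧ cyc (12 * j) (x - 4 * j) = 4 * j - x) ∨
    (4 * j ≤ x ∧ x ≤ 6 * j ∧ cyc (12 * j) (x - 0) = x ∧ cyc (12 * j) (x - 4 * j) = x - 4 * j) ∨
    (6 * j ≤ x ∧ x ≤ 10 * j ∧ cyc (12 * j) (x - 0) = 12 * j - x ∧
      cyc (12 * j) (x - 4 * j) = x - 4 * j) ∨
    (10 * j ≤ x ∧ cyc (12 * j) (x - 0) = 12 * j - x ∧ cyc (12 * j) (x - 4 * j) = 16 * j - x) := by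
  have hn0 : 0 < 12 * j := by omega
  by_cases k1 : x ≤ 4 * j
  · left
    exact ⟨k1, cyc_p (by omega) (by omega) hn0 (by omega), cyc_m (by omega) (by omega) hn0 (by omega)⟩
  right
  by_cases k2 : x ≤ 6 * j
  · left
    exact ⟨by omega, k2, cyc_p (by omega) (by omega) hn0 (by omega),
      cyc_p (by omega) (by omega) hn0 (by omega)⟩
  right
  by_cases k3 : x ≤ 10 * j
  · left
    exact ⟨by omega, k3, cyc_w (by omega) (by omega) hn0 (by omega),
      cyc_p (by omega) (by omega) hn0 (by omega)⟩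
  right
  exact ⟨by omega, cyc_w (by omega) (by omega) hn0 (by omega),
      cyc_w (by omega) (by omega) hn0 (by omega)⟩

theorem res_sp {n h j : ℤ} (hj : 1 ≤ j) (hn : n = 12 * j) (hh : h = 2 * j - 1) : Ex3 n h := by
  subst hn hh
  refine ⟨0, 0, 4 * j, 0, 0, 2 * j - 1, ⟨by omega, by omega, by omega, by omega⟩,
    ⟨by omega, by omega, by omega, by omega⟩, ⟨by omega, by omega, by omega, by omega⟩,
    ⟨?_, ?_, ?_⟩, ?_⟩
  · intro h; rw [Prod.mk.injEq] at h; omega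
  · intro h; rw [Prod.mk.injEq] at h; omega
  · intro h; rw [Prod.mk.injEq] at h; omega
  intro H
  obtain ⟨x, y, x', y', hx, hx', hy, hy', hne, hP⟩ := Cf3_elim (by omega) H
  have A := arcs_sp hj hx.1 hx.2
  have A' := arcs_sp hj hx'.1 hx'.2
  have e1 : ((y - 0).natAbs : ℤ) = y := by omega
  have e2 : ((y - (2 * j - 1)).natAbs : ℤ) = 2 * j - 1 - y := by omega
  have e1' : ((y' - 0).natAbs : ℤ) = y' := by omega
  have e2' : ((y' - (2 * j - 1)).natAbs : ℤ) = 2 * j - 1 - y' := by omega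
  rw [e1, e2, e1', e2'] at hP
  generalize cyc (12 * j) (x - 0) = c0 at A hP
  generalize cyc (12 * j) (x - 4 * j) = c1 at A hP
  generalize cyc (12 * j) (x' - 0) = c0' at A' hP
  generalize cyc (12 * j) (x' - 4 * j) = c1' at A' hP
  clear e1 e2 e1' e2' H
  unfold P3 at hP
  rcases A with A | A | A | A <;> rcases A' with A' | A' | A' | A' <;>
    rcases hP with P | P | P | P | P | P <;> omega

theorem res_8 : Ex3 8 0 := by
  refine Ex3_row0 (α := 1) (β := 2) (by omega) (by omega) (by omega) (by omega)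
    (row0_res (by omega) ?_)
  intro x x' s hx1 hx2 hx1' hx2' hs1 hs2 hP
  have hs : s = 0 := by omega
  subst hs
  refine ⟨?_, rfl⟩
  revert hP
  unfold P3
  interval_cases x <;> interval_cases x' <;> simp [cyc]

/-- existence of a resolving set with three elements -/
theorem ex_three {n h : ℤ} (hn : 6 ≤ n) (h0 : 0 ≤ h) (hf : h = 0 ∨ ¬ Fail n h) : Ex3 n h := by
  by_cases hh : h = 0
  · by_cases h8 : n = 8
    · rw [h8, hh]; exact res_8
    · obtain ⟨k, r, hk, hr1, hr2, hkr⟩ : ∃ k r : ℤ, 0 ≤ k ∧ 6 ≤ r ∧ r ≤ 17 ∧ n = 12 * k + r :=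
        ⟨(n - 6) / 12, n - 12 * ((n - 6) / 12), by omega, by omega, by omega, by omega⟩
      have hrc : r = 6 ∨ r = 7 ∨ r = 8 ∨ r = 9 ∨ r = 10 ∨ r = 11 ∨ r = 12 ∨ r = 13 ∨ r = 14 ∨
        r = 15 ∨ r = 16 ∨ r = 17 := by omega
      rcases hrc with e | e | e | e | e | e | e | e | e | e | e | e <;> rw [e] at hkr
      · exact res6 hk hkr h0 (by omega)
      · exact res7 hk hkr h0 (by omega)
      · exact res8 hk hkr h0 (by omega)
      · exact res9 hk hkr h0 (by omega)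
      · exact res10 hk hkr h0 (by omega)
      · exact res11 hk hkr h0 (by omega)
      · exact res12 hk hkr h0 (by omega)
      · exact res13 hk hkr h0 (by omega)
      · exact res14 hk hkr h0 (by omega)
      · exact res15 hk hkr h0 (by omega)
      · exact res16 hk hkr h0 (by omega)
      · exact res17 hk hkr h0 (by omega)
  · have hf' : ¬ Fail n h := by tauto
    unfold Fail at hf'
    by_cases hsp : n = 6 * (h + 1) ∧ h % 2 = 1
    · exact res_sp (j := (h + 1) / 2) (by omega) (by omega) (by omega)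
    obtain ⟨k, r, hk, hr1, hr2, hkr⟩ : ∃ k r : ℤ, 0 ≤ k ∧ 6 ≤ r ∧ r ≤ 17 ∧ n = 12 * k + r :=
      ⟨(n - 6) / 12, n - 12 * ((n - 6) / 12), by omega, by omega, by omega, by omega⟩
    have hrc : r = 6 ∨ r = 7 ∨ r = 8 ∨ r = 9 ∨ r = 10 ∨ r = 11 ∨ r = 12 ∨ r = 13 ∨ r = 14 ∨
      r = 15 ∨ r = 16 ∨ r = 17 := by omega
    have hf1 : h % 2 = 0 → 6 * h + 6 ≤ n ∧ n ≠ 6 * h + 8 := by omega
    have hf2 : h % 2 = 1 → 6 * h + 5 ≤ n ∧ n ≠ 6 * h + 7 := by omega
    clear hf hf'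
    rcases hrc with e | e | e | e | e | e | e | e | e | e | e | e <;> rw [e] at hkr
    · exact res6 hk hkr h0 (by omega)
    · exact res7 hk hkr h0 (by omega)
    · exact res8 hk hkr h0 (by omega)
    · exact res9 hk hkr h0 (by omega)
    · exact res10 hk hkr h0 (by omega)
    · exact res11 hk hkr h0 (by omega)
    · exact res12 hk hkr h0 (by omega)
    · exact res13 hk hkr h0 (by omega)
    · exact res14 hk hkr h0 (by omega)
    · exact res15 hk hkr h0 (by omega)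
    · exact res16 hk hkr h0 (by omega)
    · exact res17 hk hkr h0 (by omega)

end Pool.Agent.H74.MD
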