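import Pool.Agent.H74.MD.TwoRowB

namespace Pool.Agent.H74.MD

variable {n N h b c r0 r1 r2 : ℤ}

theorem t3_mirror (hN : n = 2 * N ∨ n = 2 * N + 1) (hN2 : 2 ≤ N) (hr0 : 0 ≤ r0) (h01 : r0 < r1)
    (h12 : r1 < r2) (hr2 : r2 ≤ h) (hb : b = 0 ∨ (b = N ∧ n = 2 * N)) :
    Cf3 n h 0 r0 b r1 0 r2 := by
  refine Cf3_mk_id 1 r0 (-1) r0 (by omega) (by unfold Ne4; omega) ?_ ?_ ?_
  · exact Dq_of (by omega) (by omega) (by omega) (by omega) (by omega)
      (fun k0 k1 hk0 hk1 => by omega)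
  · exact Dq_of (by omega) (by omega) (by omega) (by omega) (by omega)
      (fun k0 k1 hk0 hk1 => by omega)
  · exact Dq_of (by omega) (by omega) (by omega) (by omega) (by omega)
      (fun k0 k1 hk0 hk1 => by omega)

theorem t3_0L (hN : n = 2 * N ∨ n = 2 * N + 1) (hN2 : 2 ≤ N) (hr0 : 0 ≤ r0) (h01 : r0 < r1)
    (h12 : r1 < r2) (hr2 : r2 ≤ h) (hc1 : 1 ≤ c) (hc2 : c ≤ N) :
    Cf3 n h 0 r0 0 r1 c r2 := by
  refine Cf3_mk_id c r1 (c - 1) (r1 + 1) (by omega) (by unfold Ne4; omega) ?_ ?_ ?_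
  · exact Dq_of (by omega) (by omega) (by omega) (by omega) (by omega)
      (fun k0 k1 hk0 hk1 => by omega)
  · exact Dq_of (by omega) (by omega) (by omega) (by omega) (by omega)
      (fun k0 k1 hk0 hk1 => by omega)
  · exact Dq_of (by omega) (by omega) (by omega) (by omega) (by omega)
      (fun k0 k1 hk0 hk1 => by omega)

theorem t3_0R (hN : n = 2 * N ∨ n = 2 * N + 1) (hN2 : 2 ≤ N) (hr0 : 0 ≤ r0) (h01 : r0 < r1)
    (h12 : r1 < r2) (hr2 : r2 ≤ h) (hc1 : -N ≤ c) (hc2 : c ≤ -1) :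
    Cf3 n h 0 r0 0 r1 c r2 := by
  refine Cf3_mk_id c r1 (c + 1) (r1 + 1) (by omega) (by unfold Ne4; omega) ?_ ?_ ?_
  · exact Dq_of (by omega) (by omega) (by omega) (by omega) (by omega)
      (fun k0 k1 hk0 hk1 => by omega)
  · exact Dq_of (by omega) (by omega) (by omega) (by omega) (by omega)
      (fun k0 k1 hk0 hk1 => by omega)
  · exact Dq_of (by omega) (by omega) (by omega) (by omega) (by omega)
      (fun k0 k1 hk0 hk1 => by omega)

/-- `1 ≤ c ≤ b ≤ N` -/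
theorem t3_mid (hN : n = 2 * N ∨ n = 2 * N + 1) (hN2 : 2 ≤ N) (hr0 : 0 ≤ r0) (h01 : r0 < r1)
    (h12 : r1 < r2) (hr2 : r2 ≤ h) (hc1 : 1 ≤ c) (hc2 : c ≤ b) (hb : b ≤ N) :
    Cf3 n h 0 r0 b r1 c r2 := by
  refine Cf3_mk_id c r0 (c - 1) (r0 + 1) (by omega) (by unfold Ne4; omega) ?_ ?_ ?_
  · exact Dq_of (by omega) (by omega) (by omega) (by omega) (by omega)
      (fun k0 k1 hk0 hk1 => by omega)
  · exact Dq_of (by omega) (by omega) (by omega) (by omega) (by omega)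
      (fun k0 k1 hk0 hk1 => by omega)
  · exact Dq_of (by omega) (by omega) (by omega) (by omega) (by omega)
      (fun k0 k1 hk0 hk1 => by omega)

theorem t3_right (hN : n = 2 * N ∨ n = 2 * N + 1) (hN2 : 2 ≤ N) (x : ℤ) (h1 : 1 ≤ b)
    (hr0 : 0 ≤ r0) (h01 : r0 < r1) (h12 : r1 < r2) (hr2 : r2 ≤ h)
    (hx1 : b - N ≤ x) (hx2 : x ≤ -1) (hc1 : x - (N - 1) ≤ c) (hc2 : c ≤ x) :
    Cf3 n h 0 r0 b r1 c r2 := by
  refine Cf3_mk_id x r1 (x + 1) (r1 + 1) (by omega) (by unfold Ne4; omega) ?_ ?_ ?_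
  · exact Dq_of (by omega) (by omega) (by omega) (by omega) (by omega)
      (fun k0 k1 hk0 hk1 => by omega)
  · exact Dq_of (by omega) (by omega) (by omega) (by omega) (by omega)
      (fun k0 k1 hk0 hk1 => by omega)
  · exact Dq_of (by omega) (by omega) (by omega) (by omega) (by omega)
      (fun k0 k1 hk0 hk1 => by omega)

theorem t3_left (hN : n = 2 * N ∨ n = 2 * N + 1) (hN2 : 2 ≤ N) (h1 : 1 ≤ b) (hb : b ≤ N - 1)
    (hr0 : 0 ≤ r0) (h01 : r0 < r1) (h12 : r1 < r2) (hr2 : r2 ≤ h) (hc : c = b + 1) :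
    Cf3 n h 0 r0 b r1 c r2 := by
  refine Cf3_mk_id (b + 1) r1 b (r1 + 1) (by omega) (by unfold Ne4; omega) ?_ ?_ ?_
  · exact Dq_of (by omega) (by omega) (by omega) (by omega) (by omega)
      (fun k0 k1 hk0 hk1 => by omega)
  · exact Dq_of (by omega) (by omega) (by omega) (by omega) (by omega)
      (fun k0 k1 hk0 hk1 => by omega)
  · exact Dq_of (by omega) (by omega) (by omega) (by omega) (by omega)
      (fun k0 k1 hk0 hk1 => by omega)

theorem t3_anti_even (hN : n = 2 * N) (hN2 : 2 ≤ N) (hr0 : 0 ≤ r0) (h01 : r0 < r1)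
    (h12 : r1 < r2) (hr2 : r2 ≤ h) (hc1 : -(N - 1) ≤ c) (hc2 : c ≤ -1) :
    Cf3 n h 0 r0 N r1 c r2 := by
  refine Cf3_mk_id (-1) r0 0 (r0 + 1) (by omega) (by unfold Ne4; omega) ?_ ?_ ?_
  · exact Dq_of (by omega) (by omega) (by omega) (by omega) (by omega)
      (fun k0 k1 hk0 hk1 => by omega)
  · exact Dq_of (by omega) (by omega) (by omega) (by omega) (by omega)
      (fun k0 k1 hk0 hk1 => by omega)
  · exact Dq_of (by omega) (by omega) (by omega) (by omega) (by omega)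
      (fun k0 k1 hk0 hk1 => by omega)

theorem t3_anti_odd (hN : n = 2 * N + 1) (hN2 : 2 ≤ N) (hr0 : 0 ≤ r0) (h01 : r0 < r1)
    (h12 : r1 < r2) (hr2 : r2 ≤ h) (hc1 : -N ≤ c) (hc2 : c ≤ -2) :
    Cf3 n h 0 r0 N r1 c r2 := by
  refine Cf3_mk_id (-2) r0 (-1) (r0 + 1) (by omega) (by unfold Ne4; omega) ?_ ?_ ?_
  · exact Dq_of (by omega) (by omega) (by omega) (by omega) (by omega)
      (fun k0 k1 hk0 hk1 => by omega)
  · exact Dq_of (by omega) (by omega) (by omega) (by omega) (by omega)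
      (fun k0 k1 hk0 hk1 => by omega)
  · exact Dq_of (by omega) (by omega) (by omega) (by omega) (by omega)
      (fun k0 k1 hk0 hk1 => by omega)

theorem t3_rAB (hN : n = 2 * N ∨ n = 2 * N + 1) (hN2 : 2 ≤ N) (hr0 : 0 ≤ r0) (h01 : r0 < r1)
    (h12 : r1 < r2) (hr2 : r2 ≤ h) (hb1 : 1 ≤ b) (hb2 : b ≤ N) (hp : (b + (r1 - r0)) % 2 = 0) :
    Cf3 n h 0 r0 b r1 0 r2 := by
  obtain ⟨x, u, hx1, hx2, hy1, hy2, hxy⟩ := exists_sum (a := 0) (b := b - 1)
    (c := 0) (d := r1 - r0 - 1)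
    (S := (b + (r1 - r0)) / 2 - 1) (by omega) (by omega) (by omega) (by omega)
  refine Cf3_mk_01 x (r0 + u) (x + 1) (r0 + u + 1) (by omega) (by unfold Ne4; omega) ?_ ?_ ?_
  · exact Dq_of (by omega) (by omega) (by omega) (by omega) (by omega)
      (fun k0 k1 hk0 hk1 => by omega)
  · exact Dq_of (by omega) (by omega) (by omega) (by omega) (by omega)
      (fun k0 k1 hk0 hk1 => by omega)
  · exact Dq_of (by omega) (by omega) (by omega) (by omega) (by omega)
      (fun k0 k1 hk0 hk1 => by omega)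

theorem t3_rBC (hN : n = 2 * N ∨ n = 2 * N + 1) (hN2 : 2 ≤ N) (hr0 : 0 ≤ r0) (h01 : r0 < r1)
    (h12 : r1 < r2) (hr2 : r2 ≤ h) (hb1 : 1 ≤ b) (hb2 : b ≤ N) (hp : (b + (r2 - r1)) % 2 = 0) :
    Cf3 n h 0 r0 b r1 0 r2 := by
  obtain ⟨w, u, hx1, hx2, hy1, hy2, hxy⟩ := exists_sum (a := 0) (b := b - 1)
    (c := 0) (d := r2 - r1 - 1)
    (S := (b + (r2 - r1)) / 2 - 1) (by omega) (by omega) (by omega) (by omega)
  refine Cf3_mk_12 (b - w) (r1 + u) (b - w - 1) (r1 + u + 1) (by omega) (by unfold Ne4; omega)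
    ?_ ?_ ?_
  · exact Dq_of (by omega) (by omega) (by omega) (by omega) (by omega)
      (fun k0 k1 hk0 hk1 => by omega)
  · exact Dq_of (by omega) (by omega) (by omega) (by omega) (by omega)
      (fun k0 k1 hk0 hk1 => by omega)
  · exact Dq_of (by omega) (by omega) (by omega) (by omega) (by omega)
      (fun k0 k1 hk0 hk1 => by omega)

theorem t3_far (hN : n = 2 * N + 1) (hN2 : 2 ≤ N) (hr0 : 0 ≤ r0) (h01 : r0 < r1)
    (h12 : r1 < r2) (hr2 : r2 ≤ h) (hb1 : 2 ≤ b) (hb2 : b ≤ N) (hp : (b + (r1 - r0)) % 2 = 1) :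
    Cf3 n h 0 r0 b r1 0 r2 := by
  obtain ⟨w, u, hx1, hx2, hy1, hy2, hxy⟩ := exists_sum (a := N + 1 - b) (b := N - 1)
    (c := 0) (d := r1 - r0 - 1)
    (S := (n - b + (r1 - r0)) / 2 - 1) (by omega) (by omega) (by omega) (by omega)
  refine Cf3_mk_01 (-w) (r0 + u) (-w - 1) (r0 + u + 1) (by omega) (by unfold Ne4; omega)
    ?_ ?_ ?_
  · exact Dq_of (by omega) (by omega) (by omega) (by omega) (by omega)
      (fun k0 k1 hk0 hk1 => by omega)
  · exact Dq_of (by omega) (by omega) (by omega) (by omega) (by omega)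
      (fun k0 k1 hk0 hk1 => by omega)
  · exact Dq_of (by omega) (by omega) (by omega) (by omega) (by omega)
      (fun k0 k1 hk0 hk1 => by omega)

theorem t3_vert (hN : n = 2 * N ∨ n = 2 * N + 1) (hN2 : 2 ≤ N) (hr0 : 0 ≤ r0) (h01 : r0 < r1)
    (h12 : r1 < r2) (hr2 : r2 ≤ h) (hb1 : 1 ≤ b) (hb2 : b ≤ N - 1) (M : ℤ)
    (hM : r0 + r2 = 2 * M) : Cf3 n h 0 r0 b r1 0 r2 := by
  rcases lt_trichotomy M r1 with hk | hk | hk
  · refine Cf3_mk_02 1 (M - 1) (-1) (M + 1) (by omega) (by unfold Ne4; omega) ?_ ?_ ?_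
    · exact Dq_of (by omega) (by omega) (by omega) (by omega) (by omega)
        (fun k0 k1 hk0 hk1 => by omega)
    · exact Dq_of (by omega) (by omega) (by omega) (by omega) (by omega)
        (fun k0 k1 hk0 hk1 => by omega)
    · exact Dq_of (by omega) (by omega) (by omega) (by omega) (by omega)
        (fun k0 k1 hk0 hk1 => by omega)
  · refine Cf3_mk_02 0 r0 0 r2 (by omega) (by unfold Ne4; omega) ?_ ?_ ?_
    · exact Dq_of (by omega) (by omega) (by omega) (by omega) (by omega)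
        (fun k0 k1 hk0 hk1 => by omega)
    · exact Dq_of (by omega) (by omega) (by omega) (by omega) (by omega)
        (fun k0 k1 hk0 hk1 => by omega)
    · exact Dq_of (by omega) (by omega) (by omega) (by omega) (by omega)
        (fun k0 k1 hk0 hk1 => by omega)
  · refine Cf3_mk_02 1 (M + 1) (-1) (M - 1) (by omega) (by unfold Ne4; omega) ?_ ?_ ?_
    · exact Dq_of (by omega) (by omega) (by omega) (by omega) (by omega)
        (fun k0 k1 hk0 hk1 => by omega)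
    · exact Dq_of (by omega) (by omega) (by omega) (by omega) (by omega)
        (fun k0 k1 hk0 hk1 => by omega)
    · exact Dq_of (by omega) (by omega) (by omega) (by omega) (by omega)
        (fun k0 k1 hk0 hk1 => by omega)

/-- first and third landmark in the same column -/
theorem t3_D3 (hN : n = 2 * N ∨ n = 2 * N + 1) (hN2 : 2 ≤ N) (hr0 : 0 ≤ r0) (h01 : r0 < r1)
    (h12 : r1 < r2) (hr2 : r2 ≤ h) (hb1 : 0 ≤ b) (hb2 : b ≤ N) :
    Cf3 n h 0 r0 b r1 0 r2 := by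
  by_cases k0 : b = 0 ∨ (b = N ∧ n = 2 * N)
  · exact t3_mirror hN hN2 hr0 h01 h12 hr2 k0
  by_cases k1 : (b + (r1 - r0)) % 2 = 0
  · exact t3_rAB hN hN2 hr0 h01 h12 hr2 (by omega) hb2 k1
  by_cases k2 : (b + (r2 - r1)) % 2 = 0
  · exact t3_rBC hN hN2 hr0 h01 h12 hr2 (by omega) hb2 k2
  by_cases k3 : b ≤ N - 1
  · exact t3_vert hN hN2 hr0 h01 h12 hr2 (by omega) k3 ((r0 + r2) / 2) (by omega)
  · exact t3_far (by omega) hN2 hr0 h01 h12 hr2 (by omega) hb2 (by omega)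

theorem t3_special (hN : n = 2 * N + 1) (hN2 : 2 ≤ N) (hr0 : 0 ≤ r0) (h01 : r0 < r1)
    (h12 : r1 < r2) (hr2 : r2 ≤ h) : Cf3 n h 0 r0 N r1 (-1) r2 := by
  by_cases k : (N + (r1 - r0)) % 2 = 0
  · obtain ⟨x, u, hx1, hx2, hy1, hy2, hxy⟩ := exists_sum (a := 0) (b := N - 2)
      (c := 0) (d := r1 - r0 - 1)
      (S := (N + (r1 - r0)) / 2 - 1) (by omega) (by omega) (by omega) (by omega)
    refine Cf3_mk_01 x (r0 + u) (x + 1) (r0 + u + 1) (by omega) (by unfold Ne4; omega) ?_ ?_ ?_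
    · exact Dq_of (by omega) (by omega) (by omega) (by omega) (by omega)
        (fun k0 k1 hk0 hk1 => by omega)
    · exact Dq_of (by omega) (by omega) (by omega) (by omega) (by omega)
        (fun k0 k1 hk0 hk1 => by omega)
    · exact Dq_of (by omega) (by omega) (by omega) (by omega) (by omega)
        (fun k0 k1 hk0 hk1 => by omega)
  · obtain ⟨w, u, hx1, hx2, hy1, hy2, hxy⟩ := exists_sum (a := 1) (b := N - 1)
      (c := 0) (d := r1 - r0 - 1)
      (S := (N + 1 + (r1 - r0)) / 2 - 1) (by omega) (by omega) (by omega) (by omega)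
    refine Cf3_mk_01 (-w) (r0 + u) (-w - 1) (r0 + u + 1) (by omega) (by unfold Ne4; omega)
      ?_ ?_ ?_
    · exact Dq_of (by omega) (by omega) (by omega) (by omega) (by omega)
        (fun k0 k1 hk0 hk1 => by omega)
    · exact Dq_of (by omega) (by omega) (by omega) (by omega) (by omega)
        (fun k0 k1 hk0 hk1 => by omega)
    · exact Dq_of (by omega) (by omega) (by omega) (by omega) (by omega)
        (fun k0 k1 hk0 hk1 => by omega)

theorem three_row_aux (hN : n = 2 * N ∨ n = 2 * N + 1) (hN2 : 2 ≤ N) (hr0 : 0 ≤ r0)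
    (h01 : r0 < r1) (h12 : r1 < r2) (hr2 : r2 ≤ h) (hb1 : 0 ≤ b) (hb2 : b ≤ N)
    (hc1 : 0 ≤ c) (hc2 : c < n) : Cf3 n h 0 r0 b r1 c r2 := by
  have wrap : Cf3 n h 0 r0 b r1 (c - n) r2 → Cf3 n h 0 r0 b r1 c r2 := fun H => by
    refine Cf3_congr (b0 := 0) (b1 := b) (b2 := c - n) (by simp) (by simp) ?_ H
    exact ⟨1, by ring⟩
  by_cases k0 : c = 0
  · subst k0
    exact t3_D3 hN hN2 hr0 h01 h12 hr2 hb1 hb2
  by_cases k1 : b = 0
  · subst k1
    by_cases k2 : c ≤ N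
    · exact t3_0L hN hN2 hr0 h01 h12 hr2 (by omega) k2
    · exact wrap (t3_0R hN hN2 hr0 h01 h12 hr2 (by omega) (by omega))
  by_cases k2 : c ≤ b
  · exact t3_mid hN hN2 hr0 h01 h12 hr2 (by omega) k2 hb2
  by_cases k3 : b ≤ N - 1
  · by_cases k : c = b + 1
    · exact t3_left hN hN2 (by omega) k3 hr0 h01 h12 hr2 k
    · apply wrap
      by_cases k2 : c - n + N - 1 ≤ -1
      · exact t3_right hN hN2 (c - n + N - 1) (by omega) hr0 h01 h12 hr2 (by omega) (by omega)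
          (by omega) (by omega)
      · exact t3_right hN hN2 (-1) (by omega) hr0 h01 h12 hr2 (by omega) (by omega)
          (by omega) (by omega)
  · have hbN : b = N := by omega
    subst hbN
    apply wrap
    rcases hN with hN | hN
    · exact t3_anti_even hN hN2 hr0 h01 h12 hr2 (by omega) (by omega)
    · by_cases k4 : c - n = -1
      · rw [k4]
        exact t3_special hN hN2 hr0 h01 h12 hr2
      · exact t3_anti_odd hN hN2 hr0 h01 h12 hr2 (by omega) (by omega)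

/-- three landmarks in three different rows -/
theorem three_row {a : ℤ} (hN : n = 2 * N ∨ n = 2 * N + 1) (hN2 : 2 ≤ N) (hr0 : 0 ≤ r0)
    (h01 : r0 < r1) (h12 : r1 < r2) (hr2 : r2 ≤ h) : Cf3 n h a r0 b r1 c r2 := by
  have hn : 0 < n := by omega
  have main : ∀ b c : ℤ, 0 ≤ b → b ≤ N → Cf3 n h 0 r0 b r1 c r2 := by
    intro b c h1 h2
    obtain ⟨c', k1, k2, k3⟩ := exists_red hn c
    exact Cf3_congr (b0 := 0) (b1 := b) (b2 := c') (by simp) (by simp) k3
      (three_row_aux hN hN2 hr0 h01 h12 hr2 h1 h2 k1 k2)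
  refine Cf3_trans (-a) ?_
  have e0 : a + -a = 0 := by ring
  rw [e0]
  obtain ⟨b', k1, k2, k3⟩ := exists_red hn (b + -a)
  by_cases hb : b' ≤ N
  · exact Cf3_congr (b0 := 0) (b1 := b') (b2 := c + -a) (by simp) k3 (by simp)
      (main b' (c + -a) k1 hb)
  · refine Cf3_refl hn ?_
    have H := main (n - b') (-(c + -a)) (by omega) (by omega)
    refine Cf3_congr (b0 := 0) (b1 := n - b') (b2 := -(c + -a)) (by simp) ?_ (by simp) H
    have e : -(b + -a) - (n - b') = -(b + -a - b') - n := by ring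
    rw [e]
    exact dvd_sub ((dvd_neg).2 k3) (dvd_refl _)

end Pool.Agent.H74.MD
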