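import Pool.Agent.H74.MD.RowZero

namespace Pool.Agent.H74.MD

theorem exists_sum {a b c d S : ℤ} (h1 : a ≤ b) (h2 : c ≤ d) (h3 : a + c ≤ S) (h4 : S ≤ b + d) :
    ∃ x y : ℤ, a ≤ x ∧ x ≤ b ∧ c ≤ y ∧ y ≤ d ∧ x + y = S := by
  by_cases h : S - c ≤ b
  · exact ⟨S - c, c, by omega, by omega, by omega, by omega, by omega⟩
  · exact ⟨b, S - b, by omega, by omega, by omega, by omega, by omega⟩

theorem exists_diff {a b c d S : ℤ} (h1 : a ≤ b) (h2 : c ≤ d) (h3 : a - d ≤ S) (h4 : S ≤ b - c) :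
    ∃ x y : ℤ, a ≤ x ∧ x ≤ b ∧ c ≤ y ∧ y ≤ d ∧ x = y + S := by
  by_cases h : S + c ≥ a
  · exact ⟨S + c, c, by omega, by omega, by omega, by omega, by omega⟩
  · exact ⟨a, a - S, by omega, by omega, by omega, by omega, by omega⟩

section

variable {n N h α c r r2 : ℤ}

/-- step to the right, towards `A`, `B` and away from `C` -/
theorem d2_right (hN : n = 2 * N ∨ n = 2 * N + 1) (hN2 : 2 ≤ N) (x : ℤ) (h1 : 1 ≤ α)
    (hr : 0 ≤ r) (hr2 : r < r2) (hr3 : r2 ≤ h)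
    (hx1 : α - N ≤ x) (hx2 : x ≤ -1) (hc1 : x - (N - 1) ≤ c) (hc2 : c ≤ x) :
    Cf3 n h 0 r α r c r2 := by
  refine Cf3_mk_id x r (x + 1) (r + 1) (by omega) (by unfold Ne4; omega) ?_ ?_ ?_
  · exact Dq_of (by omega) (by omega) (by omega) (by omega) (by omega)
      (fun k0 k1 hk0 hk1 => by omega)
  · exact Dq_of (by omega) (by omega) (by omega) (by omega) (by omega)
      (fun k0 k1 hk0 hk1 => by omega)
  · exact Dq_of (by omega) (by omega) (by omega) (by omega) (by omega)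
      (fun k0 k1 hk0 hk1 => by omega)

/-- step to the left, towards `A`, `B` and away from `C` -/
theorem d2_left (hN : n = 2 * N ∨ n = 2 * N + 1) (hN2 : 2 ≤ N) (x : ℤ) (h1 : 1 ≤ α)
    (hr : 0 ≤ r) (hr2 : r < r2) (hr3 : r2 ≤ h)
    (hx1 : α + 1 ≤ x) (hx2 : x ≤ N) (hc1 : x ≤ c) (hc2 : c ≤ x + (N - 1)) :
    Cf3 n h 0 r α r c r2 := by
  refine Cf3_mk_id x r (x - 1) (r + 1) (by omega) (by unfold Ne4; omega) ?_ ?_ ?_
  · exact Dq_of (by omega) (by omega) (by omega) (by omega) (by omega)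
      (fun k0 k1 hk0 hk1 => by omega)
  · exact Dq_of (by omega) (by omega) (by omega) (by omega) (by omega)
      (fun k0 k1 hk0 hk1 => by omega)
  · exact Dq_of (by omega) (by omega) (by omega) (by omega) (by omega)
      (fun k0 k1 hk0 hk1 => by omega)

theorem d2_top (hN : n = 2 * N ∨ n = 2 * N + 1) (hN2 : 2 ≤ N) (h1 : 1 ≤ α) (hα : α ≤ N - 1)
    (hr : 0 ≤ r) (hr2 : r < r2) (hr3 : r2 < h) (hc1 : 0 ≤ c) (hc2 : c ≤ α) :
    Cf3 n h 0 r α r c r2 := by
  refine Cf3_mk_id (-1) r2 0 (r2 + 1) (by omega) (by unfold Ne4; omega) ?_ ?_ ?_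
  · exact Dq_of (by omega) (by omega) (by omega) (by omega) (by omega)
      (fun k0 k1 hk0 hk1 => by omega)
  · exact Dq_of (by omega) (by omega) (by omega) (by omega) (by omega)
      (fun k0 k1 hk0 hk1 => by omega)
  · exact Dq_of (by omega) (by omega) (by omega) (by omega) (by omega)
      (fun k0 k1 hk0 hk1 => by omega)

theorem d2_bot (hN : n = 2 * N ∨ n = 2 * N + 1) (hN2 : 2 ≤ N) (h1 : 1 ≤ α) (hα : α ≤ N - 1)
    (hr : 0 < r) (hr2 : r < r2) (hr3 : r2 ≤ h) (hc1 : 0 ≤ c) (hc2 : c ≤ α) :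
    Cf3 n h 0 r α r c r2 := by
  refine Cf3_mk_id α (r - 1) (α + 1) r (by omega) (by unfold Ne4; omega) ?_ ?_ ?_
  · exact Dq_of (by omega) (by omega) (by omega) (by omega) (by omega)
      (fun k0 k1 hk0 hk1 => by omega)
  · exact Dq_of (by omega) (by omega) (by omega) (by omega) (by omega)
      (fun k0 k1 hk0 hk1 => by omega)
  · exact Dq_of (by omega) (by omega) (by omega) (by omega) (by omega)
      (fun k0 k1 hk0 hk1 => by omega)

end

section

variable {n N h p q : ℤ}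

/-- `A = (0,0)`, `B = (p+q,0)`, `C = (p,h)` with `p = q`. -/
theorem s2_eq (hN : n = 2 * N ∨ n = 2 * N + 1) (hh : 1 ≤ h) (hp : 0 ≤ p) (hq : 0 ≤ q)
    (hpq : 1 ≤ p + q) (hpq2 : p + q ≤ N - 1) (he : p = q) : Cf3 n h 0 0 (p + q) 0 p h := by
  refine Cf3_mk_01 0 0 (p + q) 0 (by omega) (by unfold Ne4; omega) ?_ ?_ ?_
  · exact Dq_of (by omega) (by omega) (by omega) (by omega) (by omega)
      (fun k0 k1 hk0 hk1 => by omega)
  · exact Dq_of (by omega) (by omega) (by omega) (by omega) (by omega)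
      (fun k0 k1 hk0 hk1 => by omega)
  · exact Dq_of (by omega) (by omega) (by omega) (by omega) (by omega)
      (fun k0 k1 hk0 hk1 => by omega)

theorem s2_rect (hN : n = 2 * N ∨ n = 2 * N + 1) (hh : 1 ≤ h) (hp : 0 ≤ p) (hq : 0 ≤ q)
    (hpq : 1 ≤ p + q) (hpq2 : p + q ≤ N - 1) (h1 : 1 ≤ p) (h2 : (p + h) % 2 = 0) :
    Cf3 n h 0 0 (p + q) 0 p h := by
  obtain ⟨x, y, hx1, hx2, hy1, hy2, hxy⟩ := exists_sum (a := 0) (b := p - 1) (c := 0) (d := h - 1)
    (S := (p + h) / 2 - 1) (by omega) (by omega) (by omega) (by omega)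
  refine Cf3_mk_02 x y (x + 1) (y + 1) (by omega) (by unfold Ne4; omega) ?_ ?_ ?_
  · exact Dq_of (by omega) (by omega) (by omega) (by omega) (by omega)
      (fun k0 k1 hk0 hk1 => by omega)
  · exact Dq_of (by omega) (by omega) (by omega) (by omega) (by omega)
      (fun k0 k1 hk0 hk1 => by omega)
  · exact Dq_of (by omega) (by omega) (by omega) (by omega) (by omega)
      (fun k0 k1 hk0 hk1 => by omega)

theorem s2_zero (hN : n = 2 * N ∨ n = 2 * N + 1) (hh : 1 ≤ h) (hp : p = 0) (hq : 0 ≤ q)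
    (hpq : 1 ≤ p + q) (hpq2 : p + q ≤ N - 1) (h2 : h % 2 = 0) :
    Cf3 n h 0 0 (p + q) 0 p h := by
  refine Cf3_mk_02 1 (h / 2 + 1) (-1) (h / 2 - 1) (by omega) (by unfold Ne4; omega) ?_ ?_ ?_
  · exact Dq_of (by omega) (by omega) (by omega) (by omega) (by omega)
      (fun k0 k1 hk0 hk1 => by omega)
  · exact Dq_of (by omega) (by omega) (by omega) (by omega) (by omega)
      (fun k0 k1 hk0 hk1 => by omega)
  · exact Dq_of (by omega) (by omega) (by omega) (by omega) (by omega)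
      (fun k0 k1 hk0 hk1 => by omega)

theorem s2_par1 (hN : n = 2 * N) (hh : 1 ≤ h) (hp : 0 ≤ p)
    (hpq : 1 ≤ p + q) (hpq2 : p + q ≤ N - 1) (s : ℤ) (hs : q = p + 2 * s) (hs1 : 1 ≤ s)
    (hs2 : s ≤ h) (hs3 : p + q + s ≤ N) :
    Cf3 n h 0 0 (p + q) 0 p h := by
  refine Cf3_mk_01 (-s) 0 (p + q) s (by omega) (by unfold Ne4; omega) ?_ ?_ ?_
  · exact Dq_of (by omega) (by omega) (by omega) (by omega) (by omega)
      (fun k0 k1 hk0 hk1 => by omega)
  · exact Dq_of (by omega) (by omega) (by omega) (by omega) (by omega)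
      (fun k0 k1 hk0 hk1 => by omega)
  · exact Dq_of (by omega) (by omega) (by omega) (by omega) (by omega)
      (fun k0 k1 hk0 hk1 => by omega)

theorem s2_par2 (hN : n = 2 * N) (hh : 1 ≤ h) (hp : 0 ≤ p)
    (hpq : 1 ≤ p + q) (hpq2 : p + q ≤ N - 1) (s : ℤ) (hs : q = p + 2 * s) (hs1 : 1 ≤ s)
    (hs2 : N - (p + q) ≤ h) (hs3 : N ≤ p + q + s) :
    Cf3 n h 0 0 (p + q) 0 p h := by
  refine Cf3_mk_01 (-s) 0 (N - s) (N - (p + q)) (by omega) (by unfold Ne4; omega) ?_ ?_ ?_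
  · exact Dq_of (by omega) (by omega) (by omega) (by omega) (by omega)
      (fun k0 k1 hk0 hk1 => by omega)
  · exact Dq_of (by omega) (by omega) (by omega) (by omega) (by omega)
      (fun k0 k1 hk0 hk1 => by omega)
  · exact Dq_of (by omega) (by omega) (by omega) (by omega) (by omega)
      (fun k0 k1 hk0 hk1 => by omega)

theorem s2_far (hN : n = 2 * N + 1) (hh : 1 ≤ h) (hp : 0 ≤ p) (hq : 2 ≤ q)
    (hpq2 : p + q ≤ N - 1) (h2 : (q + h) % 2 = 1) :
    Cf3 n h 0 0 (p + q) 0 p h := by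
  obtain ⟨x, y, hx1, hx2, hy1, hy2, hxy⟩ := exists_sum (a := p + N + 1) (b := p + q + N - 1)
    (c := 0) (d := h - 1)
    (S := (n + p + h + p + q) / 2 - 1) (by omega) (by omega) (by omega) (by omega)
  refine Cf3_mk_12 x y (x + 1) (y + 1) (by omega) (by unfold Ne4; omega) ?_ ?_ ?_
  · exact Dq_of (by omega) (by omega) (by omega) (by omega) (by omega)
      (fun k0 k1 hk0 hk1 => by omega)
  · exact Dq_of (by omega) (by omega) (by omega) (by omega) (by omega)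
      (fun k0 k1 hk0 hk1 => by omega)
  · exact Dq_of (by omega) (by omega) (by omega) (by omega) (by omega)
      (fun k0 k1 hk0 hk1 => by omega)

/-- reflection `p ↔ q` -/
theorem s2_refl (hn : 0 < n) (H : Cf3 n h 0 0 (q + p) 0 q h) : Cf3 n h 0 0 (p + q) 0 p h := by
  refine Cf3_refl hn (Cf3_trans (p + q) ?_)
  have e1 : -0 + (p + q) = q + p := by ring
  have e2 : -(p + q) + (p + q) = 0 := by ring
  have e3 : -p + (p + q) = q := by ring
  rw [e1, e2, e3]
  exact Cf3_swap01 H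

theorem s2_even_aux (hN : n = 2 * N) (hh : 1 ≤ h) (hp : 0 ≤ p) (hq : 0 ≤ q) (hpq : p ≤ q)
    (hpq1 : 1 ≤ p + q) (hpq2 : p + q ≤ N - 1) (hf : Fail n h) :
    Cf3 n h 0 0 (p + q) 0 p h := by
  unfold Fail at hf
  by_cases e : p = q
  · exact s2_eq (Or.inl hN) hh hp hq hpq1 hpq2 e
  by_cases e1 : (p + h) % 2 = 0
  · by_cases e2 : p = 0
    · exact s2_zero (Or.inl hN) hh e2 hq hpq1 hpq2 (by omega)
    · exact s2_rect (Or.inl hN) hh hp hq hpq1 hpq2 (by omega) e1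
  by_cases e3 : (q + h) % 2 = 0
  · exact s2_refl (by omega) (s2_rect (Or.inl hN) hh hq hp (by omega) (by omega) (by omega) e3)
  obtain ⟨s, hs⟩ : ∃ s, q = p + 2 * s := ⟨(q - p) / 2, by omega⟩
  by_cases e4 : p + q + s ≤ N
  · by_cases e5 : s ≤ h
    · exact s2_par1 hN hh hp hpq1 hpq2 s hs (by omega) e5 e4
    · omega
  · by_cases e5 : N - (p + q) ≤ h
    · exact s2_par2 hN hh hp hpq1 hpq2 s hs (by omega) e5 (by omega)
    · omega

theorem s2_odd_aux (hN : n = 2 * N + 1) (hN2 : 2 ≤ N) (hh : 1 ≤ h) (hp : 0 ≤ p) (hq : 0 ≤ q)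
    (hpq : p ≤ q) (hpq1 : 1 ≤ p + q) (hpq2 : p + q ≤ N - 1) :
    Cf3 n h 0 0 (p + q) 0 p h := by
  by_cases e : p = q
  · exact s2_eq (Or.inr hN) hh hp hq hpq1 hpq2 e
  by_cases e3 : (q + h) % 2 = 0
  · exact s2_refl (by omega) (s2_rect (Or.inr hN) hh hq hp (by omega) (by omega) (by omega) e3)
  by_cases e4 : 2 ≤ q
  · exact s2_far hN hh hp e4 hpq2 (by omega)
  · exact s2_zero (Or.inr hN) hh (by omega) hq hpq1 hpq2 (by omega)

theorem s2_all (hN : n = 2 * N ∨ n = 2 * N + 1) (hN2 : 2 ≤ N) (hh : 1 ≤ h) (hp : 0 ≤ p)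
    (hq : 0 ≤ q) (hpq1 : 1 ≤ p + q) (hpq2 : p + q ≤ N - 1) (hf : Fail n h) :
    Cf3 n h 0 0 (p + q) 0 p h := by
  have hn : 0 < n := by omega
  rcases hN with hN | hN
  · rcases le_total p q with h1 | h1
    · exact s2_even_aux hN hh hp hq h1 hpq1 hpq2 hf
    · exact s2_refl hn (s2_even_aux hN hh hq hp h1 (by omega) (by omega) hf)
  · rcases le_total p q with h1 | h1
    · exact s2_odd_aux hN hN2 hh hp hq h1 hpq1 hpq2
    · exact s2_refl hn (s2_odd_aux hN hN2 hh hq hp h1 (by omega) (by omega))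

/-- two landmarks in row `r` at distance at most `N-1`, third one in a higher row -/
theorem two_short {α c r r2 : ℤ} (hN : n = 2 * N ∨ n = 2 * N + 1) (hN2 : 2 ≤ N) (h1 : 1 ≤ α)
    (hα : α ≤ N - 1) (hr : 0 ≤ r) (hr2 : r < r2) (hr3 : r2 ≤ h) (hc1 : 0 ≤ c) (hc2 : c < n)
    (hf : Fail n h) : Cf3 n h 0 r α r c r2 := by
  by_cases hc : c ≤ α
  · by_cases k1 : r2 < h
    · exact d2_top hN hN2 h1 hα hr hr2 k1 hc1 hc
    by_cases k2 : 0 < r
    · exact d2_bot hN hN2 h1 hα k2 hr2 hr3 hc1 hc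
    have e1 : r = 0 := by omega
    have e2 : r2 = h := by omega
    subst e1 e2
    have := s2_all (p := c) (q := α - c) (n := n) (N := N) (h := r2) hN hN2 (by omega) hc1
      (by omega) (by omega) (by omega) hf
    have e3 : c + (α - c) = α := by ring
    rw [e3] at this
    exact this
  · -- c outside [0, α]
    by_cases k : c = α + 1
    · exact d2_left hN hN2 (α + 1) h1 hr hr2 hr3 (by omega) (by omega) (by omega) (by omega)
    · have H : Cf3 n h 0 r α r (c - n) r2 := by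
        by_cases k2 : c - n + N - 1 ≤ -1
        · exact d2_right hN hN2 (c - n + N - 1) h1 hr hr2 hr3 (by omega) (by omega) (by omega)
            (by omega)
        · exact d2_right hN hN2 (-1) h1 hr hr2 hr3 (by omega) (by omega) (by omega) (by omega)
      refine Cf3_congr (b0 := 0) (b1 := α) (b2 := c - n) (by simp) (by simp) ?_ H
      exact ⟨1, by ring⟩

end

end Pool.Agent.H74.MD
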