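import Pool.Agent.H74.MD.TwoRow

namespace Pool.Agent.H74.MD

variable {n N h c e r r2 : ℤ}

theorem d1_mirror (hN : n = 2 * N) (hN2 : 2 ≤ N) (hr : 0 ≤ r) (hr2 : r < r2) (hr3 : r2 ≤ h)
    (hc : c = 0 ∨ c = N) : Cf3 n h 0 r N r c r2 := by
  refine Cf3_mk_id 1 r (-1) r (by omega) (by unfold Ne4; omega) ?_ ?_ ?_
  · exact Dq_of (by omega) (by omega) (by omega) (by omega) (by omega)
      (fun k0 k1 hk0 hk1 => by omega)
  · exact Dq_of (by omega) (by omega) (by omega) (by omega) (by omega)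
      (fun k0 k1 hk0 hk1 => by omega)
  · exact Dq_of (by omega) (by omega) (by omega) (by omega) (by omega)
      (fun k0 k1 hk0 hk1 => by omega)

theorem d1_rectA (hN : n = 2 * N) (hN2 : 2 ≤ N) (hr : 0 ≤ r) (hr2 : r < r2) (hr3 : r2 ≤ h)
    (hc1 : 1 ≤ c) (hc2 : c ≤ N) (hp : (c + (r2 - r)) % 2 = 0) : Cf3 n h 0 r N r c r2 := by
  obtain ⟨x, y, hx1, hx2, hy1, hy2, hxy⟩ := exists_sum (a := 0) (b := c - 1)
    (c := 0) (d := r2 - r - 1)
    (S := (c + (r2 - r)) / 2 - 1) (by omega) (by omega) (by omega) (by omega)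
  refine Cf3_mk_02 x (r + y) (x + 1) (r + y + 1) (by omega) (by unfold Ne4; omega) ?_ ?_ ?_
  · exact Dq_of (by omega) (by omega) (by omega) (by omega) (by omega)
      (fun k0 k1 hk0 hk1 => by omega)
  · exact Dq_of (by omega) (by omega) (by omega) (by omega) (by omega)
      (fun k0 k1 hk0 hk1 => by omega)
  · exact Dq_of (by omega) (by omega) (by omega) (by omega) (by omega)
      (fun k0 k1 hk0 hk1 => by omega)

theorem d1_rectB (hN : n = 2 * N ∨ n = 2 * N + 1) (hN2 : 2 ≤ N) (hr : 0 ≤ r) (hr2 : r < r2)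
    (hr3 : r2 ≤ h) (hc1 : 0 ≤ c) (hc2 : c ≤ N - 1) (hp : (N - c + (r2 - r)) % 2 = 0) :
    Cf3 n h 0 r N r c r2 := by
  obtain ⟨w, y, hx1, hx2, hy1, hy2, hxy⟩ := exists_sum (a := 0) (b := N - c - 1)
    (c := 0) (d := r2 - r - 1)
    (S := (N - c + (r2 - r)) / 2 - 1) (by omega) (by omega) (by omega) (by omega)
  refine Cf3_mk_12 (N - w) (r + y) (N - w - 1) (r + y + 1) (by omega) (by unfold Ne4; omega)
    ?_ ?_ ?_
  · exact Dq_of (by omega) (by omega) (by omega) (by omega) (by omega)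
      (fun k0 k1 hk0 hk1 => by omega)
  · exact Dq_of (by omega) (by omega) (by omega) (by omega) (by omega)
      (fun k0 k1 hk0 hk1 => by omega)
  · exact Dq_of (by omega) (by omega) (by omega) (by omega) (by omega)
      (fun k0 k1 hk0 hk1 => by omega)

theorem d1_anti (hN : n = 2 * N) (hN2 : 2 ≤ N) (hr : 0 ≤ r) (hr2 : r < r2) (hr3 : r2 ≤ h)
    (hc1 : 1 ≤ c) (hc2 : c ≤ N - 1) (M : ℤ) (hp : N = 2 * M) : Cf3 n h 0 r N r c r2 := by
  refine Cf3_mk_01 (c + M) r (c - M) r (by omega) (by unfold Ne4; omega) ?_ ?_ ?_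
  · exact Dq_of (by omega) (by omega) (by omega) (by omega) (by omega)
      (fun k0 k1 hk0 hk1 => by omega)
  · exact Dq_of (by omega) (by omega) (by omega) (by omega) (by omega)
      (fun k0 k1 hk0 hk1 => by omega)
  · exact Dq_of (by omega) (by omega) (by omega) (by omega) (by omega)
      (fun k0 k1 hk0 hk1 => by omega)

theorem d1_even_aux (hN : n = 2 * N) (hN2 : 2 ≤ N) (hr : 0 ≤ r) (hr2 : r < r2) (hr3 : r2 ≤ h)
    (hc1 : 0 ≤ c) (hc2 : c ≤ N) : Cf3 n h 0 r N r c r2 := by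
  by_cases h0 : c = 0 ∨ c = N
  · exact d1_mirror hN hN2 hr hr2 hr3 h0
  by_cases h1 : (c + (r2 - r)) % 2 = 0
  · exact d1_rectA hN hN2 hr hr2 hr3 (by omega) hc2 h1
  by_cases h2 : (N - c + (r2 - r)) % 2 = 0
  · exact d1_rectB (Or.inl hN) hN2 hr hr2 hr3 hc1 (by omega) h2
  · exact d1_anti hN hN2 hr hr2 hr3 (by omega) (by omega) (N / 2) (by omega)

theorem d1_even (hN : n = 2 * N) (hN2 : 2 ≤ N) (hr : 0 ≤ r) (hr2 : r < r2) (hr3 : r2 ≤ h)
    (hc1 : 0 ≤ c) (hc2 : c < n) : Cf3 n h 0 r N r c r2 := by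
  by_cases hc : c ≤ N
  · exact d1_even_aux hN hN2 hr hr2 hr3 hc1 hc
  · have H := d1_even_aux (c := n - c) hN hN2 hr hr2 hr3 (by omega) (by omega)
    refine Cf3_refl (by omega) ?_
    refine Cf3_congr (b0 := 0) (b1 := N) (b2 := n - c) (by simp) ?_ ?_ H
    · exact ⟨-1, by omega⟩
    · exact ⟨-1, by ring⟩

theorem d1_odd_side (hN : n = 2 * N + 1) (hN2 : 2 ≤ N) (hr : 0 ≤ r) (hr2 : r < r2) (hr3 : r2 ≤ h)
    (hc1 : 0 ≤ c) (hc2 : c ≤ N - 2) (hp : (N - c + (r2 - r)) % 2 = 1) : Cf3 n h 0 r N r c r2 := by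
  obtain ⟨w, u, hx1, hx2, hy1, hy2, hxy⟩ := exists_diff (a := 2) (b := N - c)
    (c := 0) (d := r2 - r - 1)
    (S := (N + 3 - c - (r2 - r)) / 2) (by omega) (by omega) (by omega) (by omega)
  refine Cf3_mk_12 (-w) (r + u) (-w + 1) (r + u + 1) (by omega) (by unfold Ne4; omega)
    ?_ ?_ ?_
  · exact Dq_of (by omega) (by omega) (by omega) (by omega) (by omega)
      (fun k0 k1 hk0 hk1 => by omega)
  · exact Dq_of (by omega) (by omega) (by omega) (by omega) (by omega)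
      (fun k0 k1 hk0 hk1 => by omega)
  · exact Dq_of (by omega) (by omega) (by omega) (by omega) (by omega)
      (fun k0 k1 hk0 hk1 => by omega)

theorem d1_odd_aux (hN : n = 2 * N + 1) (hN2 : 2 ≤ N) (hr : 0 ≤ r) (hr2 : r < r2) (hr3 : r2 ≤ h)
    (hc1 : 0 ≤ c) (hc2 : c ≤ N - 2) : Cf3 n h 0 r N r c r2 := by
  by_cases h2 : (N - c + (r2 - r)) % 2 = 0
  · exact d1_rectB (Or.inr hN) hN2 hr hr2 hr3 hc1 (by omega) h2
  · exact d1_odd_side hN hN2 hr hr2 hr3 hc1 hc2 (by omega)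

theorem d1_flip (hn : 0 < n) (H : Cf3 n h 0 r N r (N - c) r2) : Cf3 n h 0 r N r c r2 := by
  refine Cf3_refl hn (Cf3_trans N ?_)
  have e1 : -0 + N = N := by ring
  have e2 : -N + N = 0 := by ring
  have e3 : -c + N = N - c := by ring
  rw [e1, e2, e3]
  exact Cf3_swap01 H

theorem d1_odd_in (hN : n = 2 * N + 1) (hN2 : 2 ≤ N) (hr : 0 ≤ r) (hr2 : r < r2) (hr3 : r2 ≤ h)
    (hc1 : 0 ≤ c) (hc2 : c ≤ N) : Cf3 n h 0 r N r c r2 := by
  by_cases k1 : c ≤ N - 2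
  · exact d1_odd_aux hN hN2 hr hr2 hr3 hc1 k1
  by_cases k2 : 2 ≤ c
  · exact d1_flip (by omega) (d1_odd_aux (c := N - c) hN hN2 hr hr2 hr3 (by omega) (by omega))
  · refine Cf3_mk_01 0 r 2 r (by omega) (by unfold Ne4; omega) ?_ ?_ ?_
    · exact Dq_of (by omega) (by omega) (by omega) (by omega) (by omega)
        (fun k0 k1 hk0 hk1 => by omega)
    · exact Dq_of (by omega) (by omega) (by omega) (by omega) (by omega)
        (fun k0 k1 hk0 hk1 => by omega)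
    · exact Dq_of (by omega) (by omega) (by omega) (by omega) (by omega)
        (fun k0 k1 hk0 hk1 => by omega)

/-- `C = (-e, r2)` -/
theorem d1_odd_L (hN : n = 2 * N + 1) (hN2 : 2 ≤ N) (hr : 0 ≤ r) (hr2 : r < r2) (hr3 : r2 ≤ h)
    (he1 : 2 ≤ e) (he2 : e ≤ N) (hp : (e + (r2 - r)) % 2 = 0) :
    Cf3 n h 0 r N r (-e) r2 := by
  obtain ⟨w, u, hx1, hx2, hy1, hy2, hxy⟩ := exists_sum (a := 1) (b := e - 1)
    (c := 0) (d := r2 - r - 1)
    (S := (e + (r2 - r)) / 2 - 1) (by omega) (by omega) (by omega) (by omega)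
  refine Cf3_mk_02 (-w) (r + u) (-w - 1) (r + u + 1) (by omega) (by unfold Ne4; omega)
    ?_ ?_ ?_
  · exact Dq_of (by omega) (by omega) (by omega) (by omega) (by omega)
      (fun k0 k1 hk0 hk1 => by omega)
  · exact Dq_of (by omega) (by omega) (by omega) (by omega) (by omega)
      (fun k0 k1 hk0 hk1 => by omega)
  · exact Dq_of (by omega) (by omega) (by omega) (by omega) (by omega)
      (fun k0 k1 hk0 hk1 => by omega)

theorem d1_odd_R (hN : n = 2 * N + 1) (hN2 : 2 ≤ N) (hr : 0 ≤ r) (hr2 : r < r2) (hr3 : r2 ≤ h)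
    (he1 : 1 ≤ e) (he2 : e ≤ N - 1) (hp : (N - e + (r2 - r)) % 2 = 0) :
    Cf3 n h 0 r N r (-e) r2 := by
  obtain ⟨x, u, hx1, hx2, hy1, hy2, hxy⟩ := exists_diff (a := 1) (b := N - e)
    (c := 0) (d := r2 - r - 1)
    (S := (N + 2 - e - (r2 - r)) / 2) (by omega) (by omega) (by omega) (by omega)
  refine Cf3_mk_12 x (r + u) (x - 1) (r + u + 1) (by omega) (by unfold Ne4; omega)
    ?_ ?_ ?_
  · exact Dq_of (by omega) (by omega) (by omega) (by omega) (by omega)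
      (fun k0 k1 hk0 hk1 => by omega)
  · exact Dq_of (by omega) (by omega) (by omega) (by omega) (by omega)
      (fun k0 k1 hk0 hk1 => by omega)
  · exact Dq_of (by omega) (by omega) (by omega) (by omega) (by omega)
      (fun k0 k1 hk0 hk1 => by omega)

theorem d1_odd_flip (hN : n = 2 * N + 1) (hN2 : 2 ≤ N)
    (H : Cf3 n h 0 r N r (-(N + 1 - e)) r2) : Cf3 n h 0 r N r (-e) r2 := by
  refine d1_flip (by omega) ?_
  refine Cf3_congr (b0 := 0) (b1 := N) (b2 := -(N + 1 - e)) (by simp) (by simp) ?_ H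
  exact ⟨1, by omega⟩

theorem d1_odd_out (hN : n = 2 * N + 1) (hN2 : 2 ≤ N) (hr : 0 ≤ r) (hr2 : r < r2) (hr3 : r2 ≤ h)
    (he1 : 1 ≤ e) (he2 : e ≤ N) : Cf3 n h 0 r N r (-e) r2 := by
  by_cases k1 : 2 ≤ e
  · by_cases k2 : (e + (r2 - r)) % 2 = 0
    · exact d1_odd_L hN hN2 hr hr2 hr3 k1 he2 k2
    · exact d1_odd_flip hN hN2 (d1_odd_R hN hN2 hr hr2 hr3 (by omega) (by omega) (by omega))
  · by_cases k2 : (N - e + (r2 - r)) % 2 = 0
    · exact d1_odd_R hN hN2 hr hr2 hr3 he1 (by omega) k2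
    · exact d1_odd_flip hN hN2 (d1_odd_L hN hN2 hr hr2 hr3 (by omega) (by omega) (by omega))

theorem two_long (hN : n = 2 * N ∨ n = 2 * N + 1) (hN2 : 2 ≤ N) (hr : 0 ≤ r) (hr2 : r < r2)
    (hr3 : r2 ≤ h) (hc1 : 0 ≤ c) (hc2 : c < n) : Cf3 n h 0 r N r c r2 := by
  rcases hN with hN | hN
  · exact d1_even hN hN2 hr hr2 hr3 hc1 hc2
  · by_cases hc : c ≤ N
    · exact d1_odd_in hN hN2 hr hr2 hr3 hc1 hc
    · have H := d1_odd_out (e := n - c) hN hN2 hr hr2 hr3 (by omega) (by omega)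
      refine Cf3_congr (b0 := 0) (b1 := N) (b2 := -(n - c)) (by simp) (by simp) ?_ H
      exact ⟨1, by ring⟩

/-- two landmarks `(0,r)`, `(b,r)` in the same row, the third one higher. -/
theorem two_row_aux {b : ℤ} (hN : n = 2 * N ∨ n = 2 * N + 1) (hN2 : 2 ≤ N) (hb1 : 1 ≤ b)
    (hb2 : b ≤ N) (hr : 0 ≤ r) (hr2 : r < r2) (hr3 : r2 ≤ h) (hc1 : 0 ≤ c) (hc2 : c < n)
    (hf : Fail n h) : Cf3 n h 0 r b r c r2 := by
  by_cases hb : b = N
  · subst hb
    exact two_long hN hN2 hr hr2 hr3 hc1 hc2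
  · exact two_short hN hN2 hb1 (by omega) hr hr2 hr3 hc1 hc2 hf

theorem exists_red {n : ℤ} (hn : 0 < n) (a : ℤ) : ∃ b, 0 ≤ b ∧ b < n ∧ n ∣ a - b :=
  ⟨a % n, Int.emod_nonneg a (by omega), Int.emod_lt_of_pos a hn, Int.dvd_self_sub_of_emod_eq rfl⟩

/-- two landmarks in the same row, the third one higher. -/
theorem two_row_up {a b : ℤ} (hN : n = 2 * N ∨ n = 2 * N + 1) (hN2 : 2 ≤ N)
    (hab : ¬ n ∣ a - b) (hr : 0 ≤ r) (hr2 : r < r2) (hr3 : r2 ≤ h)
    (hf : Fail n h) : Cf3 n h a r b r c r2 := by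
  have hn : 0 < n := by omega
  have key : ∀ a b : ℤ, (∃ k, 1 ≤ k ∧ k ≤ N ∧ n ∣ (b - a) - k) → Cf3 n h a r b r c r2 := by
    rintro a b ⟨k, hk1, hk2, hk3⟩
    refine Cf3_trans (-a) ?_
    obtain ⟨c', h1, h2, h3⟩ := exists_red hn (c + -a)
    have H := two_row_aux (b := k) (c := c') hN hN2 hk1 hk2 hr hr2 hr3 h1 h2 hf
    refine Cf3_congr (b0 := 0) (b1 := k) (b2 := c') (by simp) ?_ h3 H
    have e : b + -a - k = b - a - k := by ring
    rw [e]; exact hk3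
  obtain ⟨k, h1, h2, h3⟩ := exists_red hn (b - a)
  have hk0 : k ≠ 0 := by
    intro h0
    apply hab
    rw [h0] at h3
    have e : a - b = -(b - a - 0) := by ring
    rw [e]; exact (dvd_neg).2 h3
  by_cases hk : k ≤ N
  · exact key a b ⟨k, by omega, hk, h3⟩
  · refine Cf3_swap01 (key b a ⟨n - k, by omega, by omega, ?_⟩)
    have e : a - b - (n - k) = -(b - a - k) - n := by ring
    rw [e]
    exact dvd_sub ((dvd_neg).2 h3) (dvd_refl _)

/-- two landmarks in the same row, the third one in another row -/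
theorem two_row {a b : ℤ} (hN : n = 2 * N ∨ n = 2 * N + 1) (hN2 : 2 ≤ N)
    (hab : ¬ n ∣ a - b) (hr : 0 ≤ r) (hr' : r ≤ h) (hr2 : 0 ≤ r2) (hr3 : r2 ≤ h) (hne : r ≠ r2)
    (hf : Fail n h) : Cf3 n h a r b r c r2 := by
  rcases lt_or_gt_of_ne hne with hlt | hlt
  · exact two_row_up hN hN2 hab hr hlt hr3 hf
  · exact Cf3_flip (two_row_up hN hN2 hab (by omega) (by omega) (by omega) hf)

end Pool.Agent.H74.MD
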